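import Mathlib
import Pool.Agent.TH841.PT.ATS2
import Pool.Agent.TH841.PT.Bas3
import Pool.Agent.TH344.DT.Atw

/-!
# Project PM: all moments of the 2-Selmer groups in pencils, outside of sets of density zero

`E_t : y² = x (x - A(t)) (x - B(t))`, `A = a 0 ∏ f_j` (classes 0 and 3), `B = a 1 ∏ f_j` (classes 1
and 3), `A - B = a 2 ∏ f_j` (classes 2 and 3), for arbitrary irreducible polynomials `f_j`, `n_c`
of the class `c`. Only the first moment is bounded in general. If `2 n_c < n_0 + n_1 + n_2` for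
`c = 0, 1, 2` then for every `k` the `k`-th moment over the `t` for which the numbers of the prime
factors of the `f_j(t)` are close to each other is bounded.

The weight `rho T n = min (1, min_{t ∈ T} ∏_j t_j ^ n_j)` is the one of project TH344/DT.
-/

set_option autoImplicit false

namespace Pool.Agent.TH841.PM

open Finset Polynomial Pool.Agent.W262.RK Pool.Agent.TH841.PT

open Pool.Agent.TH344.DT (nn om Alt)

/-- the weight of project DT: the minimum of `1` and the products `∏ j, t j ^ n j`, `t ∈ T` -/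
noncomputable abbrev wt {J : Type} [Fintype J] (T : Finset (J → ℝ)) (n : J → ℕ) : ℝ :=
  Pool.Agent.TH344.DT.rho T n

/-! ### The abstract bound -/

/-- PM-FUL: the sums of the weights over all and over the small divisors. -/
def FULX : Prop := ∀ (v : ℝ) (c : ℕ), 0 < v → ∃ z0 : ℕ, ∀ z, z0 ≤ z → ∃ C : ℝ, 1 ≤ C ∧
  ∀ b : ℕ → ℝ, (∀ p, 0 ≤ b p ∧ b p ≤ 1 / 2) →
  (∀ y, z < y → ∑ d ∈ (PP z y).divisors, gp (fun p => v * b p) c d ≤
    C * Real.exp (v * Sp b z y)) ∧
  (∀ y V : ℕ, z < y → 2 ≤ V →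
    ∑ d ∈ (PP z y).divisors.filter (fun d => d ≤ V), gp (fun p => v * b p) c d ≤
      C * (Real.log V) ^ v)

/-- PM-LNK: two linked large variables, with an arbitrary weight that depends on the numbers of the
prime factors only (general signed weights; `TH344.DT.S_LNK` is the case of constant weights). -/
def LNKX : Prop := ∀ (ι : Type) [Fintype ι] [DecidableEq ι] (σ g : ι → ℕ → ℝ) (L : ι → ι → Bool)
  (κ : ι → ℤ) (c z : ℕ) (C E0 C2 : ℝ) (E2 A : ℕ) (π : ι → Fin 4) (i j : ι),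
  ATS8.Bd σ g κ c z C E0 → 0 ≤ C2 → AT.BW C2 E2 → (∀ i, L i i = false) →
  6 * (Fintype.card ι + 2 * E2 + 4) ≤ A → π i = 2 → π j = 2 → L i j ≠ L j i →
  ∃ C' : ℝ, ∀ φ : (ι → ℕ) → ℝ, (∀ n, |φ n| ≤ 1) → ∀ y, z < y →
    |∑ d ∈ Fintype.piFinset
        (fun b => AT.cell z y (AT.VV A (Real.log y)) (AT.YY A (Real.log y)) (π b)),
      ATS8.HG σ L κ c d * φ (om d)| ≤ C'

/-- PM-ATW: the abstract bound for sums of products of Jacobi symbols with signed weights `a i`,
`|a i p| ≤ b i p`, `∑ b i p / p = w i log log y + O(1)`, and with the weight `rho T`. -/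
def ATWX : Prop := ∀ (J ι : Type) [Fintype J] [DecidableEq J] [Fintype ι] [DecidableEq ι]
  (cls : ι → J) (w : ι → ℝ) (L : ι → ι → Bool) (c : ℕ) (K : ℝ) (T : Finset (J → ℝ)),
  (∀ i, 0 < w i) → (∀ i, L i i = false) → 0 ≤ K → (∀ t ∈ T, ∀ j, 0 < t j) →
  (∀ U : Finset ι, (∀ i ∈ U, ∀ j ∈ U, L i j = L j i) → Alt cls w L K T U) →
  ∃ z0 : ℕ, ∀ z, z0 ≤ z → ∀ (a b : ι → ℕ → ℝ) (C0 E0 : ℝ),
  (∀ i p, |a i p| ≤ b i p ∧ b i p ≤ 1 / 2) → 0 ≤ E0 →
  (∀ i y, z < y → |Sp (b i) z y - w i * Real.log (Real.log y)| ≤ C0) →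
  (∀ (i : ι) (y r : ℕ) (e : Bool), z < y → 1 < r → Squarefree r →
    (∀ p : ℕ, p.Prime → p ∣ r → z < p) →
    ∑ p ∈ PS z y, a i p * (Jr p r * x4 e p) / (p : ℝ) ≤
      1 / 2 * Sp (b i) z y + E0 * Real.log (Real.log r) + C0) →
  ∃ C : ℝ, ∀ y, z < y →
    |∑ d ∈ Tup ι z y, (∏ i, gp (a i) c (d i)) * Sym L (fun _ => 1) d * wt T (nn cls (om d))| ≤
      C * (Real.log y) ^ K

/-! ### The local count and its expansion -/

section

variable {J : Type} [Fintype J] [DecidableEq J]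

/-- the average over the signs of the `k`-th power of `NL` -/
noncomputable def NBK (k : ℕ) (cls : J → Fin 4) (e : J → Fin 3 → Bool) (s : J → ℕ) : ℝ :=
  (1 / 2) ^ (P3 cls s).card *
    ∑ E ∈ (P3 cls s).powerset, (NL (∏ j, s j) (LTs cls e s E) : ℝ) ^ k

/-- is `∑ b, χ_b (v_b) = 1`? -/
def dk {k : ℕ} (v x : Fin k → Bool × Bool) : Bool :=
  decide ((univ.filter (fun b => xor ((x b).1 && (v b).1) ((x b).2 && (v b).2) = true)).card % 2
    = 1)

/-- the allowed types for the class `c` -/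
def AlK (c : Fin 4) {k : ℕ} (v x : Fin k → Bool × Bool) : Bool :=
  if c = 3 then !(dk v x) else decide (∀ b, Al c (v b) (x b) = true)

/-- the index set: `(j, v, χ)` -/
def IK4 (cls : J → Fin 4) (k : ℕ) : Type :=
  {i : J × (Fin k → Bool × Bool) × (Fin k → Bool × Bool) // AlK (cls i.1) i.2.1 i.2.2 = true}

instance (cls : J → Fin 4) (k : ℕ) : Fintype (IK4 cls k) := by unfold IK4; infer_instance

instance (cls : J → Fin 4) (k : ℕ) : DecidableEq (IK4 cls k) :=
  fun a b => decidable_of_iff (a.1 = b.1) Subtype.ext_iff.symm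

/-- the weights -/
noncomputable def wK (cls : J → Fin 4) {k : ℕ} (i : IK4 cls k) : ℝ :=
  if cls i.1.1 = 3 then 1 / 4 ^ k else 1 / 2 ^ k

/-- the symbol `(d i / d i')` occurs if `∑ b, χ_{i', b}(v_{i, b}) = 1` -/
def LK4 (cls : J → Fin 4) {k : ℕ} (i i' : IK4 cls k) : Bool := dk i.1.2.1 i'.1.2.2

/-- the bit of the symbol of the part prime to `p`, for one coordinate of the type -/
def bt (c : Fin 4) (e : Fin 3 → Bool) (v x : Bool × Bool) : Bool :=
  if c = 3 then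
    xor (x.1 && xor (v.1 && !v.2 && e 0) (xor (!v.1 && v.2 && xor (e 0) (e 1))
      (v.1 && v.2 && e 1)))
    (x.2 && xor (v.1 && !v.2 && xor (e 0) (e 2)) (xor (!v.1 && v.2 && e 0)
      (v.1 && v.2 && e 2)))
  else !(decide (v = (false, false))) && !(decide (x = (false, false))) && e 0

/-- does the symbol of `-1` occur, for one coordinate of the type? -/
def mt (c : Fin 4) (v x : Bool × Bool) : Bool := decide (c = 3) && x.2 && v.2

/-- the bit of the constant -/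
def bK (cls : J → Fin 4) (e : J → Fin 3 → Bool) {k : ℕ} (i : IK4 cls k) : Bool :=
  decide ((univ.filter (fun b => bt (cls i.1.1) (e i.1.1) (i.1.2.1 b) (i.1.2.2 b) = true)).card % 2
    = 1)

/-- the sign of the constant -/
def κK4 (cls : J → Fin 4) {k : ℕ} (i : IK4 cls k) : ℤ :=
  (-1) ^ (univ.filter (fun b => mt (cls i.1.1) (i.1.2.1 b) (i.1.2.2 b) = true)).card

end

/-- PM-EXP: expansion of the average over the signs of the `k`-th power into symbols, with bits, and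
with an arbitrary function `Φ` (as `EXPT`, which is the case `k = 1`, `Φ = 1`). -/
def EXPK : Prop := ∀ (J : Type) [Fintype J] [DecidableEq J] (cls : J → Fin 4)
  (e : J → Fin 3 → Bool) (g : J → ℕ → ℝ) (k c z y : ℕ), 2 ≤ z → ∀ Φ : (J → ℕ) → ℝ,
  ∑ s ∈ Tup J z y, NBK k cls e s * (∏ j, gp (g j) c (s j)) * Φ s =
    ∑ d ∈ Tup (IK4 cls k) z y,
      (∏ i : IK4 cls k, gp (fun p => wK cls i * ((if bK cls e i then -1 else 1) * g i.1.1 p)) c
        (d i)) * Sym (LK4 cls) (κK4 cls) d *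
      Φ (fun j => ∏ i ∈ univ.filter (fun i : IK4 cls k => i.1.1 = j), d i)

/-- PM-SUB: growth of `NBK` (as `SUBT`, the case `k = 1`). -/
def SUBK : Prop := ∀ (J : Type) [Fintype J] [DecidableEq J] (cls : J → Fin 4)
  (e : J → Fin 3 → Bool) (k z y : ℕ), 2 ≤ z →
  ∀ s e' : J → ℕ, (fun j => s j * e' j) ∈ Tup J z y →
    NBK k cls e (fun j => s j * e' j) ≤ (4 ^ k) ^ (∑ j, (e' j).primeFactors.card) * NBK k cls e s

/-- PM-CMB: the unlinked sets and the vectors. -/
def CMBK : Prop := ∀ (J : Type) [Fintype J] [DecidableEq J] (cls : J → Fin 4) (k : ℕ), 1 ≤ k →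
  (∀ c : Fin 4, c ≠ 3 → 2 * (univ.filter (fun j => cls j = c)).card <
    (univ.filter (fun j => cls j ≠ 3)).card) →
  ∃ T : Finset (J → ℝ), (∀ t ∈ T, ∀ j, 0 < t j) ∧ (∀ t ∈ T, 1 < ∏ j, t j) ∧
    ∀ U : Finset (IK4 cls k), (∀ i ∈ U, ∀ j ∈ U, LK4 cls i j = LK4 cls j i) →
      Alt (fun i : IK4 cls k => i.1.1) (wK cls) (LK4 cls) (Fintype.card J) T U

/-- PM-BAD: the arguments of weight less than one are rare. -/
def BADP : Prop := ∀ (J : Type) [Fintype J] [DecidableEq J] (f : J → ℤ[X]), Irr f →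
  ∀ T : Finset (J → ℝ), (∀ t ∈ T, ∀ j, 0 < t j) → (∀ t ∈ T, 1 < ∏ j, t j) →
  ∀ (B : ℕ) (ε : ℝ), 0 < ε → ∃ M0 : ℕ, ∀ (N : ℤ) (M : ℕ), M0 ≤ M → |N| ≤ (M : ℤ) ^ B →
    (((Ioc N (N + M)).filter (fun t => (∀ j, (f j).eval t ≠ 0) ∧
      wt T (fun j => ((f j).eval t).natAbs.primeFactors.card) < 1)).card : ℝ) ≤ ε * M

end Pool.Agent.TH841.PM
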