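import Mathlib
import Pool.Agent.TH841.PM.Stm
import Pool.Agent.TH841.TR.ATX

/-! Project PM: the abstract bound for sums of Jacobi symbols with signed weights and the weight
`rho T` (adapted from `TH344/DT/Atw.lean`). -/

set_option autoImplicit false

namespace Pool.Agent.TH841.PM.ATWf

open Finset Polynomial Pool.Agent.W262.RK Pool.Agent.W262.RK.AT Pool.Agent.TH841.PT

open Pool.Agent.TH841.PT.ATS8 (Bd HG exp_Sp_le Sp_nonneg gh_nonneg cs_any cs_low gp_le_hh gp_one
  abs_HG_le max_case diag_case Jr_one_left total_eq)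

open Pool.Agent.TH344.DT (nn om Alt rho rho_nonneg rho_le_one rho_le_prod one_sub_rho_le prod_nn)

section
variable {J ι : Type} [Fintype J] [DecidableEq J] [Fintype ι]

lemma gp_mul (b : ℕ → ℝ) (τ : ℝ) (c m : ℕ) :
    gp b c m * τ ^ m.primeFactors.card = gp (fun p => τ * b p) c m := by
  unfold gp
  rw [← prod_const, ← prod_mul_distrib]
  apply prod_congr rfl
  intro p _
  ring

lemma prod_gp_nn (cls : ι → J) (t : J → ℝ) (b : ι → ℕ → ℝ) (c : ℕ) (d : ι → ℕ) :
    (∏ i, gp (b i) c (d i)) * ∏ j, t j ^ nn cls (om d) j =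
      ∏ i, gp (fun p => t (cls i) * b i p) c (d i) := by
  rw [prod_nn, ← prod_mul_distrib]
  apply prod_congr rfl
  intro i _
  exact gp_mul _ _ _ _

end

section
variable {ι : Type} [Fintype ι] [DecidableEq ι]

/-- the trivial bound for the patterns without huge variables, arbitrary weights -/
lemma triv_tilt (hf : FULX) (w τ : ι → ℝ) (hτ : ∀ i, 0 < τ i) (c : ℕ) :
    ∃ z0 : ℕ, c ≤ z0 ∧ ∀ z, z0 ≤ z → 2 ≤ z → ∀ (b : ι → ℕ → ℝ) (C0 : ℝ),
      (∀ i p, 0 ≤ b i p ∧ b i p ≤ 1 / 2) → 0 ≤ C0 →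
      (∀ i y, z < y → |Sp (b i) z y - w i * Real.log (Real.log y)| ≤ C0) →
      ∀ (A : ℕ) (π : ι → Fin 4), (∀ k, π k ≠ 3) →
      ∀ K : ℝ, ∑ k ∈ univ.filter (fun k => π k = 2), w k * τ k < K →
      ∃ C' : ℝ, 0 ≤ C' ∧ ∀ y, z < y →
        ∑ d ∈ Fintype.piFinset (fun b => cell z y (VV A (Real.log y)) (YY A (Real.log y)) (π b)),
          ∏ i, gp (fun p => τ i * b i p) c (d i) ≤ C' * (Real.log y) ^ K := by
  choose z1 hz1 using fun i => hf (τ i) c (hτ i)
  refine ⟨univ.sup z1 + c, by omega, fun z hz hz2 b C0 hb hC0 hS0 A π h3 K hK => ?_⟩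
  have hcz : c ≤ z := by omega
  have hzi : ∀ i, z1 i ≤ z := fun i => (le_sup (f := z1) (mem_univ i)).trans (by omega)
  choose CF hCF1 hF using fun i => hz1 i z (hzi i)
  have hF1 := fun i => (hF i (b i) (hb i)).1
  have hF2 := fun i => (hF i (b i) (hb i)).2
  set S := ∑ k ∈ univ.filter (fun k => π k = 2), w k * τ k with hS
  set W := ∑ k ∈ univ.filter (fun k => ¬ π k = 2), τ k with hW
  obtain ⟨M, hM⟩ : ∃ M : ℕ, W ≤ M := exists_nat_ge W
  obtain ⟨C1, hC1, h1⟩ := log_VV_pow_le A M (sub_pos.2 hK)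
  have hCF0 : ∀ k, 0 ≤ CF k := fun k => zero_le_one.trans (hCF1 k)
  have hCp : 0 ≤ ∏ k, (CF k * Real.exp (τ k * C0)) :=
    prod_nonneg fun k _ => mul_nonneg (hCF0 k) (Real.exp_pos _).le
  refine ⟨(∏ k, (CF k * Real.exp (τ k * C0))) * C1, mul_nonneg hCp hC1, fun y hy => ?_⟩
  have hly := one_le_log hz2 hy
  have hly0 : 0 < Real.log y := by linarith
  have hSy : ∀ i, |Sp (b i) z y - w i * Real.log (Real.log y)| ≤ C0 := fun i => hS0 i y hy
  set l := Real.log y with hl
  set V := VV A l with hV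
  set Y := YY A l with hY
  have hV3 : 3 ≤ V := three_le_VV A l
  have hlV : 1 ≤ Real.log V := one_le_log_VV A l
  have hlV0 : 0 < Real.log V := by linarith
  rw [← prod_univ_sum (fun b => cell z y V Y (π b)) (fun i m => gp (fun p => τ i * b i p) c m)]
  have hg0 : ∀ k, ∀ m ∈ (PP z y).divisors, 0 ≤ gp (fun p => τ k * b k p) c m := fun k m hm =>
    ATS8.gp_nonneg (fun p => mul_nonneg (hτ k).le (hb k p).1) hcz hm
  have e1 : ∀ k ∈ (univ : Finset ι), ∑ m ∈ cell z y V Y (π k), gp (fun p => τ k * b k p) c m ≤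
      (CF k * Real.exp (τ k * C0)) *
        (if π k = 2 then l ^ (w k * τ k) else (Real.log V) ^ (τ k)) := by
    intro k _
    have hnn := hg0 k
    have hex : 1 ≤ Real.exp (τ k * C0) := Real.one_le_exp (mul_nonneg (hτ k).le hC0)
    by_cases h : π k = 2
    · rw [if_pos h]
      refine le_trans (sum_le_sum_of_subset_of_nonneg (cell_sub _ _ _ _ _)
        fun m hm _ => hnn m hm) ((hF1 k y hy).trans ?_)
      rw [mul_assoc]
      apply mul_le_mul_of_nonneg_left _ (hCF0 k)
      rw [Real.rpow_def_of_pos hly0, ← Real.exp_add]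
      apply Real.exp_le_exp.2
      have h5 := (abs_le.1 (hSy k)).2
      have h6 := mul_le_mul_of_nonneg_left h5 (hτ k).le
      nlinarith [h6]
    · rw [if_neg h]
      have h7 : CF k * (Real.log V) ^ (τ k) ≤
          CF k * Real.exp (τ k * C0) * (Real.log V) ^ (τ k) := by
        apply mul_le_mul_of_nonneg_right _ (Real.rpow_nonneg hlV0.le _)
        exact le_mul_of_one_le_right (hCF0 k) hex
      refine le_trans ?_ ((hF2 k y V hy (by omega)).trans h7)
      apply sum_le_sum_of_subset_of_nonneg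
      · intro m hm
        rw [mem_filter]
        refine ⟨cell_sub _ _ _ _ _ hm, ?_⟩
        have h4 := h3 k
        have : π k = 0 ∨ π k = 1 := by
          revert h h4
          generalize π k = r
          revert r
          decide
        rcases this with h5 | h5
        · rw [h5] at hm
          have := cell_zero hm
          omega
        · rw [h5] at hm
          exact (cell_one hm).2
      · intro m hm _
        exact hnn m (mem_filter.1 hm).1
  have e0 : ∀ k ∈ (univ : Finset ι),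
      0 ≤ ∑ m ∈ cell z y V Y (π k), gp (fun p => τ k * b k p) c m := fun k _ =>
    sum_nonneg fun m hm => hg0 k m (cell_sub _ _ _ _ _ hm)
  have hVW : (Real.log V) ^ W ≤ (Real.log V) ^ M := by
    rw [← Real.rpow_natCast]
    exact Real.rpow_le_rpow_of_exponent_le hlV hM
  calc ∏ k, ∑ m ∈ cell z y V Y (π k), gp (fun p => τ k * b k p) c m
      ≤ ∏ k, ((CF k * Real.exp (τ k * C0)) *
          (if π k = 2 then l ^ (w k * τ k) else (Real.log V) ^ (τ k))) :=
        prod_le_prod e0 e1
    _ = (∏ k, (CF k * Real.exp (τ k * C0))) * (l ^ S * (Real.log V) ^ W) := by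
        rw [prod_mul_distrib, prod_ite, ← Real.rpow_sum_of_pos hly0, ← Real.rpow_sum_of_pos hlV0]
    _ ≤ (∏ k, (CF k * Real.exp (τ k * C0))) * (l ^ S * (C1 * l ^ (K - S))) := by
        apply mul_le_mul_of_nonneg_left _ hCp
        exact mul_le_mul_of_nonneg_left (hVW.trans (h1 l hly)) (by positivity)
    _ = (∏ k, (CF k * Real.exp (τ k * C0))) * C1 * (l ^ S * l ^ (K - S)) := by ring
    _ = _ := by
        rw [← Real.rpow_add hly0]
        congr 2
        ring

variable {σ g : ι → ℕ → ℝ} {L : ι → ι → Bool} {κ : ι → ℤ} {c z : ℕ} {C E0 : ℝ}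

/-- a huge variable -/
lemma tail_abs (hB : Bd σ g κ c z C E0) (A : ℕ) {K : ℝ} (hK : 0 ≤ K) (π : ι → Fin 4) {k : ι}
    (hk : π k = 3) : ∃ C' : ℝ, ∀ y, z < y →
      ∑ d ∈ Fintype.piFinset (fun b => cell z y (VV A (Real.log y)) (YY A (Real.log y)) (π b)),
        ∏ i, gp (g i) c (d i) ≤ C' * (Real.log y) ^ K := by
  have hcz : c ≤ z := by have := hB.zc; omega
  have hC0 : 0 ≤ C := zero_le_one.trans hB.C1
  refine ⟨C ^ (Fintype.card ι + 1) * (Fintype.card ι + 2).factorial, fun y hy => ?_⟩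
  have hly := one_le_log hB.z2 hy
  have hly0 : 0 < Real.log y := by linarith
  set l := Real.log y with hl
  set V := VV A l with hV
  set Y := YY A l with hY
  rw [← prod_univ_sum (fun b => cell z y V Y (π b)) (fun i m => gp (g i) c m)]
  have h1 : ∏ i, ∑ m ∈ cell z y V Y (π i), gp (g i) c m ≤
      ∏ i, ∑ m ∈ cell z y V Y (π i), gp (g i) c m * hh m := by
    apply prod_le_prod
    · intro i _
      exact sum_nonneg fun m hm => ATS8.gp_nonneg (hB.w0 i) hcz (cell_sub _ _ _ _ _ hm)
    · intro i _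
      exact sum_le_sum fun m hm => gp_le_hh hB i (cell_sub _ _ _ _ _ hm)
  refine h1.trans ?_
  rw [← mul_prod_erase univ _ (mem_univ k), hk]
  have h2 : ∑ m ∈ cell z y V Y 3, gp (g k) c m * hh m ≤ C * Real.exp (-l) * l ^ 2 := by
    have hV3 := three_le_VV A l
    have hVY := VV_le_YY A l
    calc ∑ m ∈ cell z y V Y 3, gp (g k) c m * hh m
        ≤ ∑ m ∈ (PP z y).divisors.filter (fun d => Y < d), gp (g k) c m * hh m := by
          apply sum_le_sum_of_subset_of_nonneg
          · intro m hm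
            rw [mem_filter]
            exact ⟨cell_sub _ _ _ _ _ hm, cell_three hm⟩
          · intro m hm _
            exact gh_nonneg hB k (mem_filter.1 hm).1
      _ ≤ C * Real.exp (-(Real.log Y / Real.log y)) * (Real.log y) ^ 2 :=
          hB.F3 k y Y hy (by omega)
      _ ≤ C * Real.exp (-l) * l ^ 2 := by
          apply mul_le_mul_of_nonneg_right _ (by positivity)
          apply mul_le_mul_of_nonneg_left _ hC0
          apply Real.exp_le_exp.2
          rw [neg_le_neg_iff, le_div_iff₀ hly0]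
          have := log_YY_ge A l
          nlinarith
  have h3 : ∏ b ∈ univ.erase k, ∑ m ∈ cell z y V Y (π b), gp (g b) c m * hh m ≤
      (C * l) ^ (Fintype.card ι) := by
    have hCl : 1 ≤ C * l := by nlinarith [hB.C1]
    calc _ ≤ ∏ b ∈ univ.erase k, (C * l) := by
          apply prod_le_prod
          · intro b _
            exact sum_nonneg fun m hm => gh_nonneg hB b (cell_sub _ _ _ _ _ hm)
          · intro b _
            exact cs_any hB hy V Y b (π b)
      _ = (C * l) ^ (univ.erase k).card := by rw [prod_const]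
      _ ≤ _ := by
          apply pow_le_pow_right₀ hCl
          exact (card_le_card (erase_subset _ _)).trans (le_of_eq card_univ)
  have h4 : 1 ≤ l ^ K := Real.one_le_rpow hly hK
  have h5 := exp_neg_pow (Fintype.card ι + 2) hly
  calc _ ≤ C * Real.exp (-l) * l ^ 2 * (C * l) ^ (Fintype.card ι) := by
        apply mul_le_mul h2 h3 _ (by positivity)
        exact prod_nonneg fun b _ => sum_nonneg fun m hm => gh_nonneg hB b (cell_sub _ _ _ _ _ hm)
    _ = C ^ (Fintype.card ι + 1) * (Real.exp (-l) * l ^ (Fintype.card ι + 2)) := by ring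
    _ ≤ C ^ (Fintype.card ι + 1) * (Fintype.card ι + 2).factorial :=
        mul_le_mul_of_nonneg_left h5 (by positivity)
    _ ≤ _ := le_mul_of_one_le_right (by positivity) h4

end

section
variable {J ι : Type} [Fintype J] [DecidableEq J] [Fintype ι] [DecidableEq ι]
variable {cls : ι → J} {w : ι → ℝ} {L : ι → ι → Bool} {κ : ι → ℤ} {c : ℕ} {K : ℝ}
  {T : Finset (J → ℝ)}

/-- one pattern -/
lemma patw (hf : FULX) (hl : LNKX) {C2 : ℝ} {E2 : ℕ} (hC2 : 0 ≤ C2) (h2 : BW C2 E2)
    (hw : ∀ i, 0 < w i) (hL : ∀ i, L i i = false) (hK0 : 0 ≤ K) (hT : ∀ t ∈ T, ∀ j, 0 < t j)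
    (hU : ∀ U : Finset ι, (∀ i ∈ U, ∀ j ∈ U, L i j = L j i) → Alt cls w L K T U)
    (π : ι → Fin 4) : ∃ z0 : ℕ, ∀ (z : ℕ) (a b : ι → ℕ → ℝ) (C E0 C0 : ℝ), z0 ≤ z →
      Bd a b κ c z C E0 → 0 ≤ C0 →
      (∀ i y, z < y → |Sp (b i) z y - w i * Real.log (Real.log y)| ≤ C0) →
      ∃ C' : ℝ, ∀ y, z < y →
      |∑ d ∈ Fintype.piFinset (fun b => cell z y (VV (6 * (Fintype.card ι + 2 * E2 + 4))
        (Real.log y)) (YY (6 * (Fintype.card ι + 2 * E2 + 4)) (Real.log y)) (π b)),
        HG a L κ c d * rho T (nn cls (om d))| ≤ C' * (Real.log y) ^ K := by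
  classical
  set A := 6 * (Fintype.card ι + 2 * E2 + 4) with hA
  have hr0 := rho_nonneg hT
  have hr1 := rho_le_one T
  by_cases h3 : ∃ k, π k = 3
  · obtain ⟨k, hk⟩ := h3
    refine ⟨0, fun z a b C E0 C0 _ hB _ _ => ?_⟩
    have hcz : c ≤ z := by have := hB.zc; omega
    obtain ⟨C', hC'⟩ := tail_abs hB A hK0 π hk
    refine ⟨C', fun y hy => le_trans ?_ (hC' y hy)⟩
    refine (abs_sum_le_sum_abs _ _).trans (sum_le_sum fun d hd => ?_)
    rw [Fintype.mem_piFinset] at hd
    rw [abs_mul, abs_of_nonneg (hr0 _)]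
    have h4 := abs_HG_le (L := L) (κ := κ) (c := c) hB.ab hB.w0 hcz
      (fun i => cell_sub _ _ _ _ _ (hd i))
    calc |HG a L κ c d| * rho T (nn cls (om d)) ≤ |HG a L κ c d| * 1 :=
          mul_le_mul_of_nonneg_left (hr1 _) (abs_nonneg _)
      _ ≤ _ := by rw [mul_one]; exact h4
  push Not at h3
  by_cases hlk : ∃ i j, π i = 2 ∧ π j = 2 ∧ L i j ≠ L j i
  · obtain ⟨i, j, hi, hj, hij⟩ := hlk
    refine ⟨0, fun z a b C E0 C0 _ hB _ _ => ?_⟩
    obtain ⟨C', hC'⟩ := hl ι a b L κ c z C E0 C2 E2 A π i j hB hC2 h2 hL le_rfl hi hj hij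
    refine ⟨|C'|, fun y hy => ?_⟩
    have h4 := hC' (fun n => rho T (nn cls n)) (fun n => by
      rw [abs_of_nonneg (hr0 _)]; exact hr1 _) y hy
    have hly := one_le_log hB.z2 hy
    have h5 : 1 ≤ (Real.log y) ^ K := Real.one_le_rpow hly hK0
    refine h4.trans ((le_abs_self _).trans ?_)
    exact le_mul_of_one_le_right (abs_nonneg _) h5
  push Not at hlk
  set U := univ.filter (fun k => π k = 2) with hUd
  have hun : ∀ i ∈ U, ∀ j ∈ U, L i j = L j i := fun i hi j hj =>
    hlk i j (mem_filter.1 hi).2 (mem_filter.1 hj).2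
  rcases hU U hun with ⟨t, ht, hS⟩ | ⟨hS, hθ, hmax⟩
  · -- the tilted trivial bound
    obtain ⟨z0, hz0, h⟩ := triv_tilt hf w (fun i => t (cls i)) (fun i => hT t ht _) c
    refine ⟨z0, fun z a b C E0 C0 hz hB hC0 hS0 => ?_⟩
    have hcz : c ≤ z := by omega
    obtain ⟨C', -, hC'⟩ := h z hz hB.z2 b C0 (fun i p => ⟨hB.w0 i p, hB.w1 i p⟩) hC0 hS0 A π h3 K hS
    refine ⟨C', fun y hy => le_trans ?_ (hC' y hy)⟩
    refine (abs_sum_le_sum_abs _ _).trans (sum_le_sum fun d hd => ?_)
    rw [Fintype.mem_piFinset] at hd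
    rw [abs_mul, abs_of_nonneg (hr0 _), ← prod_gp_nn cls t b c d]
    have h4 := abs_HG_le (L := L) (κ := κ) (c := c) hB.ab hB.w0 hcz
      (fun i => cell_sub _ _ _ _ _ (hd i))
    exact mul_le_mul h4 (rho_le_prod ht _) (hr0 _) ((abs_nonneg _).trans h4)
  · -- the main case
    have hθ' : ∀ t : J → ℝ, ∃ θ : ℝ, t ∈ T → 0 < θ ∧ ∑ i ∈ U, w i * t (cls i) ^ (-θ) < K := by
      intro t
      by_cases ht : t ∈ T
      · obtain ⟨θ, h4, h5⟩ := hθ t ht
        exact ⟨θ, fun _ => ⟨h4, h5⟩⟩
      · exact ⟨0, fun h => absurd h ht⟩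
    choose θ hθ' using hθ'
    have hz0' : ∀ t : J → ℝ, ∃ z0 : ℕ, t ∈ T → c ≤ z0 ∧ ∀ z, z0 ≤ z → 2 ≤ z →
        ∀ (b : ι → ℕ → ℝ) (C0 : ℝ),
        (∀ i p, 0 ≤ b i p ∧ b i p ≤ 1 / 2) → 0 ≤ C0 →
        (∀ i y, z < y → |Sp (b i) z y - w i * Real.log (Real.log y)| ≤ C0) →
        ∃ C' : ℝ, 0 ≤ C' ∧ ∀ y, z < y →
        ∑ d ∈ Fintype.piFinset (fun b => cell z y (VV A (Real.log y)) (YY A (Real.log y)) (π b)),
          ∏ i, gp (fun p => t (cls i) ^ (-(θ t)) * b i p) c (d i) ≤ C' * (Real.log y) ^ K := by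
      intro t
      by_cases ht : t ∈ T
      · obtain ⟨z0, h4, h5⟩ := triv_tilt hf w (fun i => t (cls i) ^ (-(θ t)))
          (fun i => Real.rpow_pos_of_pos (hT t ht _) _) c
        refine ⟨z0, fun _ => ⟨h4, fun z hz hz2 b C0 hb hC0 hS0 => ?_⟩⟩
        exact h5 z hz hz2 b C0 hb hC0 hS0 A π h3 K (hθ' t ht).2
      · exact ⟨0, fun h => absurd h ht⟩
    choose z0 hz0 using hz0'
    refine ⟨T.sup z0, fun z a b C E0 C0 hz hB hC0 hS0 => ?_⟩
    have hcz : c ≤ z := by have := hB.zc; omega
    -- the sum without the weight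
    have hfull : ∃ C' : ℝ, ∀ y, z < y →
        |∑ d ∈ Fintype.piFinset (fun b => cell z y (VV A (Real.log y)) (YY A (Real.log y)) (π b)),
          HG a L κ c d| ≤ C' * (Real.log y) ^ K := by
      set M : ℕ → ℝ := fun y => K * Real.log (Real.log y) + Fintype.card ι * C0 with hMd
      have hM : ∀ y, z < y → ∑ k ∈ univ.filter (fun k => π k = 2), Sp (b k) z y ≤ M y := by
        intro y hy
        have hly := one_le_log hB.z2 hy
        have hll : 0 ≤ Real.log (Real.log y) := Real.log_nonneg hly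
        have h4 : ∑ k ∈ U, Sp (b k) z y ≤ ∑ k ∈ U, (w k * Real.log (Real.log y) + C0) :=
          sum_le_sum fun k _ => by
            have := (abs_le.1 (hS0 k y hy)).2
            linarith
        have h5 : ∑ k ∈ U, (w k * Real.log (Real.log y) + C0) =
            (∑ k ∈ U, w k) * Real.log (Real.log y) + U.card * C0 := by
          rw [sum_add_distrib, sum_mul, sum_const, nsmul_eq_mul]
        have h6 : (U.card : ℝ) ≤ Fintype.card ι := by
          exact_mod_cast (card_le_card (subset_univ U)).trans (le_of_eq card_univ)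
        have h7 := mul_le_mul_of_nonneg_right hS hll
        have h8 := mul_le_mul_of_nonneg_right h6 hC0
        rw [h5] at h4
        simp only [hMd]
        linarith
      have hexp : ∀ y, z < y → Real.exp (M y) =
          Real.exp (Fintype.card ι * C0) * (Real.log y) ^ K := by
        intro y hy
        have hly := one_le_log hB.z2 hy
        rw [Real.rpow_def_of_pos (by linarith), ← Real.exp_add]
        congr 1
        simp only [hMd]
        ring
      have hgen : ∃ C' : ℝ, ∀ y, z < y →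
          |∑ d ∈ Fintype.piFinset (fun b => cell z y (VV A (Real.log y)) (YY A (Real.log y)) (π b)),
            HG a L κ c d| ≤ C' * Real.exp (M y) := by
        by_cases h1 : ∃ j, π j = 1
        · obtain ⟨j, hj⟩ := h1
          have hjU : j ∉ U := by
            rw [hUd, mem_filter, hj]
            rintro ⟨-, h⟩
            exact absurd h (by decide)
          obtain ⟨i, hi, hij⟩ := hmax j hjU
          exact max_case (C0 := C0) hB hL A (hw i) π h3 (mem_filter.1 hi).2 hj hij
            (fun k hk => hlk i k (mem_filter.1 hi).2 hk)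
            (fun y hy => by
              have := (abs_le.1 (hS0 i y hy)).1
              linarith) hM
        · push Not at h1
          refine diag_case hB A π (fun k => ?_) hM
          have a1 := h1 k
          have a3 := h3 k
          revert a1 a3
          generalize π k = r
          revert r
          decide
      obtain ⟨C', hC'⟩ := hgen
      refine ⟨C' * Real.exp (Fintype.card ι * C0), fun y hy => ?_⟩
      have := hC' y hy
      rw [hexp y hy, ← mul_assoc] at this
      exact this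
    obtain ⟨C1, hC1⟩ := hfull
    have hsum : ∀ t : J → ℝ, ∃ C' : ℝ, t ∈ T → 0 ≤ C' ∧ ∀ y, z < y →
        ∑ d ∈ Fintype.piFinset (fun b => cell z y (VV A (Real.log y)) (YY A (Real.log y)) (π b)),
          ∏ i, gp (fun p => t (cls i) ^ (-(θ t)) * b i p) c (d i) ≤ C' * (Real.log y) ^ K := by
      intro t
      by_cases ht : t ∈ T
      · obtain ⟨C', h4⟩ := (hz0 t ht).2 z ((le_sup (f := z0) ht).trans hz) hB.z2 b C0
          (fun i p => ⟨hB.w0 i p, hB.w1 i p⟩) hC0 hS0
        exact ⟨C', fun _ => h4⟩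
      · exact ⟨0, fun h => absurd h ht⟩
    choose C3 hC3 using hsum
    refine ⟨C1 + ∑ t ∈ T, C3 t, fun y hy => ?_⟩
    set P := Fintype.piFinset
      (fun b => cell z y (VV A (Real.log y)) (YY A (Real.log y)) (π b)) with hP
    have hPd : ∀ d ∈ P, ∀ i, d i ∈ (PP z y).divisors := fun d hd i =>
      cell_sub _ _ _ _ _ (Fintype.mem_piFinset.1 hd i)
    have hgw0 : ∀ d ∈ P, 0 ≤ ∏ i, gp (b i) c (d i) := fun d hd =>
      prod_nonneg fun i _ => ATS8.gp_nonneg (hB.w0 i) hcz (hPd d hd i)
    have hsplit : ∑ d ∈ P, HG a L κ c d * rho T (nn cls (om d)) =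
        ∑ d ∈ P, HG a L κ c d - ∑ d ∈ P, HG a L κ c d * (1 - rho T (nn cls (om d))) := by
      rw [← sum_sub_distrib]
      apply sum_congr rfl
      intro d _
      ring
    have herr : |∑ d ∈ P, HG a L κ c d * (1 - rho T (nn cls (om d)))| ≤
        ∑ t ∈ T, C3 t * (Real.log y) ^ K := by
      have hone : ∀ d ∈ P, |HG a L κ c d * (1 - rho T (nn cls (om d)))| ≤
          ∑ t ∈ T, ∏ i, gp (fun p => t (cls i) ^ (-(θ t)) * b i p) c (d i) := by
        intro d hd
        have h4 := abs_HG_le (L := L) (κ := κ) (c := c) hB.ab hB.w0 hcz (hPd d hd)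
        have h5 : 0 ≤ 1 - rho T (nn cls (om d)) := by linarith [hr1 (nn cls (om d))]
        rw [abs_mul, abs_of_nonneg h5]
        calc |HG a L κ c d| * (1 - rho T (nn cls (om d)))
            ≤ (∏ i, gp (b i) c (d i)) *
              ∑ t ∈ T, (if ∏ j, t j ^ nn cls (om d) j < 1 then (1 : ℝ) else 0) :=
              mul_le_mul h4 (one_sub_rho_le hT _) h5 (hgw0 d hd)
          _ ≤ _ := by
              rw [mul_sum]
              apply sum_le_sum
              intro t ht
              have ht0 := hT t ht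
              have hθ0 := (hθ' t ht).1
              have hp0 : 0 < ∏ j, t j ^ nn cls (om d) j := prod_pos fun j _ => pow_pos (ht0 j) _
              have e1 : ∏ i, gp (fun p => t (cls i) ^ (-(θ t)) * b i p) c (d i) =
                  (∏ i, gp (b i) c (d i)) * (∏ j, t j ^ nn cls (om d) j) ^ (-(θ t)) := by
                rw [← prod_gp_nn cls (fun j => t j ^ (-(θ t))) b c d]
                congr 1
                rw [← Real.finsetProd_rpow _ _ (fun j _ => (pow_pos (ht0 j) _).le)]
                apply prod_congr rfl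
                intro j _
                rw [← Real.rpow_natCast, ← Real.rpow_natCast, ← Real.rpow_mul (ht0 j).le,
                  ← Real.rpow_mul (ht0 j).le, mul_comm]
              rw [e1]
              apply mul_le_mul_of_nonneg_left _ (hgw0 d hd)
              split_ifs with hlt
              · rw [Real.rpow_neg hp0.le]
                rw [one_le_inv₀ (Real.rpow_pos_of_pos hp0 _)]
                exact Real.rpow_le_one hp0.le hlt.le hθ0.le
              · exact Real.rpow_nonneg hp0.le _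
      refine (abs_sum_le_sum_abs _ _).trans ((sum_le_sum hone).trans ?_)
      rw [sum_comm]
      exact sum_le_sum fun t ht => (hC3 t ht).2 y hy
    rw [hsplit, add_mul, sum_mul]
    exact (abs_sub _ _).trans (add_le_add (hC1 y hy) herr)

end

/-- the bounds used -/
lemma bd_of' {ι : Type} [Fintype ι] [DecidableEq ι] (he : EPS) (hf : FULLG) {a b : ι → ℕ → ℝ}
    {c z : ℕ} {C0 E0 : ℝ}
    (hσ : ∀ i p, |a i p| ≤ b i p ∧ b i p ≤ 1 / 2) (hz : 2 * c + 2 ≤ z) (hE0 : 0 ≤ E0)
    (hκ : ∀ (i : ι) (y r : ℕ) (e : Bool), z < y → 1 < r → Squarefree r →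
      (∀ p : ℕ, p.Prime → p ∣ r → z < p) →
      ∑ p ∈ PS z y, a i p * (Jr p r * x4 e p) / (p : ℝ) ≤
        1 / 2 * Sp (b i) z y + E0 * Real.log (Real.log r) + C0) :
    ∃ C : ℝ, Bd a b (fun _ => 1) c z C E0 := by
  have hg : ∀ i p, 0 ≤ b i p ∧ b i p ≤ 1 / 2 := fun i p =>
    ⟨(abs_nonneg _).trans (hσ i p).1, (hσ i p).2⟩
  obtain ⟨B, hB1, hBB⟩ := exp_Sp_le
  choose CE hCE using fun i => he (a i) (b i) c z C0 E0 (hσ i) hz hE0 (hκ i)
  choose CF hCF1 hCF2 hCF3 using fun i => hf (b i) c z (hg i) hz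
  set C' : ℝ := 1 + ∑ i, (|CE i| + |CF i|) with hC'
  have hC'1 : 1 ≤ C' := by
    rw [hC']
    have : 0 ≤ ∑ i, (|CE i| + |CF i|) := sum_nonneg fun i _ => by positivity
    linarith
  set C : ℝ := C' * B with hC
  have hCC : C' ≤ C := by
    rw [hC]
    nlinarith
  have hCi : ∀ i, |CE i| + |CF i| ≤ C' := by
    intro i
    have h1 : |CE i| + |CF i| ≤ ∑ i, (|CE i| + |CF i|) :=
      single_le_sum (f := fun i => |CE i| + |CF i|) (fun j _ => by positivity) (mem_univ i)
    linarith
  have hCE' : ∀ i, CE i ≤ C := fun i => by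
    have := le_abs_self (CE i)
    have := abs_nonneg (CF i)
    linarith [hCi i]
  have hCF0 : ∀ i, CF i ≤ C' := fun i => by
    have := le_abs_self (CF i)
    have := abs_nonneg (CE i)
    linarith [hCi i]
  have hCF' : ∀ i, CF i ≤ C := fun i => (hCF0 i).trans hCC
  exact ⟨C,
    { ab := fun i p => (hσ i p).1
      w0 := fun i p => (hg i p).1
      w1 := fun i p => (hg i p).2
      z2 := by omega
      zc := by omega
      C1 := hC'1.trans hCC
      E1 := hE0
      F0 := fun i y hy => by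
        refine (hCF1 i y hy).trans ?_
        have h1 := hBB (b i) (hg i) z y (by omega) hy
        have h3 : 0 ≤ Real.exp (Sp (b i) z y) := (Real.exp_pos _).le
        calc CF i * Real.exp (Sp (b i) z y) ≤ C' * Real.exp (Sp (b i) z y) :=
              mul_le_mul_of_nonneg_right (hCF0 i) h3
          _ ≤ C' * (B * Real.log y) := mul_le_mul_of_nonneg_left h1 (by linarith)
          _ = C * Real.log y := by rw [hC]; ring
      F1 := fun i y hy => (hCF1 i y hy).trans (mul_le_mul_of_nonneg_right (hCF' i)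
        (Real.exp_pos _).le)
      F2 := fun i y V hy hV => (hCF2 i y V hy hV).trans (mul_le_mul_of_nonneg_right (hCF' i)
        (Real.log_natCast_nonneg V))
      F3 := fun i y Y hy hY => (hCF3 i y Y hy hY).trans (by
        apply mul_le_mul_of_nonneg_right _ (by positivity)
        exact mul_le_mul_of_nonneg_right (hCF' i) (Real.exp_pos _).le)
      E := fun i y R r e hy hR hr hs hp => by
        simp only [Jr_one_left, mul_one]
        exact (hCE i y R r e hy hR hr hs hp).trans (by
          apply mul_le_mul_of_nonneg_right _ (hh_nonneg _)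
          apply mul_le_mul_of_nonneg_right _ (Real.rpow_nonneg (Real.log_natCast_nonneg r) _)
          exact mul_le_mul_of_nonneg_right (hCE' i) (Real.exp_pos _).le) }⟩

/-- **The abstract bound** with signed weights and the weight `rho T` -/
theorem atwx_of (hblw : BLW) (he : EPS) (hf : FULLG) (hful : Pool.Agent.TH841.PM.FULX)
    (hl : Pool.Agent.TH841.PM.LNKX) : Pool.Agent.TH841.PM.ATWX := by
  intro J ι _ _ _ _ cls w L c K T hw hL hK0 hT hU
  classical
  obtain ⟨C2, E2, h2⟩ := hblw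
  have h2' : BW |C2| E2 := fun V Y hV hVY a b ha hb ha' hb' =>
    (h2 V Y hV hVY a b ha hb ha' hb').trans (by
      apply mul_le_mul_of_nonneg_right _ (by positivity)
      exact mul_le_mul_of_nonneg_right (le_abs_self C2)
        (pow_nonneg (Real.log_natCast_nonneg Y) _))
  choose zP hP using fun π : ι → Fin 4 => patw (κ := fun _ => 1) (c := c) hful hl (abs_nonneg C2)
    h2' hw hL hK0 hT hU π
  refine ⟨univ.sup zP + 2 * c + 2, fun z hz a b C0 E0 hσ hE0 hS0 hκ => ?_⟩
  have hzP : ∀ π, zP π ≤ z := fun π => (le_sup (f := zP) (mem_univ π)).trans (by omega)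
  obtain ⟨C, hB⟩ := bd_of' he hf (c := c) (z := z) hσ (by omega) hE0 hκ
  choose C' hC' using fun π : ι → Fin 4 => hP π z a b C E0 |C0| (hzP π) hB (abs_nonneg C0)
    (fun i y hy => (hS0 i y hy).trans (le_abs_self C0))
  refine ⟨∑ π, C' π, fun y hy => ?_⟩
  have htot : ∑ d ∈ Tup ι z y, (∏ i, gp (a i) c (d i)) * Sym L (fun _ => 1) d *
      wt T (nn cls (om d)) =
      ∑ d ∈ Fintype.piFinset (fun _ : ι => (PP z y).divisors),
        HG a L (fun _ => 1) c d * rho T (nn cls (om d)) := by
    unfold Tup HG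
    rw [sum_filter]
    apply sum_congr rfl
    intro d _
    split_ifs
    · rfl
    · rw [zero_mul]
  rw [htot, patterns z y (VV (6 * (Fintype.card ι + 2 * E2 + 4)) (Real.log y))
    (YY (6 * (Fintype.card ι + 2 * E2 + 4)) (Real.log y)), sum_mul]
  exact (abs_sum_le_sum_abs _ _).trans (sum_le_sum fun π _ => hC' π y hy)

end Pool.Agent.TH841.PM.ATWf
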