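import Mathlib
import Pool.Agent.TH841.PM.Stm
import Pool.Agent.TH344.DT.Ful

/-! Project PM: the sums of the weights over all and over the small divisors. -/

set_option autoImplicit false

namespace Pool.Agent.TH841.PM.FULf

open Finset Pool.Agent.W262.RK Pool.Agent.W655.RK Pool.Agent.TH841.PT Pool.Agent.TH344.DT

theorem fulx : Pool.Agent.TH841.PM.FULX := by
  intro v c hv
  obtain ⟨C0, hC0, hmer⟩ := mertens
  obtain ⟨K, hK, hsq⟩ := sum_inv_sq
  refine ⟨2 * c + 2, fun z hz => ?_⟩
  have hz2 : 2 ≤ z := by omega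
  have hc0 : (0 : ℝ) ≤ c := Nat.cast_nonneg c
  set B : ℝ := v * c * K with hB
  have hB0 : 0 ≤ B := by positivity
  have hlog2 : 0 < Real.log 2 := Real.log_pos (by norm_num)
  have hl2 : Real.log 2 ≤ 1 := by have := Real.log_two_lt_d9; linarith
  set A : ℝ := Real.exp (v / 2 * C0) * (Real.log 2) ^ (-(v / 2)) with hA
  have hA1 : 1 ≤ A := by
    have h1 : 1 ≤ Real.exp (v / 2 * C0) := Real.one_le_exp (by positivity)
    have h2 : 1 ≤ (Real.log 2) ^ (-(v / 2)) :=
      Real.one_le_rpow_of_pos_of_le_one_of_nonpos hlog2 hl2 (by linarith)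
    rw [hA]
    nlinarith
  have hE1 : 1 ≤ Real.exp B := Real.one_le_exp hB0
  refine ⟨Real.exp B * A, by nlinarith, fun b hb => ?_⟩
  set φ : ℕ → ℝ := fun p => v * b p / ((p : ℝ) - c) with hφ
  have hloc : ∀ p : ℕ, z < p → 0 ≤ φ p ∧
      φ p ≤ v * (b p / p) + v * c * (1 / (p : ℝ) ^ 2) := by
    intro p hp
    have hp1 : (2 * c + 3 : ℝ) ≤ p := by exact_mod_cast (by omega : 2 * c + 3 ≤ p)
    have hp0 : (0:ℝ) < p := by linarith
    have hpc : (0:ℝ) < (p : ℝ) - c := by linarith
    have hb0 := (hb p).1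
    have hb1 := (hb p).2
    refine ⟨by positivity, ?_⟩
    have h3 : v * (b p / p) + v * c * (1 / (p : ℝ) ^ 2) = (v * b p * p + v * c) / p ^ 2 := by
      field_simp
    rw [h3, hφ]
    dsimp only
    rw [div_le_div_iff₀ hpc (by positivity)]
    have h5 : (v * b p * p + v * c) * ((p : ℝ) - c) - v * b p * (p : ℝ) ^ 2 =
        v * c * (p * (1 - b p) - c) := by ring
    have h6 : 0 ≤ v * c * (p * (1 - b p) - c) := by
      apply mul_nonneg (by positivity)
      have h7 : (p : ℝ) * (1 / 2) ≤ p * (1 - b p) :=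
        mul_le_mul_of_nonneg_left (by linarith) hp0.le
      linarith
    linarith
  have hsum : ∀ y : ℕ, ∑ p ∈ PS z y, φ p ≤ v * Sp b z y + B := by
    intro y
    calc ∑ p ∈ PS z y, φ p ≤ ∑ p ∈ PS z y, (v * (b p / p) + v * c * (1 / (p : ℝ) ^ 2)) :=
          Finset.sum_le_sum fun p hp => (hloc p (PS_lt hp)).2
      _ = v * Sp b z y + v * c * ∑ p ∈ PS z y, 1 / (p : ℝ) ^ 2 := by
          rw [Finset.sum_add_distrib, ← Finset.mul_sum, ← Finset.mul_sum, Sp]
      _ ≤ v * Sp b z y + v * c * K :=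
          add_le_add (le_refl _) (mul_le_mul_of_nonneg_left (hsq _) (by positivity))
  have hlog : ∀ y : ℕ, 2 ≤ y → 0 < Real.log y := fun y hy =>
    Real.log_pos (by exact_mod_cast (by omega : 1 < y))
  have main : ∀ y : ℕ, ∑ d ∈ (PP z y).divisors, gp (fun p => v * b p) c d ≤
      Real.exp B * Real.exp (v * Sp b z y) := by
    intro y
    have h0 : ∀ d, gp (fun p => v * b p) c d = ∏ p ∈ d.primeFactors, φ p := fun d => rfl
    simp only [h0]
    unfold PP
    rw [sum_mult (PS z y) (fun p hp => PS_prime hp) φ]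
    refine (prod_le_exp _ _ fun p hp => by
      have := (hloc p (PS_lt hp)).1
      linarith).trans ?_
    rw [← Real.exp_add, Real.exp_le_exp]
    have := hsum y
    linarith
  have hnn : ∀ d : ℕ, (∀ p ∈ d.primeFactors, z < p) → 0 ≤ gp (fun p => v * b p) c d := by
    intro d hd
    exact Finset.prod_nonneg fun p hp => (hloc p (hd p hp)).1
  have hpf : ∀ y d, d ∈ (PP z y).divisors → d.primeFactors ⊆ PS z y := by
    intro y d hd
    have h1 : (PP z y).primeFactors = PS z y := Nat.primeFactors_prod fun p hp => PS_prime hp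
    rw [← h1]
    exact Nat.primeFactors_mono (Nat.dvd_of_mem_divisors hd) (Nat.mem_divisors.1 hd).2
  refine ⟨fun y hy => (main y).trans ?_, ?_⟩
  · have h1 : 0 ≤ Real.exp B * Real.exp (v * Sp b z y) := by positivity
    nlinarith
  intro y V hy hV
  have hsub : (PP z y).divisors.filter (fun d => d ≤ V) ⊆ (PP z (min y V)).divisors := by
    intro d hd
    rw [mem_filter] at hd
    have h1 := hpf y d hd.1
    have h2 : Squarefree d := (prod_primes_squarefree (PS z y) fun p hp => PS_prime hp).squarefree_of_dvd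
      (Nat.dvd_of_mem_divisors hd.1)
    rw [Nat.mem_divisors]
    refine ⟨?_, (prod_primes_squarefree (PS z (min y V)) fun p hp => PS_prime hp).ne_zero⟩
    rw [← Nat.prod_primeFactors_of_squarefree h2]
    refine Finset.prod_dvd_prod_of_subset _ _ _ fun p hp => ?_
    have h3 := h1 hp
    have h4 : p ≤ d := Nat.le_of_mem_primeFactors hp
    exact mem_filter.2 ⟨mem_Ioc.2 ⟨PS_lt h3, le_min (PS_le h3) (h4.trans hd.2)⟩, PS_prime h3⟩
  have h1 : ∑ d ∈ (PP z y).divisors.filter (fun d => d ≤ V), gp (fun p => v * b p) c d ≤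
      ∑ d ∈ (PP z (min y V)).divisors, gp (fun p => v * b p) c d := by
    refine Finset.sum_le_sum_of_subset_of_nonneg hsub fun d hd _ => hnn d fun p hp => ?_
    exact PS_lt (hpf _ d hd hp)
  have hmin2 : 2 ≤ min y V := le_min (by omega) hV
  refine h1.trans ((main _).trans ?_)
  have hSp : v * Sp b z (min y V) ≤ v / 2 * (Real.log (Real.log (min y V : ℕ)) + C0) := by
    have h2 : Sp b z (min y V) ≤ 1 / 2 * ∑ p ∈ PS z (min y V), 1 / (p : ℝ) := by
      rw [Sp, Finset.mul_sum]
      refine Finset.sum_le_sum fun p hp => ?_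
      rw [mul_one_div]
      exact div_le_div_of_nonneg_right (hb p).2 (Nat.cast_nonneg p)
    have h3 := hmer z (min y V) hmin2
    have h4 : v * Sp b z (min y V) ≤ v * (1 / 2 * ∑ p ∈ PS z (min y V), 1 / (p : ℝ)) :=
      mul_le_mul_of_nonneg_left h2 hv.le
    have h5 : v * (1 / 2 * ∑ p ∈ PS z (min y V), 1 / (p : ℝ)) ≤
        v * (1 / 2 * (Real.log (Real.log (min y V : ℕ)) + C0)) :=
      mul_le_mul_of_nonneg_left (mul_le_mul_of_nonneg_left h3 (by norm_num)) hv.le
    calc v * Sp b z (min y V) ≤ _ := h4.trans h5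
      _ = _ := by ring
  have hm0 := hlog _ hmin2
  have hV0 := hlog _ hV
  have hmV : Real.log (min y V : ℕ) ≤ Real.log V :=
    Real.log_le_log (by exact_mod_cast (by omega : 0 < min y V))
      (by exact_mod_cast min_le_right y V)
  have h6 : Real.exp (v * Sp b z (min y V)) ≤
      Real.exp (v / 2 * C0) * (Real.log V) ^ (v / 2) := by
    calc Real.exp (v * Sp b z (min y V))
        ≤ Real.exp (v / 2 * (Real.log (Real.log (min y V : ℕ)) + C0)) := Real.exp_le_exp.2 hSp
      _ = Real.exp (v / 2 * C0) * (Real.log (min y V : ℕ)) ^ (v / 2) := by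
          rw [Real.rpow_def_of_pos hm0, ← Real.exp_add]
          congr 1
          ring
      _ ≤ _ := mul_le_mul_of_nonneg_left (Real.rpow_le_rpow hm0.le hmV (by positivity))
          (Real.exp_pos _).le
  have h7 : (Real.log V) ^ (v / 2) ≤ (Real.log 2) ^ (-(v / 2)) * (Real.log V) ^ v := by
    have h2V : Real.log 2 ≤ Real.log V :=
      Real.log_le_log (by norm_num) (by exact_mod_cast hV)
    have h8 : (Real.log V) ^ (v / 2) = (Real.log V) ^ (-(v / 2)) * (Real.log V) ^ v := by
      rw [← Real.rpow_add hV0]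
      congr 1
      ring
    rw [h8]
    apply mul_le_mul_of_nonneg_right _ (Real.rpow_nonneg hV0.le _)
    exact Real.rpow_le_rpow_of_nonpos hlog2 h2V (by linarith)
  calc Real.exp B * Real.exp (v * Sp b z (min y V))
      ≤ Real.exp B * (Real.exp (v / 2 * C0) * (Real.log V) ^ (v / 2)) :=
        mul_le_mul_of_nonneg_left h6 (Real.exp_pos _).le
    _ ≤ Real.exp B * (Real.exp (v / 2 * C0) *
        ((Real.log 2) ^ (-(v / 2)) * (Real.log V) ^ v)) :=
        mul_le_mul_of_nonneg_left (mul_le_mul_of_nonneg_left h7 (Real.exp_pos _).le)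
          (Real.exp_pos _).le
    _ = Real.exp B * A * (Real.log V) ^ v := by rw [hA]; ring

end Pool.Agent.TH841.PM.FULf
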