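import Mathlib
import Pool.Agent.H474R2.PG.Defs
import Pool.Agent.W262.RK.Defs

/-!
# Project PM: Turan's inequality for the values of a polynomial in a short interval
-/

set_option autoImplicit false

namespace Pool.Agent.TH841.PM.BADf

open Finset Polynomial Pool.Agent.W262.RK

open Pool.Agent.H474R2.PG (rho)

/-- integers in a residue class in an interval -/
lemma cnt_mod (N : ℤ) (M m : ℕ) (hm : 0 < m) (a : ℤ) :
    (((Ioc N (N + M)).filter (fun t => t ≡ a [ZMOD m])).card : ℝ) ≤ M / m + 1 ∧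
    (M : ℝ) / m - 1 ≤ (((Ioc N (N + M)).filter (fun t => t ≡ a [ZMOD m])).card : ℝ) := by
  have hm' : (0 : ℤ) < (m : ℤ) := by exact_mod_cast hm
  have h := Int.Ioc_filter_modEq_card N (N + M) hm' a
  set k := ((Ioc N (N + M)).filter (fun t => t ≡ a [ZMOD m])).card with hk
  set x : ℚ := (((N + (M : ℤ) : ℤ) : ℚ) - (a : ℚ)) / ((m : ℤ) : ℚ) with hx
  set y : ℚ := ((N : ℚ) - (a : ℚ)) / ((m : ℤ) : ℚ) with hy
  have hm0 : (0 : ℚ) < ((m : ℤ) : ℚ) := by exact_mod_cast hm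
  have hxy : x - y = (M : ℚ) / m := by
    rw [hx, hy, ← sub_div]
    push_cast
    congr 1
    ring
  have h1 := Int.floor_le x
  have h2 := Int.lt_floor_add_one x
  have h3 := Int.floor_le y
  have h4 := Int.lt_floor_add_one y
  have hk' : (k : ℤ) = max (⌊x⌋ - ⌊y⌋) 0 := h
  have hq : (k : ℚ) = max (((⌊x⌋ : ℤ) : ℚ) - ((⌊y⌋ : ℤ) : ℚ)) 0 := by exact_mod_cast hk'
  have hMm : (0 : ℚ) ≤ (M : ℚ) / m := by positivity
  have h5 : (k : ℚ) ≤ (M : ℚ) / m + 1 := by
    rw [hq]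
    refine max_le ?_ (by linarith)
    linarith
  have h6 : (M : ℚ) / m - 1 ≤ k := by
    rw [hq]
    refine le_trans ?_ (le_max_left _ _)
    linarith
  have h7 : ((k : ℚ) : ℝ) ≤ (((M : ℚ) / m + 1 : ℚ) : ℝ) := Rat.cast_le.2 h5
  have h8 : (((M : ℚ) / m - 1 : ℚ) : ℝ) ≤ ((k : ℚ) : ℝ) := Rat.cast_le.2 h6
  push_cast at h7 h8
  exact ⟨h7, h8⟩

/-- the roots -/
noncomputable def Rt (f : ℤ[X]) (p : ℕ) : Finset ℕ :=
  (range p).filter (fun a : ℕ => (p : ℤ) ∣ f.eval (a : ℤ))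

lemma card_Rt (f : ℤ[X]) (p : ℕ) : (Rt f p).card = rho f p := rfl

lemma dvd_eval_iff {f : ℤ[X]} {p : ℕ} (hp : 0 < p) (t : ℤ) :
    (p : ℤ) ∣ f.eval t ↔ (t % p).toNat ∈ Rt f p := by
  unfold Rt
  have hp' : (0 : ℤ) < p := by exact_mod_cast hp
  have h1 := Int.emod_nonneg t hp'.ne'
  have h2 := Int.emod_lt_of_pos t hp'
  rw [mem_filter, mem_range]
  have h3 : (((t % p).toNat : ℕ) : ℤ) = t % p := Int.toNat_of_nonneg h1
  rw [h3]
  have h4 : (t - t % p) ∣ (f.eval t - f.eval (t % p)) := sub_dvd_eval_sub _ _ f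
  have h5 : (p : ℤ) ∣ t - t % p := Int.dvd_self_sub_emod
  have h6 : (p : ℤ) ∣ (f.eval t - f.eval (t % p)) := h5.trans h4
  constructor
  · intro h
    exact ⟨by omega, (dvd_sub_right h).1 h6⟩
  · rintro ⟨_, h⟩
    exact (dvd_sub_left h).1 h6

lemma emod_eq_iff {p a : ℕ} (hp : 0 < p) (ha : a < p) (t : ℤ) :
    (t % p).toNat = a ↔ t ≡ (a : ℤ) [ZMOD p] := by
  have hp' : (0 : ℤ) < p := by exact_mod_cast hp
  have h1 := Int.emod_nonneg t hp'.ne'
  unfold Int.ModEq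
  rw [Int.emod_eq_of_lt (a := (a : ℤ)) (by omega) (by exact_mod_cast ha)]
  omega

/-- values divisible by a prime -/
lemma cnt_one (f : ℤ[X]) (N : ℤ) (M p : ℕ) (hp : 0 < p) :
    (((Ioc N (N + M)).filter (fun t => (p : ℤ) ∣ f.eval t)).card : ℝ) ≤ rho f p * (M / p + 1) ∧
    (rho f p : ℝ) * (M / p - 1) ≤
      (((Ioc N (N + M)).filter (fun t => (p : ℤ) ∣ f.eval t)).card : ℝ) := by
  have h1 : ((Ioc N (N + M)).filter (fun t => (p : ℤ) ∣ f.eval t)).card =
      ∑ a ∈ Rt f p, ((Ioc N (N + M)).filter (fun t => t ≡ (a : ℤ) [ZMOD p])).card := by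
    rw [card_eq_sum_card_fiberwise (f := fun t : ℤ => (t % p).toNat) (t := Rt f p)]
    · refine sum_congr rfl fun a ha => ?_
      congr 1
      ext t
      have ha' : a < p := by
        unfold Rt at ha
        exact mem_range.1 (mem_filter.1 ha).1
      simp only [mem_filter]
      rw [emod_eq_iff hp ha', and_assoc]
      refine and_congr_right fun _ => ⟨fun h => h.2, fun h => ⟨?_, h⟩⟩
      rw [dvd_eval_iff hp, (emod_eq_iff hp ha' t).2 h]
      exact ha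
    · intro t ht
      rw [mem_coe, mem_filter] at ht
      exact (dvd_eval_iff hp t).1 ht.2
  rw [h1]
  push_cast
  rw [← card_Rt, ← nsmul_eq_mul, ← nsmul_eq_mul, ← sum_const, ← sum_const]
  exact ⟨sum_le_sum fun a _ => (cnt_mod N M p hp a).1, sum_le_sum fun a _ => (cnt_mod N M p hp a).2⟩

/-- values divisible by two primes -/
lemma cnt_two (f : ℤ[X]) (N : ℤ) (M p q : ℕ) (hp : p.Prime) (hq : q.Prime) (hpq : p ≠ q) :
    (((Ioc N (N + M)).filter (fun t => (p : ℤ) ∣ f.eval t ∧ (q : ℤ) ∣ f.eval t)).card : ℝ) ≤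
      rho f p * rho f q * (M / (p * q) + 1) := by
  have h1 : ((Ioc N (N + M)).filter (fun t => (p : ℤ) ∣ f.eval t ∧ (q : ℤ) ∣ f.eval t)).card =
      ∑ a ∈ Rt f p ×ˢ Rt f q, ((Ioc N (N + M)).filter
        (fun t => t ≡ (a.1 : ℤ) [ZMOD p] ∧ t ≡ (a.2 : ℤ) [ZMOD q])).card := by
    rw [card_eq_sum_card_fiberwise (f := fun t : ℤ => ((t % p).toNat, (t % q).toNat))
      (t := Rt f p ×ˢ Rt f q)]
    · refine sum_congr rfl fun a ha => ?_
      congr 1
      ext t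
      rw [mem_product] at ha
      have ha1 : a.1 < p := by
        have := ha.1
        unfold Rt at this
        exact mem_range.1 (mem_filter.1 this).1
      have ha2 : a.2 < q := by
        have := ha.2
        unfold Rt at this
        exact mem_range.1 (mem_filter.1 this).1
      simp only [mem_filter]
      rw [Prod.ext_iff, emod_eq_iff hp.pos ha1, emod_eq_iff hq.pos ha2, and_assoc]
      refine and_congr_right fun _ => ⟨fun h => h.2, fun h => ⟨?_, h⟩⟩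
      rw [dvd_eval_iff hp.pos, dvd_eval_iff hq.pos, (emod_eq_iff hp.pos ha1 t).2 h.1,
        (emod_eq_iff hq.pos ha2 t).2 h.2]
      exact ha
    · intro t ht
      rw [mem_coe, mem_filter] at ht
      rw [mem_coe, mem_product]
      exact ⟨(dvd_eval_iff hp.pos t).1 ht.2.1, (dvd_eval_iff hq.pos t).1 ht.2.2⟩
  rw [h1]
  push_cast
  have hc : (rho f p : ℝ) * rho f q = ((Rt f p ×ˢ Rt f q).card : ℝ) := by
    rw [card_product, card_Rt, card_Rt]
    push_cast
    rfl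
  rw [hc, ← nsmul_eq_mul, ← sum_const]
  refine sum_le_sum fun a _ => ?_
  have hco : Nat.Coprime p q := (Nat.coprime_primes hp hq).2 hpq
  obtain ⟨c, hc1, hc2⟩ := Nat.chineseRemainder hco a.1 a.2
  have h2 : (Ioc N (N + M)).filter (fun t => t ≡ (a.1 : ℤ) [ZMOD p] ∧ t ≡ (a.2 : ℤ) [ZMOD q]) =
      (Ioc N (N + M)).filter (fun t => t ≡ (c : ℤ) [ZMOD ((p * q : ℕ) : ℤ)]) := by
    refine filter_congr fun t _ => ?_
    have e1 : (c : ℤ) ≡ (a.1 : ℤ) [ZMOD p] := (Int.natCast_modEq_iff).2 hc1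
    have e2 : (c : ℤ) ≡ (a.2 : ℤ) [ZMOD q] := (Int.natCast_modEq_iff).2 hc2
    push_cast
    rw [← Int.modEq_and_modEq_iff_modEq_mul (by simpa using hco)]
    exact ⟨fun h => ⟨h.1.trans e1.symm, h.2.trans e2.symm⟩, fun h => ⟨h.1.trans e1, h.2.trans e2⟩⟩
  rw [h2]
  have h3 := (cnt_mod N M (p * q) (Nat.mul_pos hp.pos hq.pos) c).1
  push_cast at h3
  exact h3

/-- the number of the prime factors between `z` and `y` -/
noncomputable def om (f : ℤ[X]) (z y : ℕ) (t : ℤ) : ℕ :=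
  ((PS z y).filter (fun p : ℕ => (p : ℤ) ∣ f.eval t)).card

/-- the sum of `rho f p / p` -/
noncomputable def SS (f : ℤ[X]) (z y : ℕ) : ℝ := ∑ p ∈ PS z y, (rho f p : ℝ) / p

lemma om_eq (f : ℤ[X]) (z y : ℕ) (t : ℤ) :
    (om f z y t : ℝ) = ∑ p ∈ PS z y, if (p : ℤ) ∣ f.eval t then (1 : ℝ) else 0 := by
  unfold om
  rw [sum_ite, sum_const_zero, add_zero, sum_const, nsmul_eq_mul, mul_one]

lemma mem_PS {z y p : ℕ} : p ∈ PS z y ↔ (z < p ∧ p ≤ y) ∧ p.Prime := by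
  unfold PS
  rw [mem_filter, mem_Ioc]

lemma card_PS (z y : ℕ) : (PS z y).card ≤ y := by
  have h : PS z y ⊆ Ioc 0 y := by
    intro p hp
    rw [mem_PS] at hp
    rw [mem_Ioc]
    exact ⟨hp.2.pos, hp.1.2⟩
  have := card_le_card h
  rwa [Nat.card_Ioc, Nat.sub_zero] at this

lemma SS_nonneg (f : ℤ[X]) (z y : ℕ) : 0 ≤ SS f z y := sum_nonneg fun p _ => by positivity

lemma sum_ind (N : ℤ) (M : ℕ) (P : ℤ → Prop) [DecidablePred P] :
    ∑ t ∈ Ioc N (N + M), (if P t then (1 : ℝ) else 0) = (((Ioc N (N + M)).filter P).card : ℝ) := by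
  rw [sum_ite, sum_const_zero, add_zero, sum_const, nsmul_eq_mul, mul_one]

lemma sum_om (f : ℤ[X]) (z y c : ℕ) (hc : ∀ p ∈ PS z y, rho f p ≤ c) (N : ℤ) (M : ℕ) :
    (M : ℝ) * SS f z y - c * y ≤ ∑ t ∈ Ioc N (N + M), (om f z y t : ℝ) := by
  simp only [om_eq]
  rw [sum_comm]
  simp only [sum_ind]
  have h1 : ∑ p ∈ PS z y, ((rho f p : ℝ) * (M / p) - c) ≤ ∑ p ∈ PS z y,
      (((Ioc N (N + M)).filter (fun t => (p : ℤ) ∣ f.eval t)).card : ℝ) := by
    refine sum_le_sum fun p hp => ?_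
    have h2 := (cnt_one f N M p (mem_PS.1 hp).2.pos).2
    have h3 : (rho f p : ℝ) ≤ c := by exact_mod_cast hc p hp
    linarith
  refine le_trans ?_ h1
  rw [sum_sub_distrib, sum_const, nsmul_eq_mul]
  have h4 : ((PS z y).card : ℝ) ≤ y := by exact_mod_cast card_PS z y
  have h5 : ∑ p ∈ PS z y, (rho f p : ℝ) * (M / p) = M * SS f z y := by
    unfold SS
    rw [mul_sum]
    exact sum_congr rfl fun p _ => by ring
  rw [h5]
  have h6 : ((PS z y).card : ℝ) * c ≤ c * y := by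
    rw [mul_comm]
    exact mul_le_mul_of_nonneg_left h4 (Nat.cast_nonneg _)
  linarith

lemma sum_om_sq (f : ℤ[X]) (z y c : ℕ) (hc : ∀ p ∈ PS z y, rho f p ≤ c) (N : ℤ) (M : ℕ) :
    ∑ t ∈ Ioc N (N + M), (om f z y t : ℝ) ^ 2 ≤
      M * SS f z y ^ 2 + c ^ 2 * y ^ 2 + M * SS f z y + c * y := by
  have h1 : ∑ t ∈ Ioc N (N + M), (om f z y t : ℝ) ^ 2 =
      ∑ p ∈ PS z y, ∑ q ∈ PS z y, (((Ioc N (N + M)).filter
        (fun t => (p : ℤ) ∣ f.eval t ∧ (q : ℤ) ∣ f.eval t)).card : ℝ) := by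
    simp only [om_eq]
    have : ∀ t : ℤ, (∑ p ∈ PS z y, if (p : ℤ) ∣ f.eval t then (1 : ℝ) else 0) ^ 2 =
        ∑ p ∈ PS z y, ∑ q ∈ PS z y, (if (p : ℤ) ∣ f.eval t ∧ (q : ℤ) ∣ f.eval t then (1 : ℝ)
          else 0) := by
      intro t
      rw [sq, sum_mul_sum]
      refine sum_congr rfl fun p _ => sum_congr rfl fun q _ => ?_
      by_cases h1 : (p : ℤ) ∣ f.eval t <;> by_cases h2 : (q : ℤ) ∣ f.eval t <;> simp [h1, h2]
    simp only [this]
    rw [sum_comm]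
    refine sum_congr rfl fun p _ => ?_
    rw [sum_comm]
    exact sum_congr rfl fun q _ => sum_ind _ _ _
  rw [h1]
  have h2 : ∀ p ∈ PS z y, ∀ q ∈ PS z y, (((Ioc N (N + M)).filter
        (fun t => (p : ℤ) ∣ f.eval t ∧ (q : ℤ) ∣ f.eval t)).card : ℝ) ≤
      ((M : ℝ) * ((rho f p : ℝ) / p * ((rho f q : ℝ) / q)) + c ^ 2) +
        (if p = q then (M : ℝ) * ((rho f p : ℝ) / p) + c else 0) := by
    intro p hp q hq
    have hp' := (mem_PS.1 hp).2
    have hq' := (mem_PS.1 hq).2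
    have hcp : (rho f p : ℝ) ≤ c := by exact_mod_cast hc p hp
    have hcq : (rho f q : ℝ) ≤ c := by exact_mod_cast hc q hq
    have hp0 : (0 : ℝ) < p := by exact_mod_cast hp'.pos
    have hq0 : (0 : ℝ) < q := by exact_mod_cast hq'.pos
    have hrp : (0 : ℝ) ≤ rho f p := Nat.cast_nonneg _
    have hrq : (0 : ℝ) ≤ rho f q := Nat.cast_nonneg _
    by_cases hpq : p = q
    · subst hpq
      rw [if_pos rfl]
      simp only [and_self]
      have h3 := (cnt_one f N M p hp'.pos).1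
      have h4 : (0 : ℝ) ≤ (M : ℝ) * ((rho f p : ℝ) / p * ((rho f p : ℝ) / p)) + c ^ 2 := by
        positivity
      have h5 : (rho f p : ℝ) * (M / p + 1) = (M : ℝ) * ((rho f p : ℝ) / p) + rho f p := by ring
      linarith
    · rw [if_neg hpq, add_zero]
      have h3 := cnt_two f N M p q hp' hq' hpq
      have h4 : (rho f p : ℝ) * rho f q * (M / (p * q) + 1) =
          (M : ℝ) * ((rho f p : ℝ) / p * ((rho f q : ℝ) / q)) + rho f p * rho f q := by
        field_simp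
      have h5 : (rho f p : ℝ) * rho f q ≤ c ^ 2 := by
        rw [sq]
        exact mul_le_mul hcp hcq hrq (hrp.trans hcp)
      linarith
  refine (sum_le_sum fun p hp => sum_le_sum fun q hq => h2 p hp q hq).trans ?_
  simp only [sum_add_distrib]
  have h3 : ∑ p ∈ PS z y, ∑ q ∈ PS z y, (M : ℝ) * ((rho f p : ℝ) / p * ((rho f q : ℝ) / q)) =
      M * SS f z y ^ 2 := by
    unfold SS
    rw [sq, sum_mul_sum, mul_sum]
    exact sum_congr rfl fun p _ => (mul_sum _ _ _).symm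
  have h4 : ∑ p ∈ PS z y, ∑ q ∈ PS z y, (if p = q then (M : ℝ) * ((rho f p : ℝ) / p) + c else 0) =
      M * SS f z y + (PS z y).card * c := by
    have : ∀ p ∈ PS z y, ∑ q ∈ PS z y,
        (if p = q then (M : ℝ) * ((rho f p : ℝ) / p) + c else 0) =
        (M : ℝ) * ((rho f p : ℝ) / p) + c := by
      intro p hp
      rw [sum_ite_eq, if_pos hp]
    rw [sum_congr rfl this, sum_add_distrib, sum_const, nsmul_eq_mul]
    unfold SS
    rw [mul_sum]
  rw [h3, h4]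
  have h5 : ((PS z y).card : ℝ) ≤ y := by exact_mod_cast card_PS z y
  have h6 : ∑ p ∈ PS z y, ∑ q ∈ PS z y, (c : ℝ) ^ 2 ≤ c ^ 2 * y ^ 2 := by
    rw [sum_const, sum_const, nsmul_eq_mul, nsmul_eq_mul]
    have h7 : ((PS z y).card : ℝ) * (PS z y).card ≤ y * y :=
      mul_le_mul h5 h5 (Nat.cast_nonneg _) (Nat.cast_nonneg _)
    have h8 := mul_le_mul_of_nonneg_right h7 (sq_nonneg (c : ℝ))
    nlinarith
  have h7 : ((PS z y).card : ℝ) * c ≤ c * y := by
    rw [mul_comm]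
    exact mul_le_mul_of_nonneg_left h5 (Nat.cast_nonneg _)
  linarith

/-- **Turan's inequality for polynomials in short intervals** -/
lemma turan (f : ℤ[X]) (z y c : ℕ) (hc : ∀ p ∈ PS z y, rho f p ≤ c) (N : ℤ) (M : ℕ)
    (hy : y * y ≤ M) : ∑ t ∈ Ioc N (N + M), ((om f z y t : ℝ) - SS f z y) ^ 2 ≤
      M * ((2 * c + 1) * SS f z y + (c ^ 2 + c)) := by
  have h1 := sum_om f z y c hc N M
  have h2 := sum_om_sq f z y c hc N M
  have h0 := SS_nonneg f z y
  set S := SS f z y with hS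
  have h3 : ∑ t ∈ Ioc N (N + M), ((om f z y t : ℝ) - S) ^ 2 =
      ∑ t ∈ Ioc N (N + M), (om f z y t : ℝ) ^ 2 -
      2 * S * ∑ t ∈ Ioc N (N + M), (om f z y t : ℝ) + M * S ^ 2 := by
    have h4 : ∀ t : ℤ, ((om f z y t : ℝ) - S) ^ 2 = (om f z y t : ℝ) ^ 2 -
      2 * S * (om f z y t : ℝ) + S ^ 2 := fun n => by ring
    simp only [h4]
    rw [sum_add_distrib, sum_sub_distrib, ← mul_sum, sum_const, Int.card_Ioc, nsmul_eq_mul]
    congr 2
    simp
  rw [h3]
  have hyy : (y : ℝ) * y ≤ M := by exact_mod_cast hy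
  have hyM : (y : ℝ) ≤ M := by
    have : y ≤ y * y := Nat.le_mul_self y
    exact_mod_cast this.trans hy
  have hc0 : (0 : ℝ) ≤ c := Nat.cast_nonneg _
  have h6 : 2 * S * ((M : ℝ) * S - c * y) ≤ 2 * S * ∑ t ∈ Ioc N (N + M), (om f z y t : ℝ) :=
    mul_le_mul_of_nonneg_left h1 (by positivity)
  have h7 : 2 * S * (c * y) ≤ 2 * S * (c * M) :=
    mul_le_mul_of_nonneg_left (mul_le_mul_of_nonneg_left hyM hc0) (by positivity)
  have h8 : (c : ℝ) ^ 2 * y ^ 2 ≤ c ^ 2 * M := by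
    rw [sq (y : ℝ)]
    exact mul_le_mul_of_nonneg_left hyy (by positivity)
  have h9 : (c : ℝ) * y ≤ c * M := mul_le_mul_of_nonneg_left hyM hc0
  nlinarith

/-- the number of the prime factors of a value -/
lemma om_le (f : ℤ[X]) (z y : ℕ) (t : ℤ) (ht : f.eval t ≠ 0) :
    om f z y t ≤ (f.eval t).natAbs.primeFactors.card := by
  apply card_le_card
  intro p hp
  rw [mem_filter, mem_PS] at hp
  rw [Nat.mem_primeFactors]
  exact ⟨hp.1.2, Int.natCast_dvd.1 hp.2, Int.natAbs_ne_zero.2 ht⟩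

lemma le_om (f : ℤ[X]) (z y k : ℕ) (t : ℤ) (ht : f.eval t ≠ 0)
    (hk : (f.eval t).natAbs < (y + 1) ^ (k + 1)) :
    (f.eval t).natAbs.primeFactors.card ≤ om f z y t + (z + k) := by
  classical
  set n := (f.eval t).natAbs with hn
  have hn0 : n ≠ 0 := Int.natAbs_ne_zero.2 ht
  have h1 : n.primeFactors ⊆ ((PS z y).filter (fun p : ℕ => (p : ℤ) ∣ f.eval t) ∪ Ioc 0 z) ∪
      n.primeFactors.filter (fun p => y < p) := by
    intro p hp
    rw [mem_union, mem_union, mem_filter, mem_filter, mem_PS, mem_Ioc]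
    have hpp := Nat.prime_of_mem_primeFactors hp
    have hpd := Nat.dvd_of_mem_primeFactors hp
    by_cases h1 : p ≤ z
    · exact Or.inl (Or.inr ⟨hpp.pos, h1⟩)
    · by_cases h2 : p ≤ y
      · exact Or.inl (Or.inl ⟨⟨⟨by omega, h2⟩, hpp⟩, Int.natCast_dvd.2 hpd⟩)
      · exact Or.inr ⟨hp, by omega⟩
  have h2 : (n.primeFactors.filter (fun p => y < p)).card ≤ k := by
    by_contra h
    push Not at h
    have h3 : ∏ p ∈ n.primeFactors.filter (fun p => y < p), p ∣ n := by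
      refine (prod_dvd_prod_of_subset _ _ _ (filter_subset _ _)).trans ?_
      exact Nat.prod_primeFactors_dvd n
    have h4 : (y + 1) ^ (n.primeFactors.filter (fun p => y < p)).card ≤
        ∏ p ∈ n.primeFactors.filter (fun p => y < p), p := by
      rw [← prod_const]
      refine prod_le_prod' fun p hp => ?_
      have := (mem_filter.1 hp).2
      omega
    have h5 : (y + 1) ^ (k + 1) ≤ (y + 1) ^ (n.primeFactors.filter (fun p => y < p)).card :=
      Nat.pow_le_pow_right (by omega) h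
    have h6 := Nat.le_of_dvd (Nat.pos_of_ne_zero hn0) h3
    omega
  refine (card_le_card h1).trans ((card_union_le _ _).trans ?_)
  have h3 := card_union_le ((PS z y).filter (fun p : ℕ => (p : ℤ) ∣ f.eval t)) (Ioc 0 z)
  rw [Nat.card_Ioc, Nat.sub_zero] at h3
  unfold om
  omega

end Pool.Agent.TH841.PM.BADf
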