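import Mathlib
import Pool.Agent.TH841.PM.BadA

/-!
# Project PM: the normal order of the number of the prime factors of the values of a polynomial
-/

set_option autoImplicit false

namespace Pool.Agent.TH841.PM.BADf

open Finset Polynomial Pool.Agent.W262.RK

open Pool.Agent.H474R2.PG (rho)

/-- the arguments with an unusual number of prime factors -/
noncomputable def Ex (f : ℤ[X]) (N : ℤ) (M : ℕ) (δ : ℝ) : Finset ℤ := by
  classical
  exact (Ioc N (N + M)).filter (fun t => f.eval t ≠ 0 ∧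
    δ * Real.log (Real.log M) <
      |((f.eval t).natAbs.primeFactors.card : ℝ) - Real.log (Real.log M)|)

lemma mem_Ex {f : ℤ[X]} {N : ℤ} {M : ℕ} {δ : ℝ} {t : ℤ} : t ∈ Ex f N M δ ↔
    t ∈ Ioc N (N + M) ∧ f.eval t ≠ 0 ∧ δ * Real.log (Real.log M) <
      |((f.eval t).natAbs.primeFactors.card : ℝ) - Real.log (Real.log M)| := by
  classical
  unfold Ex
  rw [mem_filter]

lemma tendsto_LL : Filter.Tendsto (fun M : ℕ => Real.log (Real.log M)) Filter.atTop Filter.atTop :=
  Real.tendsto_log_atTop.comp (Real.tendsto_log_atTop.comp tendsto_natCast_atTop_atTop)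

/-- **the normal order**, with the sum over the primes as an input -/
theorem normal (f : ℤ[X]) (z c B : ℕ) (C : ℝ) (hC : 0 ≤ C) (hz : 3 ≤ z)
    (hc : ∀ p : ℕ, p.Prime → z < p → rho f p ≤ c)
    (hS : ∀ y, z < y → |SS f z y - Real.log (Real.log y)| ≤ C)
    (hK : ∃ K : ℕ, ∀ (x : ℤ) (m : ℕ), 1 ≤ m → x.natAbs ≤ m →
      (f.eval x).natAbs ≤ K * m ^ f.natDegree) (δ ε : ℝ) (hδ : 0 < δ) (hε : 0 < ε) :
    ∃ M0 : ℕ, ∀ (N : ℤ) (M : ℕ), M0 ≤ M → |N| ≤ (M : ℤ) ^ B →
      ((Ex f N M δ).card : ℝ) ≤ ε * M := by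
  obtain ⟨K, hK⟩ := hK
  set b : ℕ := (B + 2) * f.natDegree + 1 with hb
  set D : ℝ := C + 2 + (z + 2 * b : ℕ) with hD
  have hD0 : 0 ≤ D := by positivity
  -- the conditions on the size of `M`
  have e1 := tendsto_LL.eventually_ge_atTop (2 * D / δ)
  have e2 := tendsto_LL.eventually_ge_atTop
    (4 * ((2 * c + 1) * (1 + C) + (c ^ 2 + c)) / (ε * δ ^ 2))
  have e3 := tendsto_LL.eventually_ge_atTop 1
  obtain ⟨M1, hM1⟩ := Filter.eventually_atTop.1 (e1.and (e2.and e3))
  refine ⟨M1 + (z + 2) * (z + 2) + K + 16, fun N M hM hN => ?_⟩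
  obtain ⟨h1, h2, h3⟩ := hM1 M (by omega)
  set L : ℝ := Real.log (Real.log M) with hL
  set y : ℕ := Nat.sqrt M with hy
  have hyM : y * y ≤ M := Nat.sqrt_le M
  have hyM' : M < (y + 1) * (y + 1) := Nat.lt_succ_sqrt M
  have hzy : z + 2 ≤ y := by
    rw [hy, Nat.le_sqrt]
    have : (z + 2) * (z + 2) ≤ M := by
      have := hM
      omega
    exact this
  have hy3 : 3 ≤ y := by omega
  have hlogy : Real.log y ≤ Real.log M := by
    apply Real.log_le_log
    · exact_mod_cast (by omega : 0 < y)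
    · have : y ≤ y * y := Nat.le_mul_self y
      exact_mod_cast this.trans hyM
  have hlogM : Real.log M ≤ 3 * Real.log y := by
    have h4 : M ≤ y ^ 3 := by
      have h5 : (y + 1) * (y + 1) ≤ y ^ 3 := by
        have : 3 * (y * y) ≤ y ^ 3 := by
          rw [pow_succ, pow_two, mul_comm]
          exact Nat.mul_le_mul_left _ hy3
        nlinarith
      omega
    have h5 : Real.log M ≤ Real.log ((y : ℝ) ^ 3) := by
      apply Real.log_le_log
      · exact_mod_cast (by omega : 0 < M)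
      · exact_mod_cast h4
    rw [Real.log_pow] at h5
    exact_mod_cast h5
  have hlogy1 : 1 < Real.log y := by
    rw [Real.lt_log_iff_exp_lt (by exact_mod_cast (by omega : 0 < y))]
    have h4 := Real.exp_one_lt_d9
    have h5 : (3 : ℝ) ≤ y := by exact_mod_cast hy3
    linarith
  have hLy1 : Real.log (Real.log y) ≤ L := Real.log_le_log (by linarith) hlogy
  have hLy2 : L ≤ Real.log (Real.log y) + 2 := by
    have h4 : L ≤ Real.log (3 * Real.log y) := Real.log_le_log (by linarith) hlogM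
    rw [Real.log_mul (by norm_num) (by linarith)] at h4
    have h5 : Real.log 3 ≤ 2 := by
      have := Real.log_le_sub_one_of_pos (show (0 : ℝ) < 3 by norm_num)
      linarith
    linarith
  have hSy := abs_le.1 (hS y (by omega))
  have hSL : |SS f z y - L| ≤ C + 2 := by
    rw [abs_le]
    constructor <;> linarith [hSy.1, hSy.2]
  have hSL' : SS f z y ≤ L + C := by linarith [hSy.2]
  -- the size of the values
  have hsize : ∀ t ∈ Ioc N (N + M), (f.eval t).natAbs < (y + 1) ^ (2 * b + 1) := by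
    intro t ht
    rw [mem_Ioc] at ht
    have hM0 : 1 ≤ M := by omega
    have e5 : M ^ B ≤ M ^ (B + 1) := Nat.pow_le_pow_right hM0 (by omega)
    have e6 : M ≤ M ^ (B + 1) := Nat.le_self_pow (by omega) M
    have e7 : N.natAbs ≤ M ^ B := by
      have : ((N.natAbs : ℕ) : ℤ) ≤ ((M ^ B : ℕ) : ℤ) := by
        push_cast
        exact hN
      exact_mod_cast this
    have e8 : t.natAbs ≤ M ^ (B + 2) := by
      calc t.natAbs ≤ N.natAbs + M := by omega
        _ ≤ M ^ (B + 1) + M ^ (B + 1) := Nat.add_le_add (e7.trans e5) e6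
        _ = 2 * M ^ (B + 1) := by ring
        _ ≤ M * M ^ (B + 1) := Nat.mul_le_mul_right _ (by omega)
        _ = M ^ (B + 2) := by ring
    have e9 : (f.eval t).natAbs ≤ M ^ b := by
      calc (f.eval t).natAbs ≤ K * (M ^ (B + 2)) ^ f.natDegree :=
            hK t _ (Nat.one_le_pow _ _ hM0) e8
        _ ≤ M * (M ^ (B + 2)) ^ f.natDegree := Nat.mul_le_mul_right _ (by omega)
        _ = M ^ b := by rw [hb, ← pow_mul]; ring
    calc (f.eval t).natAbs ≤ M ^ b := e9
      _ ≤ ((y + 1) * (y + 1)) ^ b := Nat.pow_le_pow_left hyM'.le b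
      _ = (y + 1) ^ (2 * b) := by rw [← pow_two, ← pow_mul]
      _ < (y + 1) ^ (2 * b + 1) := Nat.pow_lt_pow_right (by omega) (by omega)
  -- the exceptions deviate from the mean
  have hDL : D ≤ δ * L / 2 := by
    rw [div_le_iff₀ hδ] at h1
    linarith
  have hdev : ∀ t ∈ Ex f N M δ, (δ * L / 2) ^ 2 ≤ ((om f z y t : ℝ) - SS f z y) ^ 2 := by
    intro t ht
    obtain ⟨ht1, ht2, ht3⟩ := mem_Ex.1 ht
    have h4 : ((om f z y t : ℕ) : ℝ) ≤ ((f.eval t).natAbs.primeFactors.card : ℝ) := by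
      exact_mod_cast om_le f z y t ht2
    have h5 : ((f.eval t).natAbs.primeFactors.card : ℝ) ≤ (om f z y t : ℝ) + (z + 2 * b : ℕ) := by
      exact_mod_cast le_om f z y (2 * b) t ht2 (hsize t ht1)
    rw [← hL] at ht3
    have h6 : δ * L / 2 ≤ |(om f z y t : ℝ) - SS f z y| := by
      have h7 := abs_le.1 hSL
      rcases lt_abs.1 ht3 with h8 | h8
      · refine le_trans ?_ (le_abs_self _)
        linarith [h7.2]
      · refine le_trans ?_ (neg_le_abs _)
        linarith [h7.1]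
    rw [← sq_abs ((om f z y t : ℝ) - SS f z y)]
    have hL0 : 0 ≤ L := by linarith
    exact pow_le_pow_left₀ (by positivity) h6 2
  have hT := turan f z y c (fun p hp => hc p (mem_PS.1 hp).2 (mem_PS.1 hp).1.1) N M hyM
  have hcard : ((Ex f N M δ).card : ℝ) * (δ * L / 2) ^ 2 ≤
      M * ((2 * c + 1) * SS f z y + (c ^ 2 + c)) := by
    refine le_trans ?_ hT
    rw [← nsmul_eq_mul, ← sum_const]
    refine (sum_le_sum fun t ht => hdev t ht).trans ?_
    refine sum_le_sum_of_subset_of_nonneg ?_ fun _ _ _ => sq_nonneg _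
    intro t ht
    exact (mem_Ex.1 ht).1
  have hc0 : (0 : ℝ) ≤ c := Nat.cast_nonneg _
  have hL0 : 0 < L := by linarith
  set A : ℝ := (2 * c + 1) * (1 + C) + (c ^ 2 + c) with hA
  have hbd : (2 * (c : ℝ) + 1) * SS f z y + (c ^ 2 + c) ≤ A * L := by
    have h4 : (2 * (c : ℝ) + 1) * SS f z y ≤ (2 * c + 1) * (L + C) :=
      mul_le_mul_of_nonneg_left hSL' (by positivity)
    have h5 : (2 * (c : ℝ) + 1) * (L + C) ≤ (2 * c + 1) * ((1 + C) * L) := by
      refine mul_le_mul_of_nonneg_left ?_ (by positivity)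
      nlinarith
    have h6 : (c : ℝ) ^ 2 + c ≤ (c ^ 2 + c) * L := le_mul_of_one_le_right (by positivity) h3
    rw [hA]
    linarith
  have hAL : 4 * A ≤ L * (ε * δ ^ 2) := by
    rwa [div_le_iff₀ (by positivity)] at h2
  have hM0 : (0 : ℝ) ≤ M := Nat.cast_nonneg _
  have h7 : ((Ex f N M δ).card : ℝ) * (δ * L / 2) ^ 2 ≤ ε * M * (δ * L / 2) ^ 2 := by
    refine hcard.trans ?_
    calc (M : ℝ) * ((2 * c + 1) * SS f z y + (c ^ 2 + c)) ≤ M * (A * L) :=
          mul_le_mul_of_nonneg_left hbd hM0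
      _ = M * (4 * A) * L / 4 := by ring
      _ ≤ M * (L * (ε * δ ^ 2)) * L / 4 := by
          have := mul_le_mul_of_nonneg_right (mul_le_mul_of_nonneg_left hAL hM0) hL0.le
          linarith
      _ = _ := by ring
  exact le_of_mul_le_mul_right h7 (by positivity)

/-- **the weights** -/
theorem weights {J : Type} [Fintype J] (T : Finset (J → ℝ)) (hT : ∀ t ∈ T, ∀ j, 0 < t j)
    (h1 : ∀ t ∈ T, 1 < ∏ j, t j) : ∃ δ : ℝ, 0 < δ ∧ ∀ t ∈ T, ∀ (n : J → ℕ) (L : ℝ), 0 ≤ L →
      (∀ j, |(n j : ℝ) - L| ≤ δ * L) → 1 ≤ ∏ j, t j ^ n j := by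
  classical
  -- one vector
  have one : ∀ t ∈ T, ∃ δ : ℝ, 0 < δ ∧ ∀ (n : J → ℕ) (L : ℝ), 0 ≤ L →
      (∀ j, |(n j : ℝ) - L| ≤ δ * L) → 1 ≤ ∏ j, t j ^ n j := by
    intro t ht
    have hpos := hT t ht
    set σ : ℝ := ∑ j, Real.log (t j) with hσ
    have hσ0 : 0 < σ := by
      have h2 := Real.log_pos (h1 t ht)
      rwa [Real.log_prod (fun j _ => (hpos j).ne')] at h2
    set A : ℝ := ∑ j, |Real.log (t j)| with hA
    have hA0 : 0 ≤ A := sum_nonneg fun j _ => abs_nonneg _
    refine ⟨σ / (A + 1), by positivity, fun n L hL hn => ?_⟩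
    have h2 : 0 ≤ Real.log (∏ j, t j ^ n j) := by
      rw [Real.log_prod (fun j _ => (pow_pos (hpos j) _).ne')]
      simp only [Real.log_pow]
      have h3 : ∀ j ∈ (univ : Finset J), L * Real.log (t j) - σ / (A + 1) * L * |Real.log (t j)| ≤
          (n j : ℝ) * Real.log (t j) := by
        intro j _
        have h4 : |((n j : ℝ) - L) * Real.log (t j)| ≤ σ / (A + 1) * L * |Real.log (t j)| := by
          rw [abs_mul]
          exact mul_le_mul_of_nonneg_right (hn j) (abs_nonneg _)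
        have h5 := (abs_le.1 h4).1
        nlinarith
      refine le_trans ?_ (sum_le_sum h3)
      rw [sum_sub_distrib, ← mul_sum, ← mul_sum, ← hσ, ← hA]
      have h6 : σ / (A + 1) * L * A ≤ L * σ := by
        have h7 : σ / (A + 1) * A ≤ σ := by
          rw [div_mul_eq_mul_div, div_le_iff₀ (by positivity)]
          nlinarith
        nlinarith [mul_le_mul_of_nonneg_right h7 hL]
      linarith
    have h3 : 0 < ∏ j, t j ^ n j := prod_pos fun j _ => pow_pos (hpos j) _
    by_contra h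
    push Not at h
    have := Real.log_neg h3 h
    linarith
  choose! d hd hd' using one
  rcases T.eq_empty_or_nonempty with rfl | hne
  · exact ⟨1, one_pos, fun t ht => absurd ht (notMem_empty t)⟩
  refine ⟨T.inf' hne d, ?_, fun t ht n L hL hn => ?_⟩
  · rw [lt_inf'_iff]
    exact hd
  · refine hd' t ht n L hL fun j => (hn j).trans ?_
    exact mul_le_mul_of_nonneg_right (inf'_le _ ht) hL

end Pool.Agent.TH841.PM.BADf
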