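import Mathlib
import Pool.Agent.TH841.PM.Stm
import Pool.Agent.TH841.PT.Mak3
import Pool.Agent.TH841.PT.Avg
import Pool.Agent.H474R2.PG.MertensF
import Pool.Agent.TH841.PM.BadB

/-!
# Project PM: the exceptional arguments are rare
-/

set_option autoImplicit false

namespace Pool.Agent.TH841.PM.BADf

open Finset Polynomial Pool.Agent.W262.RK Pool.Agent.TH841.PT

open Pool.Agent.H474R2.PG (rho)

/-- the normal order of the number of the prime factors of the values of a polynomial -/
theorem normal' (f : ℤ[X]) (hf : Irreducible f) (hd : 0 < f.natDegree) (B : ℕ) (δ ε : ℝ)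
    (hδ : 0 < δ) (hε : 0 < ε) :
    ∃ M0 : ℕ, ∀ (N : ℤ) (M : ℕ), M0 ≤ M → |N| ≤ (M : ℤ) ^ B →
      ((Ex f N M δ).card : ℝ) ≤ ε * M := by
  obtain ⟨z0, hz0⟩ := Pool.Agent.H474R2.PG.rho_le f hf.ne_zero
  obtain ⟨C, hC0, hC⟩ := mert hf hd (z := z0 + 3) (by omega)
  exact normal f (z0 + 3) f.natDegree B C hC0 (by omega) (fun p hp hzp => hz0 p hp (by omega))
    (fun y hy => hC y hy) (eval_le f) δ ε hδ hε

/-- **PM-BAD** -/
theorem badp : Pool.Agent.TH841.PM.BADP := by
  intro J _ _ f hf T hT0 hT1 B ε hε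
  classical
  obtain ⟨δ, hδ, hw⟩ := weights T hT0 hT1
  choose M0 hM0 using fun j : J => normal' (f j) (hf.irr j) (hf.deg j) B δ
    (ε / (Fintype.card J + 1)) hδ (by positivity)
  refine ⟨∑ j, M0 j + 3, fun N M hM hN => ?_⟩
  have h1 : (Ioc N (N + M)).filter (fun t => (∀ j, (f j).eval t ≠ 0) ∧
      wt T (fun j => ((f j).eval t).natAbs.primeFactors.card) < 1) ⊆
      univ.biUnion (fun j => Ex (f j) N M δ) := by
    intro t ht
    rw [mem_filter] at ht
    obtain ⟨ht1, ht2, ht3⟩ := ht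
    by_contra h
    rw [mem_biUnion] at h
    push Not at h
    obtain ⟨x, hx, hx1⟩ := Pool.Agent.TH344.DT.rho_lt_one ht3
    have h2 : 0 ≤ Real.log (Real.log M) := by
      have h3 : (3 : ℝ) ≤ M := by exact_mod_cast (by omega : 3 ≤ M)
      apply Real.log_nonneg
      rw [Real.le_log_iff_exp_le (by linarith)]
      have := Real.exp_one_lt_d9
      linarith
    have h4 := hw x hx (fun j => ((f j).eval t).natAbs.primeFactors.card)
      (Real.log (Real.log M)) h2 (fun j => by
        have h5 := h j (mem_univ j)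
        rw [mem_Ex] at h5
        by_contra h6
        push Not at h6
        exact h5 ⟨ht1, ht2 j, h6⟩)
    linarith
  have h2 : ∀ j, ((Ex (f j) N M δ).card : ℝ) ≤ ε / (Fintype.card J + 1) * M := fun j =>
    hM0 j N M ((single_le_sum (f := M0) (fun _ _ => Nat.zero_le _) (mem_univ j)).trans
      (by omega)) hN
  have h3 : (((Ioc N (N + M)).filter (fun t => (∀ j, (f j).eval t ≠ 0) ∧
      wt T (fun j => ((f j).eval t).natAbs.primeFactors.card) < 1)).card : ℝ) ≤
      ∑ j, ((Ex (f j) N M δ).card : ℝ) := by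
    exact_mod_cast (card_le_card h1).trans card_biUnion_le
  refine h3.trans ((sum_le_sum fun j _ => h2 j).trans ?_)
  rw [sum_const, nsmul_eq_mul, card_univ]
  have hM' : (0 : ℝ) ≤ M := Nat.cast_nonneg _
  have hJ : (0 : ℝ) ≤ Fintype.card J := Nat.cast_nonneg _
  have h5 : (Fintype.card J : ℝ) * (ε / (Fintype.card J + 1)) ≤ ε := by
    rw [mul_div_assoc', div_le_iff₀ (by positivity)]
    nlinarith
  calc (Fintype.card J : ℝ) * (ε / (Fintype.card J + 1) * M) =
        (Fintype.card J : ℝ) * (ε / (Fintype.card J + 1)) * M := by ring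
    _ ≤ ε * M := mul_le_mul_of_nonneg_right h5 hM'

end Pool.Agent.TH841.PM.BADf
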