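import Mathlib
import Pool.Agent.TH841.PM.Stm
import Pool.Agent.TH841.PT.Mak3

/-!
# Project PM: the polynomials of the indices
-/

set_option autoImplicit false

namespace Pool.Agent.TH841.PM

open Finset Polynomial Pool.Agent.W262.RK Pool.Agent.TH841.PT

open Pool.Agent.H474R2.PG (rho)

section

variable {J : Type} [Fintype J] [DecidableEq J]

/-- the polynomial of the first symbol, for the class 3 -/
noncomputable def hp3 (cls : J → Fin 4) (a : Fin 3 → ℤ) (f : J → ℤ[X]) (j : J)
    (v : Bool × Bool) : ℤ[X] :=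
  (if v.1 && !v.2 then kpol cls a f j 0 else 1) *
    ((if !v.1 && v.2 then kpol cls a f j 0 * kpol cls a f j 1 else 1) *
      (if v.1 && v.2 then kpol cls a f j 1 else 1))

/-- the polynomial of the second symbol, for the class 3 -/
noncomputable def gp3 (cls : J → Fin 4) (a : Fin 3 → ℤ) (f : J → ℤ[X]) (j : J)
    (v : Bool × Bool) : ℤ[X] :=
  (if v.1 && !v.2 then kpol cls a f j 0 * kpol cls a f j 2 else 1) *
    ((if !v.1 && v.2 then kpol cls a f j 0 else 1) *
      (if v.1 && v.2 then kpol cls a f j 2 else 1))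

/-- the polynomial for one coordinate of the type -/
noncomputable def gb (cls : J → Fin 4) (a : Fin 3 → ℤ) (f : J → ℤ[X]) (j : J)
    (v x : Bool × Bool) : ℤ[X] :=
  (if mt (cls j) v x then -1 else 1) *
  (if cls j = 3 then (if x.1 then hp3 cls a f j v else 1) * (if x.2 then gp3 cls a f j v else 1)
    else if !(decide (v = (false, false))) && !(decide (x = (false, false)))
      then kpol cls a f j 0 else 1)

/-- the polynomial of the index -/
noncomputable def gpK (cls : J → Fin 4) (a : Fin 3 → ℤ) (f : J → ℤ[X]) {k : ℕ}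
    (i : IK4 cls k) : ℤ[X] := ∏ b, gb cls a f i.1.1 (i.1.2.1 b) (i.1.2.2 b)

lemma Jr_one_left' (n : ℕ) : Jr 1 n = 1 := by simp [Jr]

lemma ite_and_sign (c b : Bool) : (if (c && b) = true then (-1 : ℝ) else 1) =
    if c = true then (if b = true then -1 else 1) else 1 := by
  cases c <;> cases b <;> simp

lemma Jr_ite (c : Bool) (x : ℤ) (n : ℕ) : Jr (if c = true then x else 1) n =
    if c = true then Jr x n else 1 := by
  split_ifs
  · rfl
  · exact Jr_one_left' n

lemma eval_ite' (c : Bool) (g : ℤ[X]) (t : ℤ) : (if c = true then g else 1).eval t =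
    if c = true then g.eval t else 1 := by
  split_ifs
  · rfl
  · exact eval_one

lemma sign_gb {cls : J → Fin 4} {a : Fin 3 → ℤ} {f : J → ℤ[X]} {z c : ℕ} (h : Gp a f z c)
    {p : ℕ} (hp : p.Prime) (hz : z < p) {t : ℤ} {j : J} (hj : (p : ℤ) ∣ (f j).eval t)
    (v x : Bool × Bool) :
    Jr (if mt (cls j) v x then -1 else 1) p *
      (if bt (cls j) (ty cls a f p t j) v x = true then (-1 : ℝ) else 1) =
      Jr ((gb cls a f j v x).eval t) p := by
  have hs := fun k => sign_ty (cls := cls) h hp hz hj k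
  unfold gb
  rw [eval_mul, Jr_mul_left']
  congr 1
  · split_ifs
    · rw [eval_neg, eval_one]
    · rw [eval_one]
  · by_cases h3 : cls j = 3
    · unfold bt hp3 gp3
      rw [if_pos h3, if_pos h3]
      obtain ⟨v1, v2⟩ := v
      obtain ⟨x1, x2⟩ := x
      have hs' : ∀ k, Jr ((kpol cls a f j k).eval t) p =
          if ty cls a f p t j k = true then -1 else 1 := fun k => (hs k).symm
      cases v1 <;> cases v2 <;> cases x1 <;> cases x2 <;>
        simp only [Bool.not_true, Bool.not_false, Bool.and_true, Bool.and_false, Bool.true_and,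
          Bool.false_and, if_true, Bool.false_eq_true, if_false, Jr_mul_left', Jr_one_left',
          eval_mul, eval_one, mul_one, one_mul, Bool.xor_false, Bool.false_xor, hs'] <;>
        generalize ty cls a f p t j 0 = e0 <;> generalize ty cls a f p t j 1 = e1 <;>
        generalize ty cls a f p t j 2 = e2 <;>
        cases e0 <;> cases e1 <;> cases e2 <;> simp
    · unfold bt
      rw [if_neg h3, if_neg h3]
      by_cases h4 : (!(decide (v = (false, false))) && !(decide (x = (false, false)))) = true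
      · rw [if_pos h4, h4, Bool.true_and]
        exact hs 0
      · rw [if_neg h4, eval_one, Jr_one_left']
        rw [Bool.not_eq_true] at h4
        rw [h4]
        simp

/-- the sign of a parity -/
lemma par_sign {α : Type} (S : Finset α) (F : α → Bool) :
    (if decide ((S.filter (fun b => F b = true)).card % 2 = 1) = true then (-1 : ℝ) else 1) =
      ∏ b ∈ S, (if F b = true then (-1 : ℝ) else 1) := by
  rw [prod_ite, prod_const, prod_const_one, mul_one]
  by_cases h : (S.filter (fun b => F b = true)).card % 2 = 1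
  · rw [if_pos (by simpa using h), Odd.neg_one_pow (Nat.odd_iff.2 h)]
  · rw [if_neg (by simpa using h), Even.neg_one_pow (Nat.even_iff.2 (by omega))]

lemma Jr_prod_left {α : Type} (S : Finset α) (F : α → ℤ) (n : ℕ) :
    Jr (∏ b ∈ S, F b) n = ∏ b ∈ S, Jr (F b) n := by
  classical
  induction S using Finset.induction_on with
  | empty => simp [Jr_one_left']
  | insert b S hb ih => rw [prod_insert hb, prod_insert hb, Jr_mul_left', ih]

omit [Fintype J] [DecidableEq J] in
lemma κK4_eq (cls : J → Fin 4) {k : ℕ} (i : IK4 cls k) :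
    κK4 cls i = ∏ b, (if mt (cls i.1.1) (i.1.2.1 b) (i.1.2.2 b) = true then (-1 : ℤ) else 1) := by
  unfold κK4
  rw [prod_ite, prod_const, prod_const_one, mul_one]

lemma sign_gpK {cls : J → Fin 4} {a : Fin 3 → ℤ} {f : J → ℤ[X]} {z c : ℕ} (h : Gp a f z c)
    {p : ℕ} (hp : p.Prime) (hz : z < p) {t : ℤ} {k : ℕ} (i : IK4 cls k)
    (hj : (p : ℤ) ∣ (f i.1.1).eval t) :
    Jr (κK4 cls i) p * (if bK cls (fun _ => ty cls a f p t i.1.1) i = true then (-1 : ℝ) else 1) =
      Jr ((gpK cls a f i).eval t) p := by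
  unfold bK gpK
  rw [par_sign, κK4_eq, Jr_prod_left, eval_prod, Jr_prod_left, ← prod_mul_distrib]
  exact prod_congr rfl fun b _ => sign_gb h hp hz hj _ _

lemma ndvd_mul {q x y : ℚ[X]} (hq : Irreducible q) (hx : ¬ q ∣ x) (hy : ¬ q ∣ y) : ¬ q ∣ x * y :=
  fun h => (hq.prime.dvd_or_dvd h).elim hx hy

lemma ndvd_one {q : ℚ[X]} (hq : Irreducible q) : ¬ q ∣ 1 := fun h => hq.not_isUnit
  (isUnit_of_dvd_one h)

lemma ndvd_ite {q x : ℚ[X]} (hq : Irreducible q) (hx : ¬ q ∣ x) (c : Prop) [Decidable c] :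
    ¬ q ∣ (if c then x else 1) := by
  split_ifs
  · exact hx
  · exact ndvd_one hq

lemma ndvd_gb {f : J → ℤ[X]} (h : Irr f) {cls : J → Fin 4} {a : Fin 3 → ℤ} (ha : ∀ k, a k ≠ 0)
    (j : J) (v x : Bool × Bool) : ¬ mQ (f j) ∣ mQ (gb cls a f j v x) := by
  have hq := h.irrQ j
  have hk := fun k => h.ndvd_kpol (cls := cls) ha j k
  have hm : ∀ g g' : ℤ[X], mQ (g * g') = mQ g * mQ g' := fun g g' => by
    unfold mQ
    rw [Polynomial.map_mul]
  have hi : ∀ (c : Prop) [Decidable c] (g : ℤ[X]), mQ (if c then g else 1) =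
      if c then mQ g else 1 := by
    intro c _ g
    split_ifs
    · rfl
    · unfold mQ
      rw [Polynomial.map_one]
  unfold gb
  rw [hm]
  refine ndvd_mul hq ?_ ?_
  · rw [hi]
    refine ndvd_ite hq ?_ _
    unfold mQ
    rw [Polynomial.map_neg, Polynomial.map_one, dvd_neg]
    exact ndvd_one hq
  · by_cases h3 : cls j = 3
    · rw [if_pos h3, hm, hi, hi]
      refine ndvd_mul hq (ndvd_ite hq ?_ _) (ndvd_ite hq ?_ _)
      · unfold hp3
        rw [hm, hm, hi, hi, hi, hm]
        exact ndvd_mul hq (ndvd_ite hq (hk 0) _) (ndvd_mul hq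
          (ndvd_ite hq (ndvd_mul hq (hk 0) (hk 1)) _) (ndvd_ite hq (hk 1) _))
      · unfold gp3
        rw [hm, hm, hi, hi, hi, hm]
        exact ndvd_mul hq (ndvd_ite hq (ndvd_mul hq (hk 0) (hk 2)) _) (ndvd_mul hq
          (ndvd_ite hq (hk 0) _) (ndvd_ite hq (hk 2) _))
    · rw [if_neg h3, hi]
      exact ndvd_ite hq (hk 0) _

lemma ndvd_gpK {f : J → ℤ[X]} (h : Irr f) {cls : J → Fin 4} {a : Fin 3 → ℤ} (ha : ∀ k, a k ≠ 0)
    {k : ℕ} (i : IK4 cls k) : ¬ mQ (f i.1.1) ∣ mQ (gpK cls a f i) := by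
  unfold gpK mQ
  rw [Polynomial.map_prod]
  intro hd
  obtain ⟨b, _, hb⟩ := ((h.irrQ i.1.1).prime.dvd_finsetProd_iff _).1 hd
  exact ndvd_gb h ha i.1.1 _ _ hb

/-- the weights with signs -/
noncomputable def awK (cls : J → Fin 4) (a : Fin 3 → ℤ) (f : J → ℤ[X]) (z : ℕ) {k : ℕ}
    (i : IK4 cls k) (p : ℕ) : ℝ :=
  if p.Prime ∧ z < p then wK cls i * rhoc (f i.1.1) (gpK cls a f i) p else 0

/-- the weights -/
noncomputable def bwK (cls : J → Fin 4) (f : J → ℤ[X]) (z : ℕ) {k : ℕ} (i : IK4 cls k)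
    (p : ℕ) : ℝ :=
  if p.Prime ∧ z < p then wK cls i * rho (f i.1.1) p else 0

lemma wK_pos (cls : J → Fin 4) {k : ℕ} (i : IK4 cls k) : 0 < wK cls i := by
  unfold wK
  split_ifs <;> positivity

lemma wK_le (cls : J → Fin 4) {k : ℕ} (i : IK4 cls k) : wK cls i ≤ 1 / 2 ^ k := by
  unfold wK
  split_ifs
  · apply one_div_le_one_div_of_le (by positivity)
    exact pow_le_pow_left₀ (by norm_num) (by norm_num) k
  · exact le_rfl

lemma wK_le_one (cls : J → Fin 4) {k : ℕ} (i : IK4 cls k) : wK cls i ≤ 1 := by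
  refine (wK_le cls i).trans ?_
  rw [div_le_one (by positivity)]
  exact one_le_pow₀ (by norm_num)

lemma awK_abs (cls : J → Fin 4) (a : Fin 3 → ℤ) (f : J → ℤ[X]) (z : ℕ) {k : ℕ} (i : IK4 cls k)
    (p : ℕ) : |awK cls a f z i p| ≤ bwK cls f z i p := by
  unfold awK bwK
  split_ifs
  · rw [abs_mul, abs_of_pos (wK_pos cls i)]
    exact mul_le_mul_of_nonneg_left (rhoc_abs _ _ _) (wK_pos cls i).le
  · simp

lemma sum_typesK {cls : J → Fin 4} {a : Fin 3 → ℤ} {f : J → ℤ[X]} {z c : ℕ} (h : Gp a f z c)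
    {k : ℕ} (i : IK4 cls k) (p : ℕ) :
    Jr (κK4 cls i) p * ∑ θ : Ty, wK cls i * ((if bK cls (fun _ => θ) i then -1 else 1) *
      rT cls a f z (i.1.1, θ) p) = awK cls a f z i p := by
  unfold awK
  by_cases h1 : p.Prime ∧ z < p
  · rw [if_pos h1]
    unfold rT rhoc
    simp only [if_pos h1]
    rw [← mul_sum, mul_left_comm]
    congr 1
    have h2 : ∀ θ : Ty, (if bK cls (fun _ => θ) i = true then (-1 : ℝ) else 1) *
        (((range p).filter (fun x : ℕ => (p : ℤ) ∣ (f i.1.1).eval (x : ℤ) ∧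
          ty cls a f p x i.1.1 = θ)).card : ℝ) =
        ∑ x ∈ ((range p).filter (fun x : ℕ => (p : ℤ) ∣ (f i.1.1).eval (x : ℤ))).filter
          (fun x : ℕ => ty cls a f p x i.1.1 = θ),
          (if bK cls (fun _ => ty cls a f p x i.1.1) i = true then (-1 : ℝ) else 1) := by
      intro θ
      rw [filter_filter]
      rw [sum_congr rfl (g := fun _ => (if bK cls (fun _ => θ) i = true then (-1 : ℝ) else 1))
        (fun x hx => by rw [(mem_filter.1 hx).2.2])]
      rw [sum_const, nsmul_eq_mul, mul_comm]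
    simp only [h2]
    rw [sum_fiberwise, mul_sum]
    refine sum_congr rfl fun x hx => ?_
    exact sign_gpK h h1.1 h1.2 i (mem_filter.1 hx).2
  · rw [if_neg h1]
    unfold rT
    simp [if_neg h1]

end

end Pool.Agent.TH841.PM
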