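import Mathlib
import Pool.Agent.TH841.PM.Bas
import Pool.Agent.TH344.JG.Maf

/-!
# Project PM: the expansion with the types of the roots
-/

set_option autoImplicit false

namespace Pool.Agent.TH841.PM

open Finset Polynomial Pool.Agent.W262.RK Pool.Agent.TH841.PT

open Pool.Agent.TH344.DT (nn om)

/-- absorbing the constants, for one tuple -/
lemma Sym_const' {ι : Type} [Fintype ι] [DecidableEq ι] (L : ι → ι → Bool) (κ : ι → ℤ)
    (a : ι → ℕ → ℝ) (c : ℕ) {z y : ℕ} {d : ι → ℕ} (hd : d ∈ Tup ι z y) :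
    (∏ i, gp (a i) c (d i)) * Sym L κ d =
      (∏ i, gp (fun p => Jr (κ i) p * a i p) c (d i)) * Sym L (fun _ => 1) d := by
  have h1 : ∀ i, gp (fun p => Jr (κ i) p * a i p) c (d i) = gp (a i) c (d i) * Jr (κ i) (d i) := by
    intro i
    have h2 : Squarefree (d i) := (Pool.Agent.W262.RK.PP_squarefree z y).squarefree_of_dvd
      ((Pool.Agent.W405.RK2.mem_Tup.1 hd).1 i)
    unfold gp
    conv_rhs => rw [← Nat.prod_primeFactors_of_squarefree h2]
    rw [Jr_prod_right _ _ _ fun p hp => (Nat.prime_of_mem_primeFactors hp).ne_zero,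
      Nat.prod_primeFactors_of_squarefree h2, ← prod_mul_distrib]
    refine prod_congr rfl fun p _ => ?_
    ring
  simp only [h1]
  unfold Pool.Agent.W262.RK.Sym
  rw [prod_mul_distrib]
  have h3 : ∏ i, Jr ((fun _ : ι => (1 : ℤ)) i) (d i) = 1 := by
    refine prod_eq_one fun i _ => ?_
    simp [Jr]
  rw [h3]
  ring

section

variable {J : Type} [Fintype J] [DecidableEq J]

/-- the index set of the expansion -/
def eK (cls : J → Fin 4) (k : ℕ) : IK4 (clsI cls) k ≃ IK4 cls k × Ty where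
  toFun i := (⟨(i.1.1.1, i.1.2), i.2⟩, i.1.1.2)
  invFun x := ⟨((x.1.1.1, x.2), x.1.1.2), x.1.2⟩
  left_inv _ := rfl
  right_inv _ := rfl

lemma om_prod {ι : Type} [Fintype ι] [DecidableEq ι] {z y : ℕ} {d : ι → ℕ} (hd : d ∈ Tup ι z y)
    (S : Finset ι) : (∏ i ∈ S, d i).primeFactors.card = ∑ i ∈ S, om d i := by
  unfold Tup at hd
  rw [mem_filter, Fintype.mem_piFinset] at hd
  unfold om
  exact Pool.Agent.TH344.JG.Maf.card_pf_prod S d (fun i _ => dv_ne_zero (hd.1 i))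
    (fun i _ j _ h => hd.2 i j h)

lemma Tup_merge {ι Θ : Type} [Fintype ι] [DecidableEq ι] [Fintype Θ] [DecidableEq Θ] {z y : ℕ}
    {d : ι × Θ → ℕ} (hd : d ∈ Tup (ι × Θ) z y) (i : ι) :
    om (fun i => ∏ θ, d (i, θ)) i = ∑ θ, om d (i, θ) := by
  have h1 := om_prod hd (univ.image (fun θ : Θ => (i, θ)))
  rw [prod_image (fun θ _ θ' _ h => (Prod.ext_iff.1 h).2),
    sum_image (fun θ _ θ' _ h => (Prod.ext_iff.1 h).2)] at h1
  exact h1

/-- the weights of the merged variables -/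
lemma wt_merge (cls : J → Fin 4) (k : ℕ) {z y : ℕ} {d : IK4 cls k × Ty → ℕ}
    (hd : d ∈ Tup (IK4 cls k × Ty) z y)
    (hd' : (fun i => d (eK cls k i)) ∈ Tup (IK4 (clsI cls) k) z y) :
    (fun j : J => ∑ θ : Ty, (∏ i ∈ univ.filter (fun i : IK4 (clsI cls) k => i.1.1 = (j, θ)),
      d (eK cls k i)).primeFactors.card) =
      nn (fun i : IK4 cls k => i.1.1) (om (fun i => ∏ θ, d (i, θ))) := by
  funext j
  unfold nn
  rw [sum_congr rfl fun i _ => Tup_merge hd i, sum_comm]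
  refine sum_congr rfl fun θ _ => ?_
  rw [om_prod hd']
  refine sum_bij' (fun i _ => (eK cls k i).1) (fun i _ => (eK cls k).symm (i, θ)) ?_ ?_ ?_ ?_ ?_
  · intro i hi
    have h1 := (mem_filter.1 hi).2
    refine mem_filter.2 ⟨mem_univ _, ?_⟩
    exact congrArg Prod.fst h1
  · intro i hi
    have h1 := (mem_filter.1 hi).2
    refine mem_filter.2 ⟨mem_univ _, ?_⟩
    exact Prod.ext h1 rfl
  · intro i hi
    have h1 := congrArg Prod.snd (mem_filter.1 hi).2
    rw [Equiv.symm_apply_eq]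
    exact Prod.ext rfl h1.symm
  · intro i _
    rw [Equiv.apply_symm_apply]
  · intro i hi
    have h1 : (eK cls k i).2 = θ := congrArg Prod.snd (mem_filter.1 hi).2
    show om (fun i => d (eK cls k i)) i = om d ((eK cls k i).1, θ)
    rw [← h1]
    rfl

/-- **the expansion**, with merged variables -/
theorem exptK (hexp : EXPK) (hm : MERGE) (cls : J → Fin 4) (g : J × Ty → ℕ → ℝ) (k c z y : ℕ)
    (hz : 2 ≤ z) (W : (J → ℕ) → ℝ) :
    ∑ s ∈ Tup (J × Ty) z y, NBK k (clsI cls) eI s * (∏ i, gp (g i) c (s i)) *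
      W (fun j => ∑ θ : Ty, (s (j, θ)).primeFactors.card) =
      ∑ d ∈ Tup (IK4 cls k) z y, (∏ i : IK4 cls k, gp (fun p => Jr (κK4 cls i) p *
        ∑ θ : Ty, wK cls i * ((if bK cls (fun _ => θ) i then -1 else 1) *
          g (i.1.1, θ) p)) c (d i)) * Sym (LK4 cls) (fun _ => 1) d *
          W (nn (fun i : IK4 cls k => i.1.1) (om d)) := by
  rw [hexp (J × Ty) (clsI cls) eI g k c z y hz
    (fun s => W (fun j => ∑ θ : Ty, (s (j, θ)).primeFactors.card)), sum_Tup_equiv (eK cls k)]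
  have h1 : ∀ d ∈ Tup (IK4 cls k) z y, (∏ i : IK4 cls k, gp (fun p => Jr (κK4 cls i) p *
        ∑ θ : Ty, wK cls i * ((if bK cls (fun _ => θ) i then -1 else 1) *
          g (i.1.1, θ) p)) c (d i)) * Sym (LK4 cls) (fun _ => 1) d *
          W (nn (fun i : IK4 cls k => i.1.1) (om d)) =
      (∏ i : IK4 cls k, gp (fun p => ∑ θ : Ty, wK cls i *
        ((if bK cls (fun _ => θ) i then -1 else 1) * g (i.1.1, θ) p)) c (d i)) *
          (Sym (LK4 cls) (κK4 cls) d * W (nn (fun i : IK4 cls k => i.1.1) (om d))) := by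
    intro d hd
    rw [← Sym_const' (LK4 cls) (κK4 cls) (fun i p => ∑ θ : Ty, wK cls i *
      ((if bK cls (fun _ => θ) i then -1 else 1) * g (i.1.1, θ) p)) c hd, mul_assoc]
  rw [sum_congr rfl h1]
  rw [← hm (IK4 cls k) Ty (fun x p => wK cls x.1 *
    ((if bK cls (fun _ => x.2) x.1 then -1 else 1) * g (x.1.1.1, x.2) p)) c z y
    (fun d => Sym (LK4 cls) (κK4 cls) d * W (nn (fun i : IK4 cls k => i.1.1) (om d)))]
  refine sum_congr rfl fun d hd => ?_
  have hd' : (fun i => d (eK cls k i)) ∈ Tup (IK4 (clsI cls) k) z y := by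
    unfold Tup at hd ⊢
    rw [mem_filter, Fintype.mem_piFinset] at hd ⊢
    exact ⟨fun i => hd.1 _, fun i j hij => hd.2 _ _ fun h => hij ((eK cls k).injective h)⟩
  rw [← Sym_merge (LK4 cls) (κK4 cls) d fun x => Tup_ne hd x,
    ← Sym_equiv (eK cls k) (fun x y : IK4 cls k × Ty => LK4 cls x.1 y.1) (fun x => κK4 cls x.1) d,
    ← wt_merge cls k hd hd', mul_assoc]
  congr 1
  rw [← (eK cls k).prod_comp]
  rfl

end

end Pool.Agent.TH841.PM
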