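import Mathlib
import Pool.Agent.TH841.PM.Expt
import Pool.Agent.TH841.TR.MakX

/-!
# Project PM: the main average
-/

set_option autoImplicit false

namespace Pool.Agent.TH841.PM

open Finset Polynomial Pool.Agent.W262.RK Pool.Agent.TH841.PT

open Pool.Agent.TH344.DT (nn om Alt)

open Pool.Agent.H474R2.PG (rho)

section

variable {J : Type} [Fintype J] [DecidableEq J]

omit [Fintype J] [DecidableEq J] in
lemma LK4_self (cls : J → Fin 4) {k : ℕ} (i : IK4 cls k) : LK4 cls i i = false := by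
  have h := i.2
  unfold LK4
  unfold AlK at h
  split_ifs at h with h3
  · simpa using h
  · have h4 := of_decide_eq_true h
    unfold dk
    rw [decide_eq_false_iff_not]
    have h5 : (univ.filter (fun b => xor ((i.1.2.2 b).1 && (i.1.2.1 b).1)
        ((i.1.2.2 b).2 && (i.1.2.1 b).2) = true)) = ∅ := by
      rw [filter_eq_empty_iff]
      intro b _
      have h6 := h4 b
      revert h6
      unfold Al ec
      generalize i.1.2.1 b = v
      generalize i.1.2.2 b = x
      revert h3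
      generalize cls i.1.1 = q
      revert q v x
      decide
    rw [h5]
    simp

/-- **the main average for the `k`-th power of the local count** -/
theorem makk (hats : ATWX) (hmer : MERGE) (hexp : EXPK) (htw : TWG) (hgd : GDP)
    (cls : J → Fin 4) (a : Fin 3 → ℤ) (f : J → ℤ[X]) (ha : ∀ k, a k ≠ 0)
    (hf : Irr f) (k : ℕ) (T : Finset (J → ℝ)) (hT : ∀ t ∈ T, ∀ j, 0 < t j)
    (hU : ∀ U : Finset (IK4 cls k), (∀ i ∈ U, ∀ j ∈ U, LK4 cls i j = LK4 cls j i) →
      Alt (fun i : IK4 cls k => i.1.1) (wK cls) (LK4 cls) (Fintype.card J) T U)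
    (c : ℕ) (hc : (∏ j, f j).natDegree + 1 ≤ c) (hck : 2 * c ≤ 2 ^ k) :
    ∃ z0 : ℕ, ∀ z, z0 ≤ z → Gp a f z c ∧ ∃ C : ℝ, ∀ y, z < y →
      ∑ s ∈ Tup (J × Ty) z y, NBK k (clsI cls) eI s *
        (∏ i, gp (rT cls a f z i) c (s i)) *
        wt T (fun j => ∑ θ : Ty, (s (j, θ)).primeFactors.card) ≤
        C * Real.exp (Sp (fun p => rho (∏ j, f j) p) z y) := by
  obtain ⟨zg, hzg⟩ := exists_Gp hgd hf ha c hc
  choose E0 zt hE0 hzt using fun i : IK4 cls k =>
    htw (f i.1.1) (hf.irr _) (hf.deg _) (gpK cls a f i) (ndvd_gpK hf ha i)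
  obtain ⟨za, hza⟩ := hats J (IK4 cls k) (fun i => i.1.1) (wK cls) (LK4 cls) c (Fintype.card J) T
    (wK_pos cls) (LK4_self cls) (Nat.cast_nonneg _) hT hU
  refine ⟨zg + univ.sup zt + za, fun z hz => ⟨hzg z (by omega), ?_⟩⟩
  have hG := hzg z (by omega)
  have hzt' : ∀ i, zt i ≤ z := fun i => (le_sup (f := zt) (mem_univ i)).trans (by omega)
  choose Ct hCt using fun i : IK4 cls k => hzt i z (hzt' i)
  have hz4 := hG.four
  choose Cm hCm0 hCm using fun j : J => mert (hf.irr j) (hf.deg j) (z := z) (by omega)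
  set Cs : ℝ := ∑ j, Cm j with hCs
  have hCs' : ∀ j, Cm j ≤ Cs := fun j => single_le_sum (f := Cm) (fun j _ => hCm0 j) (mem_univ j)
  have hCs0 : 0 ≤ Cs := sum_nonneg fun j _ => hCm0 j
  have hEs : ∀ i, E0 i ≤ ∑ i, E0 i := fun i =>
    single_le_sum (f := E0) (fun j _ => hE0 j) (mem_univ i)
  have hCts : ∀ i, |Ct i| ≤ ∑ i, |Ct i| := fun i =>
    single_le_sum (f := fun i => |Ct i|) (fun j _ => abs_nonneg _) (mem_univ i)
  have hE0s : 0 ≤ ∑ i, E0 i := sum_nonneg fun i _ => hE0 i
  have hC0s : 0 ≤ ∑ i, |Ct i| := sum_nonneg fun i _ => abs_nonneg _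
  set K0 : ℝ := ∑ i, |Ct i| + Cs with hK0
  have hK00 : 0 ≤ K0 := by positivity
  have hSb : ∀ (i : IK4 cls k) y, Sp (bwK cls f z i) z y =
      wK cls i * Sp (fun p => rho (f i.1.1) p) z y := by
    intro i y
    unfold Sp
    rw [mul_sum]
    refine sum_congr rfl fun p hp => ?_
    have hp' := mem_filter.1 hp
    unfold bwK
    rw [if_pos ⟨hp'.2, (mem_Ioc.1 hp'.1).1⟩]
    ring
  have hSl : ∀ j y, z < y → Sp (fun p => rho (f j) p) z y ≤ Real.log (Real.log y) + Cs ∧
      Real.log (Real.log y) - Cs ≤ Sp (fun p => rho (f j) p) z y := by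
    intro j y hy
    have h1 := abs_le.1 (hCm j y hy)
    have h2 := hCs' j
    constructor <;> linarith [h1.1, h1.2]
  have hSn : ∀ (i : IK4 cls k) y, 0 ≤ Sp (bwK cls f z i) z y := by
    intro i y
    unfold Sp
    refine sum_nonneg fun p _ => div_nonneg ?_ (Nat.cast_nonneg _)
    exact (abs_nonneg _).trans (awK_abs cls a f z i p)
  obtain ⟨C, hC⟩ := hza z (by omega) (awK cls a f z) (bwK cls f z) K0 (∑ i, E0 i)
    (by
      intro i p
      refine ⟨awK_abs _ _ _ _ _ _, ?_⟩
      unfold bwK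
      split_ifs with h1
      · have h2 : (rho (f i.1.1) p : ℝ) ≤ c := by
          exact_mod_cast rho_le_prod hG h1.1 h1.2 i.1.1
        have h3 := wK_le cls i
        have h4 := (wK_pos cls i).le
        have h5 : (0 : ℝ) ≤ rho (f i.1.1) p := Nat.cast_nonneg _
        have h6 : (2 : ℝ) * c ≤ 2 ^ k := by exact_mod_cast hck
        have h7 : (0 : ℝ) < 2 ^ k := by positivity
        calc wK cls i * rho (f i.1.1) p ≤ 1 / 2 ^ k * c := mul_le_mul h3 h2 h5 (by positivity)
          _ ≤ 1 / 2 := by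
            rw [div_mul_eq_mul_div, one_mul, div_le_div_iff₀ h7 (by norm_num)]
            linarith
      · norm_num)
    hE0s
    (by
      intro i y hy
      rw [hSb, ← mul_sub, abs_mul, abs_of_pos (wK_pos cls i)]
      have h1 : |Sp (fun p => (rho (f i.1.1) p : ℝ)) z y - Real.log (Real.log y)| ≤ K0 := by
        rw [abs_le, hK0]
        obtain ⟨h1, h2⟩ := hSl i.1.1 y hy
        constructor <;> linarith
      calc wK cls i * _ ≤ 1 * K0 := mul_le_mul (wK_le_one cls i) h1 (abs_nonneg _) zero_le_one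
        _ = K0 := one_mul _)
    (by
      intro i y r e hy hr hsq hpr
      have h1 := hCt i y r e hy hr hsq hpr
      have hlr := loglog_nonneg (by omega : 2 ≤ z) hr hpr
      have h2 : ∑ p ∈ PS z y, awK cls a f z i p * (Jr p r * x4 e p) / (p : ℝ) =
          wK cls i * ∑ p ∈ PS z y, rhoc (f i.1.1) (gpK cls a f i) p *
            (Jr p r * x4 e p) / (p : ℝ) := by
        rw [mul_sum]
        refine sum_congr rfl fun p hp => ?_
        have hp' := mem_filter.1 hp
        unfold awK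
        rw [if_pos ⟨hp'.2, (mem_Ioc.1 hp'.1).1⟩]
        ring
      rw [h2]
      have h3 : ∑ p ∈ PS z y, rhoc (f i.1.1) (gpK cls a f i) p * (Jr p r * x4 e p) / (p : ℝ) ≤
          (∑ i, E0 i) * Real.log (Real.log r) + ∑ i, |Ct i| := by
        have := mul_le_mul_of_nonneg_right (hEs i) hlr
        linarith [hCts i, le_abs_self (Ct i)]
      have h5 : 0 ≤ (∑ i, E0 i) * Real.log (Real.log r) + ∑ i, |Ct i| := by positivity
      have h6 : wK cls i * ∑ p ∈ PS z y, rhoc (f i.1.1) (gpK cls a f i) p *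
            (Jr p r * x4 e p) / (p : ℝ) ≤ (∑ i, E0 i) * Real.log (Real.log r) + ∑ i, |Ct i| := by
        have h7 := mul_le_mul_of_nonneg_left h3 (wK_pos cls i).le
        have h8 := mul_le_mul_of_nonneg_right (wK_le_one cls i) h5
        linarith
      have h9 := hSn i y
      rw [hK0]
      linarith)
  refine ⟨|C| * Real.exp (Fintype.card J * Cs), fun y hy => ?_⟩
  have h1 := exptK hexp hmer cls (rT cls a f z) k c z y (by omega) (wt T)
  simp only [sum_typesK hG] at h1
  rw [h1]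
  have h2 := hC y hy
  have h3 : ∑ j, Sp (fun p => (rho (f j) p : ℝ)) z y = Sp (fun p => rho (∏ j, f j) p) z y := by
    unfold Sp
    rw [sum_comm]
    refine sum_congr rfl fun p hp => ?_
    have hp' := mem_filter.1 hp
    beta_reduce
    rw [rho_prod hG hp'.2 (mem_Ioc.1 hp'.1).1, ← sum_div]
    push_cast
    rfl
  have hly : 0 < Real.log y := Real.log_pos (by exact_mod_cast (by omega : 1 < y))
  have h4 : (Real.log y) ^ ((Fintype.card J : ℕ) : ℝ) ≤
      Real.exp (Fintype.card J * Cs) * Real.exp (Sp (fun p => rho (∏ j, f j) p) z y) := by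
    rw [← h3, Real.rpow_def_of_pos hly, ← Real.exp_add]
    apply Real.exp_le_exp.2
    have h5 : ∑ j : J, (Real.log (Real.log y) - Cs) ≤ ∑ j, Sp (fun p => (rho (f j) p : ℝ)) z y :=
      sum_le_sum fun j _ => (hSl j y hy).2
    rw [sum_const, nsmul_eq_mul, card_univ] at h5
    linarith
  calc _ ≤ _ := le_abs_self _
    _ ≤ _ := h2
    _ ≤ |C| * (Real.log y) ^ ((Fintype.card J : ℕ) : ℝ) :=
        mul_le_mul_of_nonneg_right (le_abs_self C) (Real.rpow_nonneg hly.le _)
    _ ≤ |C| * (Real.exp (Fintype.card J * Cs) * Real.exp (Sp (fun p => rho (∏ j, f j) p) z y)) :=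
        mul_le_mul_of_nonneg_left h4 (abs_nonneg _)
    _ = _ := by ring

end

end Pool.Agent.TH841.PM
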