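import Mathlib
import Pool.Agent.TH841.PM.Mak
import Pool.Agent.TH841.PT.Avg3
import Pool.Agent.TH344.JG.Avg

/-!
# Project PM: the weighted moments over short intervals (adapted from PT/Avg3 and TR/AvgX)
-/

set_option autoImplicit false

namespace Pool.Agent.TH841.PM

open Finset Polynomial Pool.Agent.W262.RK Pool.Agent.W307.RT Pool.Agent.W307.RS
open Pool.Agent.W307.SE Pool.Agent.TH841.PT

open Pool.Agent.TH344.DT (nn om Alt)

open Pool.Agent.TH344.JG.AvgJ (rjn rj1 DDJ one_le_DDJ rj_lip' pf_S1J pf_S2J card_largeJ)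

open Pool.Agent.H474R2.PG (rho)

section

variable {J : Type} [Fintype J] [DecidableEq J]

/-- the bound for the main term -/
def MKK (k : ℕ) (T : Finset (J → ℝ)) (cls : J → Fin 4) (a : Fin 3 → ℤ) (f : J → ℤ[X]) : Prop :=
  ∃ z0 : ℕ, ∀ z, z0 ≤ z → Gp a f z ((∏ j, f j).natDegree + 1) ∧ ∃ C : ℝ, ∀ y, z < y →
      ∑ s ∈ Tup (J × Ty) z y, NBK k (clsI cls) eI s *
        (∏ i, gp (rT cls a f z i) ((∏ j, f j).natDegree + 1) (s i)) *
        wt T (fun j => ∑ θ : Ty, (s (j, θ)).primeFactors.card) ≤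
        C * Real.exp (Sp (fun p => rho (∏ j, f j) p) z y)

lemma NBK_nonneg {J' : Type} [Fintype J'] [DecidableEq J'] (k : ℕ) (cls : J' → Fin 4)
    (e : J' → Fin 3 → Bool) (s : J' → ℕ) : 0 ≤ NBK k cls e s := by
  unfold NBK
  exact mul_nonneg (by positivity) (sum_nonneg fun _ _ => pow_nonneg (Nat.cast_nonneg _) _)

lemma card_pf_le {α : Type} [Fintype α] (F : α → ℕ) (S : Finset α := univ) :
    (∏ θ ∈ S, F θ).primeFactors.card ≤ ∑ θ ∈ S, (F θ).primeFactors.card := by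
  classical
  induction S using Finset.induction_on with
  | empty => simp
  | insert b S hb ih =>
    rw [prod_insert hb, sum_insert hb]
    by_cases h1 : F b = 0
    · simp [h1]
    by_cases h2 : ∏ θ ∈ S, F θ = 0
    · simp [h2]
    rw [Nat.primeFactors_mul h1 h2]
    exact (card_union_le _ _).trans (Nat.add_le_add_left ih _)

/-- growth -/
lemma growK {T : Finset (J → ℝ)} (hT : ∀ t ∈ T, ∀ j, 0 < t j) (hsub : SUBK) {cls : J → Fin 4}
    {k z y : ℕ} (hz : 2 ≤ z) (s e : J × Ty → ℕ) (hse : (fun i => s i * e i) ∈ Tup (J × Ty) z y) :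
    NBK k (clsI cls) eI (fun i => s i * e i) *
        wt T (fun j => ∑ θ : Ty, (s (j, θ) * e (j, θ)).primeFactors.card) ≤
      (4 ^ k * DDJ T) ^ (∑ i, (e i).primeFactors.card) *
        (NBK k (clsI cls) eI s * wt T (fun j => ∑ θ : Ty, (s (j, θ)).primeFactors.card)) := by
  have h1 := hsub (J × Ty) (clsI cls) eI k z y hz s e hse
  have hne : ∀ i, s i * e i ≠ 0 := by
    intro i
    have h2 := (Fintype.mem_piFinset.1 (mem_filter.1 hse).1) i
    exact Nat.pos_of_mem_divisors h2 |>.ne'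
  have h2 : wt T (fun j => ∑ θ : Ty, (s (j, θ) * e (j, θ)).primeFactors.card) ≤
      DDJ T ^ (∑ i, (e i).primeFactors.card) *
        wt T (fun j => ∑ θ : Ty, (s (j, θ)).primeFactors.card) := by
    refine rj_lip' hT _ _ (fun j => sum_le_sum fun θ _ => ?_) _ ?_
    · exact card_le_card (Nat.primeFactors_mono (Dvd.intro _ rfl) (hne _))
    · rw [Fintype.sum_prod_type]
      refine sum_le_sum fun j _ => ?_
      rw [Nat.sub_le_iff_le_add, ← sum_add_distrib]
      refine sum_le_sum fun θ _ => ?_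
      have h3 : (s (j, θ) * e (j, θ)).primeFactors =
          (s (j, θ)).primeFactors ∪ (e (j, θ)).primeFactors :=
        Nat.primeFactors_mul (left_ne_zero_of_mul (hne _)) (right_ne_zero_of_mul (hne _))
      rw [h3]
      have := card_union_le (s (j, θ)).primeFactors (e (j, θ)).primeFactors
      omega
  have hD0 : 0 ≤ DDJ T := zero_le_one.trans (one_le_DDJ hT)
  calc _ ≤ ((4 ^ k) ^ (∑ i, (e i).primeFactors.card) * NBK k (clsI cls) eI s) *
        (DDJ T ^ (∑ i, (e i).primeFactors.card) *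
          wt T (fun j => ∑ θ : Ty, (s (j, θ)).primeFactors.card)) :=
        mul_le_mul h1 h2 (rjn hT _) (mul_nonneg (by positivity) (NBK_nonneg _ _ _ _))
    _ = _ := by
        rw [mul_pow]
        ring

/-- the weight of the values and the weight of the small parts -/
lemma wt_bound {T : Finset (J → ℝ)} (hT : ∀ t ∈ T, ∀ j, 0 < t j) {cls : J → Fin 4}
    {a : Fin 3 → ℤ} {f : J → ℤ[X]} {z y X k B : ℕ} {s v : J × Ty → ℕ} {t : ℤ}
    (hs : s ∈ Tup (J × Ty) z y) (h0 : ∀ j, (f j).eval t ≠ 0)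
    (hts : S1 z y (prt cls a f z t) = s) (htv : S2 z y (prt cls a f z t) = v)
    (hB : ∀ j, ((f j).eval t).natAbs ≤ X ^ B) (hk : X < (y + 1) ^ k) :
    wt T (fun j => ((f j).eval t).natAbs.primeFactors.card) ≤
      (DDJ T ^ (Fintype.card J * (z + 1)) * (DDJ T ^ (Fintype.card J * B)) ^ k *
        DDJ T ^ (∑ i, (v i).primeFactors.card)) *
        wt T (fun j => ∑ θ : Ty, (s (j, θ)).primeFactors.card) := by
  rw [← pow_mul, ← pow_add, ← pow_add]
  have h1 : ∀ j, ∑ θ : Ty, (s (j, θ)).primeFactors.card =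
      (S1 z y (fun l => (f l).eval t) j).primeFactors.card := by
    intro j
    rw [← S1_prod (cls := cls) (a := a) h0 y j, hts]
    exact (Tup_merge hs j).symm
  have h2 : ∀ j, (S2 z y (fun l => (f l).eval t) j).primeFactors.card ≤
      ∑ θ : Ty, (v (j, θ)).primeFactors.card := by
    intro j
    rw [← S2_prod (cls := cls) (a := a) h0 y j, htv]
    exact card_pf_le _ _
  simp only [h1]
  refine rj_lip' hT _ _ (fun j => ?_) _ ?_
  · refine card_le_card fun p hp => ?_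
    rw [pf_S1J, mem_filter] at hp
    rw [Nat.mem_primeFactors]
    exact ⟨(mem_filter.1 hp.1).2, Int.natCast_dvd.1 hp.2.1, Int.natAbs_ne_zero.2 (h0 j)⟩
  · have h3 : ∀ j ∈ (univ : Finset J), ((f j).eval t).natAbs.primeFactors.card -
        (S1 z y (fun l => (f l).eval t) j).primeFactors.card ≤
        (z + 1) + k * B + ∑ θ : Ty, (v (j, θ)).primeFactors.card := by
      intro j _
      have h4 : ((f j).eval t).natAbs.primeFactors ⊆ (range (z + 1) ∪
          (((f j).eval t).natAbs.primeFactors.filter (fun p => y < p))) ∪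
          ((S1 z y (fun l => (f l).eval t) j).primeFactors ∪
            (S2 z y (fun l => (f l).eval t) j).primeFactors) := by
        intro p hp
        have hp' := Nat.mem_primeFactors.1 hp
        simp only [mem_union, mem_range, mem_filter, pf_S1J, pf_S2J]
        by_cases h5 : p ≤ z
        · exact Or.inl (Or.inl (by omega))
        by_cases h6 : y < p
        · exact Or.inl (Or.inr ⟨hp, h6⟩)
        right
        have h7 : p ∈ PS z y := mem_PS'.2 ⟨⟨by omega, by omega⟩, hp'.1⟩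
        by_cases h8 : (p : ℤ) ^ 2 ∣ (f j).eval t
        · exact Or.inr ⟨h7, h8⟩
        · exact Or.inl ⟨h7, Int.natCast_dvd.2 hp'.2.1, h8⟩
      have h5 := card_le_card h4
      have h6 := card_union_le (range (z + 1) ∪
          (((f j).eval t).natAbs.primeFactors.filter (fun p => y < p)))
          ((S1 z y (fun l => (f l).eval t) j).primeFactors ∪
            (S2 z y (fun l => (f l).eval t) j).primeFactors)
      have h7 := card_union_le (range (z + 1))
          (((f j).eval t).natAbs.primeFactors.filter (fun p => y < p))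
      have h8 := card_union_le (S1 z y (fun l => (f l).eval t) j).primeFactors
            (S2 z y (fun l => (f l).eval t) j).primeFactors
      have h9 := card_largeJ y X k B _ (Int.natAbs_ne_zero.2 (h0 j)) (hB j) hk
      have h10 := h2 j
      rw [card_range] at h7
      omega
    refine (sum_le_sum h3).trans (le_of_eq ?_)
    rw [sum_add_distrib, sum_const, card_univ, smul_eq_mul, Fintype.sum_prod_type]
    ring

/-- **the weighted moments of the orders of the 2-Selmer groups in a one-parameter family** -/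
theorem avgK (hcnt : CNTH) (hsel : SELX) (hant : ANTX) (hrs : RSP) (hrv : RVP) (hru : RUP)
    (hsub : SUBK)
    (cls : J → Fin 4) (a : Fin 3 → ℤ) (f : J → ℤ[X]) (B : ℕ) (ha : ∀ k, a k ≠ 0)
    (k0 : ℕ) (T : Finset (J → ℝ)) (hT : ∀ t ∈ T, ∀ j, 0 < t j) (hmk : MKK k0 T cls a f)
    (hrel : C (a 0) * ∏ l ∈ fs cls 0, f l - C (a 1) * ∏ l ∈ fs cls 1, f l =
      C (a 2) * ∏ l ∈ fs cls 2, f l) :
    ∃ C2 : ℝ, ∀ (N : ℤ) (X : ℕ), 1 ≤ X → N.natAbs ≤ X ^ B →
      ∑ t ∈ (Icc 1 X).filter (fun t : ℕ => ∀ j, (f j).eval (N + (t : ℤ)) ≠ 0),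
        SN (Fval cls a (fun l => (f l).eval (N + (t : ℤ))) 0)
          (Fval cls a (fun l => (f l).eval (N + (t : ℤ))) 1) ^ k0 *
          wt T (fun j => ((f j).eval (N + (t : ℤ))).natAbs.primeFactors.card) ≤ C2 * X := by
  classical
  obtain ⟨z0, hz0⟩ := hmk
  set c := (∏ j, f j).natDegree + 1 with hc
  obtain ⟨hG, C', hC'⟩ := hz0 z0 le_rfl
  set z := z0 with hz
  have hz4 := hG.four
  have hz2 := hG.two
  have hc1 := hG.one
  obtain ⟨Cc, K, y0, hC0, hK1, hcn⟩ := cnt3 hcnt cls hG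
  obtain ⟨Kd, m, hKd⟩ := eval_le_all f
  have hrel' : ∀ t : ℤ, Fval cls a (fun l => (f l).eval t) 0 - Fval cls a (fun l => (f l).eval t) 1 =
      Fval cls a (fun l => (f l).eval t) 2 := by
    intro t
    have := congrArg (Polynomial.eval t) hrel
    rw [eval_sub, eval_mul, eval_mul, eval_mul, eval_C, eval_C, eval_C, eval_prod, eval_prod,
      eval_prod] at this
    exact this
  set B' : ℕ := (B + 2) * m + 1 with hB'
  set y1 : ℕ := y0 + Kd + 3 with hy1
  -- the summand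
  let r : ℤ → ℝ := fun w => SN (Fval cls a (fun l => (f l).eval w) 0)
    (Fval cls a (fun l => (f l).eval w) 1) ^ k0 *
    wt T (fun j => ((f j).eval w).natAbs.primeFactors.card)
  have hr0 : ∀ w, 0 ≤ r w := fun w => mul_nonneg (pow_nonneg (SN_nonneg _ _) _) (rjn hT _)
  have hD1 := one_le_DDJ hT
  set Dd := DDJ T with hDd
  suffices key : ∃ C2 : ℝ, ∀ θ : {θ : ℤ × ℕ // 1 ≤ θ.2 ∧ θ.1.natAbs ≤ θ.2 ^ B},
      ∑ t ∈ (Icc 1 θ.1.2).filter (fun t : ℕ => ∀ j, (f j).eval (θ.1.1 + (t : ℤ)) ≠ 0),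
        r (θ.1.1 + (t : ℤ)) ≤ C2 * (θ.1.2 : ℝ) by
    obtain ⟨C2, hC2⟩ := key
    exact ⟨C2, fun N X hX hN => hC2 ⟨(N, X), hX, hN⟩⟩
  set G : (J × Ty → ℕ) → ℝ := fun s => NBK k0 (clsI cls) eI s *
    wt T (fun j => ∑ θ : Ty, (s (j, θ)).primeFactors.card) with hGdef
  have hG0 : ∀ s, 0 ≤ G s := fun s => mul_nonneg (NBK_nonneg _ _ _ _) (rjn hT _)
  have hcz : c ≤ z := by omega
  have hgn : ∀ {y' : ℕ} {s : J × Ty → ℕ} (_ : s ∈ Tup (J × Ty) z y') (i : J × Ty),
      0 ≤ gp (rT cls a f z i) c (s i) := fun hs i =>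
    gp_nonneg (rT_nonneg cls a f z i) hcz ((Pool.Agent.W405.RK2.mem_Tup.1 hs).1 i)
  refine hant (J × Ty) ℕ {θ : ℤ × ℕ // 1 ≤ θ.2 ∧ θ.1.natAbs ≤ θ.2 ^ B}
    (fun θ => (Icc 1 θ.1.2).filter (fun t : ℕ => ∀ j, (f j).eval (θ.1.1 + (t : ℤ)) ≠ 0))
    (fun θ => θ.1.2) (fun θ t => prt cls a f z (θ.1.1 + (t : ℤ))) (fun θ => (θ.1.2 : ℝ)) z
    (fun y => Real.exp (Sp (fun p => rho (∏ j, f j) p) z y))
    (fun s => G s * ∏ i, gp (rT cls a f z i) c (s i))
    (fun v => ∏ i, ((4 ^ k0 * Dd) ^ (v i).primeFactors.card *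
      (gp (rT cls a f z i) c (v i) / v i)))
    (fun u => ∏ i, ((c : ℝ) ^ (u i).primeFactors.card / (u i : ℝ)))
    (fun θ t => r (θ.1.1 + (t : ℤ)))
    (Cc * ((4 ^ (z + 2)) ^ k0 * Dd ^ (Fintype.card J * (z + 1))))
    (((4 ^ B') ^ Fintype.card J) ^ k0 * Dd ^ (Fintype.card J * B')) K y1 (by omega)
    (fun y _ => Real.exp_pos _)
    (fun θ => θ.2.1) (fun θ => Nat.cast_nonneg _) (fun X0 => ?_) (fun θ t ht => ?_)
    (fun θ t => hr0 _) (by positivity)
    (one_le_mul_of_one_le_of_one_le (one_le_pow₀ (one_le_pow₀ (one_le_pow₀ (by norm_num))))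
      (one_le_pow₀ hD1)) hK1
    (fun y s hs => ⟨?_, ?_⟩) (fun y Y hzy u hu => ?_) (fun lam hlam => ?_)
    (fun lam hlam => ?_) (fun lam hlam => ?_) ?_
  · -- small scales
    refine ⟨∑ N ∈ Icc (-((X0 : ℤ) ^ B)) ((X0 : ℤ) ^ B), ∑ t ∈ Icc 1 X0, r (N + (t : ℤ)), ?_⟩
    rintro ⟨⟨N, X⟩, hX, hN⟩ hle
    simp only at hX hN hle ⊢
    have hX0 : X ^ B ≤ X0 ^ B := Nat.pow_le_pow_left hle B
    have hmem : N ∈ Icc (-((X0 : ℤ) ^ B)) ((X0 : ℤ) ^ B) := by
      rw [mem_Icc]
      have h1 : (N.natAbs : ℤ) ≤ (X0 : ℤ) ^ B := by exact_mod_cast hN.trans hX0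
      omega
    have h1 : ∑ t ∈ (Icc 1 X).filter (fun t : ℕ => ∀ j, (f j).eval (N + (t : ℤ)) ≠ 0),
        r (N + (t : ℤ)) ≤ ∑ t ∈ Icc 1 X0, r (N + (t : ℤ)) := by
      refine sum_le_sum_of_subset_of_nonneg ?_ fun t _ _ => hr0 _
      exact (filter_subset _ _).trans (Icc_subset_Icc_right hle)
    have h2 : ∑ t ∈ Icc 1 X0, r (N + (t : ℤ)) ≤
        ∑ N ∈ Icc (-((X0 : ℤ) ^ B)) ((X0 : ℤ) ^ B), ∑ t ∈ Icc 1 X0, r (N + (t : ℤ)) :=
      single_le_sum (f := fun N : ℤ => ∑ t ∈ Icc 1 X0, r (N + (t : ℤ)))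
        (fun _ _ => sum_nonneg fun _ _ => hr0 _) hmem
    have h3 : 0 ≤ ∑ N ∈ Icc (-((X0 : ℤ) ^ B)) ((X0 : ℤ) ^ B), ∑ t ∈ Icc 1 X0, r (N + (t : ℤ)) :=
      sum_nonneg fun _ _ => sum_nonneg fun _ _ => hr0 _
    have h4 : (1 : ℝ) ≤ (X : ℝ) := by exact_mod_cast hX
    exact (h1.trans h2).trans (le_mul_of_one_le_right h3 h4)
  · exact prt_Gd hG (mem_filter.1 ht).2
  · exact mul_nonneg (hG0 s) (prod_nonneg fun i _ => hgn hs i)
  · exact prod_nonneg fun i _ => mul_nonneg (by positivity)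
      (div_nonneg (hgn hs i) (Nat.cast_nonneg _))
  · exact prod_nonneg fun i _ => by positivity
  · -- the first sum
    obtain ⟨A, hA⟩ := hrs (J × Ty) z c (rT cls a f z) G
      (fun y => C' * Real.exp (Sp (fun p => rho (∏ j, f j) p) z y)) (4 ^ k0 * Dd) lam (by omega)
      (fun i p => ⟨rT_nonneg cls a f z i p, rT_le hG i p⟩)
      (one_le_mul_of_one_le_of_one_le (one_le_pow₀ (by norm_num)) hD1) hlam hG0
      (fun y hy s e hse => growK hT hsub (cls := cls) (by omega) s e hse)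
      (fun y hy => le_trans (le_of_eq (sum_congr rfl fun s _ => by rw [hGdef]; ring)) (hC' y hy))
    refine ⟨A * C', fun y hy => ?_⟩
    have := hA y hy
    rw [mul_assoc]
    exact this
  · exact hrv (J × Ty) z c (rT cls a f z) (4 ^ k0 * Dd) lam (by omega)
      (fun i p => ⟨rT_nonneg cls a f z i p, rT_le hG i p⟩)
      (one_le_mul_of_one_le_of_one_le (one_le_pow₀ (by norm_num)) hD1) hlam
  · exact hru (J × Ty) (c : ℝ) lam (by exact_mod_cast hc1) hlam
  -- the local majorant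
  rintro ⟨⟨N, X⟩, hX1, hN⟩ y Y k hy0 hzy hyK hk s hs v hv u hu h8 T' hT' hval
  simp only at hX1 hN hyK hk h8 hT' hval ⊢
  have hy00 : y0 ≤ y := by omega
  have hyX : y ≤ X := le_trans (Nat.le_self_pow (by omega) y) hyK
  set Ws : ℝ := wt T (fun j => ∑ θ : Ty, (s (j, θ)).primeFactors.card) with hWs
  have hWs0 : 0 ≤ Ws := rjn hT _
  set g : Finset ℕ → ℝ := fun E => (NL (∏ i, s i) (LTs (clsI cls) eI s E) : ℝ) ^ k0 with hg
  have hg0 : ∀ E, 0 ≤ g E := fun E => pow_nonneg (Nat.cast_nonneg _) _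
  set ng : ℕ → Finset ℕ := fun t => negx cls (fun l => (f l).eval (N + (t : ℤ)))
    (S1 z y (fun l => (f l).eval (N + (t : ℤ)))) with hng
  set Cg : ℝ := ((4 ^ (z + 2)) ^ k0 * Dd ^ (Fintype.card J * (z + 1))) *
    (((4 ^ B') ^ Fintype.card J) ^ k0 * Dd ^ (Fintype.card J * B')) ^ k *
    (∏ i, (4 ^ k0 * Dd) ^ (v i).primeFactors.card) * Ws with hCg
  have hCg0 : 0 ≤ Cg := by positivity
  have h1 : ∀ t ∈ T', r (N + (t : ℤ)) ≤ Cg * g (ng t) := by
    intro t ht
    have htT := hT' ht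
    rw [mem_filter] at htT
    obtain ⟨ht1, ht0⟩ := htT
    obtain ⟨hts, htv, _⟩ := hval t ht
    have hsize : ∀ j, ((f j).eval (N + (t : ℤ))).natAbs ≤ X ^ B' := by
      intro j
      have e2 : t ≤ X := (mem_Icc.1 ht1).2
      have e5 : X ^ B ≤ X ^ (B + 1) := Nat.pow_le_pow_right hX1 (by omega)
      have e6 : X ≤ X ^ (B + 1) := Nat.le_self_pow (by omega) X
      have e8 : (N + (t : ℤ)).natAbs ≤ X ^ (B + 2) := by
        calc (N + (t : ℤ)).natAbs ≤ N.natAbs + t :=
              (Int.natAbs_add_le _ _).trans (by rw [Int.natAbs_natCast])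
          _ ≤ X ^ (B + 1) + X ^ (B + 1) := Nat.add_le_add (hN.trans e5) (e2.trans e6)
          _ = 2 * X ^ (B + 1) := by ring
          _ ≤ X * X ^ (B + 1) := Nat.mul_le_mul_right _ (by omega)
          _ = X ^ (B + 2) := by ring
      calc ((f j).eval (N + (t : ℤ))).natAbs ≤ Kd * (X ^ (B + 2)) ^ m :=
            hKd _ _ (Nat.one_le_pow _ _ hX1) e8 j
        _ ≤ X * (X ^ (B + 2)) ^ m := Nat.mul_le_mul_right _ (by omega)
        _ = X ^ B' := by rw [hB', ← pow_mul]; ring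
    have hr := (rank3 hsel (cls := cls) hG ha ht0 (hrel' _) (y := y) (X := X) (k := k) (B := B')
      hsize hX1 (by omega) hk).2
    rw [hts, htv] at hr
    have hw := wt_bound hT hs ht0 hts htv hsize hk
    have hr' : SN (Fval cls a (fun l => (f l).eval (N + (t : ℤ))) 0)
        (Fval cls a (fun l => (f l).eval (N + (t : ℤ))) 1) ^ k0 ≤ _ :=
      pow_le_pow_left₀ (SN_nonneg _ _) hr k0
    refine (mul_le_mul hr' hw (rjn hT _) (by positivity)).trans (le_of_eq ?_)
    rw [hCg, hg]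
    beta_reduce
    rw [← hWs, ← hDd, mul_pow, mul_pow, mul_pow, ← prod_pow]
    have e1 : ∏ i, (4 ^ k0 * Dd) ^ (v i).primeFactors.card =
        (∏ i, ((4 : ℝ) ^ (v i).primeFactors.card) ^ k0) *
          Dd ^ (∑ i, (v i).primeFactors.card) := by
      rw [← prod_pow_eq_pow_sum, ← prod_mul_distrib]
      refine prod_congr rfl fun i _ => ?_
      rw [mul_pow, ← pow_mul, ← pow_mul, mul_comm k0]
    rw [e1, mul_pow, ← pow_mul ((((4 : ℝ) ^ B') ^ Fintype.card J)) k k0,
      ← pow_mul ((((4 : ℝ) ^ B') ^ Fintype.card J)) k0 k, mul_comm k0 k, pow_add, pow_add,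
      ← pow_mul]
    ring
  have hneg : ∀ t ∈ T', ng t ∈ (P3 (clsI cls) s).powerset := by
    intro t ht
    have htT := hT' ht
    rw [mem_filter] at htT
    obtain ⟨ht1, ht0⟩ := htT
    obtain ⟨hts, htv, _⟩ := hval t ht
    rw [mem_powerset, hng]
    unfold negx
    refine (filter_subset _ _).trans ?_
    unfold P3
    have h5 : ∏ j ∈ univ.filter (fun j => cls j = 3),
        S1 z y (fun l => (f l).eval (N + (t : ℤ))) j =
        ∏ i ∈ univ.filter (fun i => clsI cls i = 3), s i := by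
      rw [prod_filter, prod_filter, Fintype.prod_prod_type]
      refine prod_congr rfl fun j _ => ?_
      unfold clsI
      by_cases h6 : cls j = 3
      · simp only [h6, if_true]
        rw [← S1_prod (cls := cls) (a := a) ht0 y j, hts]
      · simp [h6]
    rw [h5]
  have h2 : ∑ t ∈ T', g (ng t) =
      ∑ E ∈ (P3 (clsI cls) s).powerset,
        ((T'.filter (fun t : ℕ => ng t = E)).card : ℝ) * g E := by
    rw [← sum_fiberwise_of_maps_to hneg]
    refine sum_congr rfl fun E _ => ?_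
    rw [← nsmul_eq_mul, ← sum_const]
    refine sum_congr rfl fun t ht => ?_
    rw [(mem_filter.1 ht).2]
  set Q : ℝ := Cc * X * (1 / 2) ^ (P3 (clsI cls) s).card *
      (∏ i, gp (rT cls a f z i) c (s i)) * (∏ i, gp (rT cls a f z i) c (v i) / v i) *
      (∏ i, (c : ℝ) ^ (u i).primeFactors.card / u i) *
      Real.exp (-Sp (fun p => rho (∏ j, f j) p) z y) with hQ
  have h8' : (∏ i, s i * v i * u i) ^ 8 ≤ X := h8
  have h3 : ∀ E ∈ (P3 (clsI cls) s).powerset,
      ((T'.filter (fun t : ℕ => ng t = E)).card : ℝ) * g E ≤ Q * g E := by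
    intro E _
    refine mul_le_mul_of_nonneg_right ?_ (hg0 E)
    refine hcn N X y Y hy00 hzy hyK s v u hs hv hu h8' E _ fun t ht => ?_
    rw [mem_filter] at ht
    obtain ⟨ht', htE⟩ := ht
    have htT := hT' ht'
    rw [mem_filter] at htT
    obtain ⟨hts, htv, htu⟩ := hval t ht'
    exact ⟨htT.1, htT.2, hts, htv, htu, htE⟩
  calc ∑ t ∈ T', r (N + (t : ℤ))
      ≤ ∑ t ∈ T', Cg * g (ng t) := sum_le_sum h1
    _ = Cg * ∑ E ∈ (P3 (clsI cls) s).powerset,
            ((T'.filter (fun t : ℕ => ng t = E)).card : ℝ) * g E := by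
        rw [← mul_sum, h2]
    _ ≤ Cg * ∑ E ∈ (P3 (clsI cls) s).powerset, Q * g E :=
        mul_le_mul_of_nonneg_left (sum_le_sum h3) hCg0
    _ = _ := by
        have e1 : G s = (1 / 2) ^ (P3 (clsI cls) s).card *
            (∑ E ∈ (P3 (clsI cls) s).powerset, g E) * Ws := by
          rw [hGdef]
          rfl
        rw [← mul_sum, e1, hQ, hCg, Real.exp_neg, prod_mul_distrib]
        ring

end

end Pool.Agent.TH841.PM
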