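import Mathlib
import Pool.Agent.TH841.PM.Avg
import Pool.Agent.TH841.PT.Pen
import Pool.Agent.TH344.PW.Dia

/-!
# Project PM: all the moments outside of one set of density zero
-/

set_option autoImplicit false

namespace Pool.Agent.TH841.PM

open Finset Polynomial Pool.Agent.W262.RK Pool.Agent.W307.RT Pool.Agent.W307.RS
open Pool.Agent.W307.SE Pool.Agent.TH841.PT

open Pool.Agent.TH344.JG.AvgJ (rjn rj1)

open Pool.Agent.TH344.PW (MomZ diab)

/-- AVZ: the moments of the orders of the 2-Selmer groups outside of a set of density zero -/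
def AVZ : Prop := ∀ (J : Type) [Fintype J] [DecidableEq J] (cls : J → Fin 4) (a : Fin 3 → ℤ)
  (f : J → ℤ[X]), (∀ k, a k ≠ 0) → Irr f →
  (∀ c : Fin 4, c ≠ 3 → 2 * (univ.filter (fun j => cls j = c)).card <
    (univ.filter (fun j => cls j ≠ 3)).card) →
  C (a 0) * ∏ l ∈ fs cls 0, f l - C (a 1) * ∏ l ∈ fs cls 1, f l = C (a 2) * ∏ l ∈ fs cls 2, f l →
  ∃ Z : Set ℤ, (∀ t, t ∉ Z → ∀ j, (f j).eval t ≠ 0) ∧
    MomZ (fun t => SN (Fval cls a (fun l => (f l).eval t) 0)
      (Fval cls a (fun l => (f l).eval t) 1)) Z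

/-- the number of the zeros of a family of polynomials is bounded -/
lemma card_zeros {J : Type} [Fintype J] (f : J → ℤ[X]) (h : ∀ j, f j ≠ 0) :
    ∃ K : ℕ, ∀ S : Finset ℤ, (∀ t ∈ S, ∃ j, (f j).eval t = 0) → S.card ≤ K := by
  classical
  refine ⟨(univ.biUnion (fun j => (f j).roots.toFinset)).card, fun S hS => card_le_card ?_⟩
  intro t ht
  obtain ⟨j, hj⟩ := hS t ht
  exact mem_biUnion.2 ⟨j, mem_univ _, Multiset.mem_toFinset.2 ((mem_roots (h j)).2 hj)⟩

/-- change of the indexing of an interval -/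
lemma card_Icc_eq (P : ℤ → Prop) [DecidablePred P] (N : ℤ) (X : ℕ) :
    ((Icc 1 X).filter (fun t : ℕ => P (N + (t : ℤ)))).card =
      ((Ioc N (N + (X : ℤ))).filter P).card := by
  have hinj : Set.InjOn (fun t : ℕ => N + (t : ℤ)) ((Icc 1 X).filter
      (fun t : ℕ => P (N + (t : ℤ))) : Set ℕ) := by
    intro a _ b _ hab
    have : N + (a : ℤ) = N + (b : ℤ) := hab
    omega
  rw [← card_image_of_injOn hinj]
  congr 1
  ext t
  simp only [mem_image, mem_filter, mem_Icc, mem_Ioc]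
  constructor
  · rintro ⟨x, ⟨hx, hP⟩, rfl⟩
    exact ⟨by omega, hP⟩
  · rintro ⟨ht, hP⟩
    refine ⟨(t - N).toNat, ⟨by omega, ?_⟩, by omega⟩
    have : N + ((t - N).toNat : ℤ) = t := by omega
    rw [this]
    exact hP

lemma sum_Icc_eq (g : ℤ → ℝ) (P : ℤ → Prop) [DecidablePred P] (N : ℤ) (X : ℕ) :
    ∑ t ∈ (Icc 1 X).filter (fun t : ℕ => P (N + (t : ℤ))), g (N + (t : ℤ)) =
      ∑ t ∈ (Ioc N (N + (X : ℤ))).filter P, g t := by
  have hinj : Set.InjOn (fun t : ℕ => N + (t : ℤ)) ((Icc 1 X).filter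
      (fun t : ℕ => P (N + (t : ℤ))) : Set ℕ) := by
    intro a _ b _ hab
    have : N + (a : ℤ) = N + (b : ℤ) := hab
    omega
  have h1 : ∑ t ∈ (Icc 1 X).filter (fun t : ℕ => P (N + (t : ℤ))),
      g (N + (t : ℤ)) = ∑ t ∈ ((Icc 1 X).filter
        (fun t : ℕ => P (N + (t : ℤ)))).image (fun t : ℕ => N + (t : ℤ)), g t :=
    (sum_image hinj).symm
  rw [h1]
  congr 1
  ext t
  simp only [mem_image, mem_filter, mem_Icc, mem_Ioc]
  constructor
  · rintro ⟨x, ⟨hx, hP⟩, rfl⟩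
    exact ⟨by omega, hP⟩
  · rintro ⟨ht, hP⟩
    refine ⟨(t - N).toNat, ⟨by omega, ?_⟩, by omega⟩
    have : N + ((t - N).toNat : ℤ) = t := by omega
    rw [this]
    exact hP

lemma abs_le_of {N : ℤ} {X B : ℕ} (h : N.natAbs ≤ X ^ B) : |N| ≤ (X : ℤ) ^ B := by
  rw [Int.abs_eq_natAbs]
  exact_mod_cast h

theorem avz_of (hats : ATWX) (hmer : MERGE) (hexp : EXPK) (htw : TWG) (hgd : GDP) (hcnt : CNTH)
    (hsel : SELX) (hant : ANTX) (hrs : RSP) (hrv : RVP) (hru : RUP) (hsub : SUBK) (hcmb : CMBK)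
    (hbad : BADP) : AVZ := by
  classical
  intro J _ _ cls a f ha hf htri hrel
  set k0 : ℕ → ℕ := fun k => k + 2 * ((∏ j, f j).natDegree + 1) with hk0
  have h1 : ∀ k : ℕ, ∃ T : Finset (J → ℝ), (∀ t ∈ T, ∀ j, 0 < t j) ∧ (∀ t ∈ T, 1 < ∏ j, t j) ∧
      MKK (k0 k) T cls a f := by
    intro k
    obtain ⟨T, hT0, hT1, hU⟩ := hcmb J cls (k0 k) (by simp only [hk0]; omega) htri
    have hck : 2 * ((∏ j, f j).natDegree + 1) ≤ 2 ^ k0 k := by
      have h1 : k0 k < 2 ^ k0 k := Nat.lt_two_pow_self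
      simp only [hk0] at h1 ⊢
      omega
    exact ⟨T, hT0, hT1, makk hats hmer hexp htw hgd cls a f ha hf (k0 k) T hT0 hU _ le_rfl hck⟩
  choose T hT0 hT1 hmk using h1
  obtain ⟨K, hK⟩ := card_zeros f (fun j => (hf.irr j).ne_zero)
  have hd := diab (fun t => SN (Fval cls a (fun l => (f l).eval t) 0)
    (Fval cls a (fun l => (f l).eval t) 1))
    (fun k t => ¬ ((∀ j, (f j).eval t ≠ 0) ∧
      wt (T k) (fun j => ((f j).eval t).natAbs.primeFactors.card) = 1))
    (fun t => SN_nonneg _ _)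
  refine Exists.imp ?_ (hd ?_ ?_)
  · rintro Z ⟨hZ1, hZ2⟩
    exact ⟨fun t ht j hj => ht (hZ1 t fun h => h.1 j hj), hZ2⟩
  · intro k B ε _ hε
    obtain ⟨M0, hM0⟩ := hbad J f hf (T k) (hT0 k) (hT1 k) B (ε / 2) (by positivity)
    obtain ⟨M1, hM1⟩ := exists_nat_ge (2 * (K : ℝ) / ε)
    refine ⟨max M0 M1, fun N X hX hN => ?_⟩
    suffices key : (((Ioc N (N + (X : ℤ))).filter (fun t => ¬ ((∀ j, (f j).eval t ≠ 0) ∧
        wt (T k) (fun j => ((f j).eval t).natAbs.primeFactors.card) = 1))).card : ℝ) ≤ ε * X by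
      rw [← card_Icc_eq (fun t => ¬ ((∀ j, (f j).eval t ≠ 0) ∧
        wt (T k) (fun j => ((f j).eval t).natAbs.primeFactors.card) = 1))] at key
      convert key
    have h2 := hM0 N X ((le_max_left _ _).trans hX) (abs_le_of hN)
    have hsub1 : (Ioc N (N + (X : ℤ))).filter (fun t => ¬ ((∀ j, (f j).eval t ≠ 0) ∧
        wt (T k) (fun j => ((f j).eval t).natAbs.primeFactors.card) = 1)) ⊆
        (Ioc N (N + (X : ℤ))).filter (fun t => (∀ j, (f j).eval t ≠ 0) ∧
          wt (T k) (fun j => ((f j).eval t).natAbs.primeFactors.card) < 1) ∪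
        (Ioc N (N + (X : ℤ))).filter (fun t => ∃ j, (f j).eval t = 0) := by
      intro t ht
      obtain ⟨ht1, ht2⟩ := mem_filter.1 ht
      by_cases h3 : ∀ j, (f j).eval t ≠ 0
      · refine mem_union_left _ (mem_filter.2 ⟨ht1, h3, lt_of_le_of_ne (rj1 _ _) fun h4 => ?_⟩)
        exact ht2 ⟨h3, h4⟩
      · push Not at h3
        exact mem_union_right _ (mem_filter.2 ⟨ht1, h3⟩)
    have h3 := (card_le_card hsub1).trans (card_union_le _ _)
    have h4 : ((Ioc N (N + (X : ℤ))).filter (fun t => ∃ j, (f j).eval t = 0)).card ≤ K :=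
      hK _ fun t ht => (mem_filter.1 ht).2
    have h5 : (K : ℝ) ≤ ε / 2 * X := by
      have h6 : (M1 : ℝ) ≤ X := by exact_mod_cast (le_max_right _ _).trans hX
      have h7 : 2 * (K : ℝ) / ε ≤ X := hM1.trans h6
      rw [div_le_iff₀ hε] at h7
      linarith
    have h6 : (((Ioc N (N + (X : ℤ))).filter (fun t => ¬ ((∀ j, (f j).eval t ≠ 0) ∧
        wt (T k) (fun j => ((f j).eval t).natAbs.primeFactors.card) = 1))).card : ℝ) ≤
        (((Ioc N (N + (X : ℤ))).filter (fun t => (∀ j, (f j).eval t ≠ 0) ∧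
          wt (T k) (fun j => ((f j).eval t).natAbs.primeFactors.card) < 1)).card : ℝ) +
        (((Ioc N (N + (X : ℤ))).filter (fun t => ∃ j, (f j).eval t = 0)).card : ℝ) := by
      exact_mod_cast h3
    have h7 : (((Ioc N (N + (X : ℤ))).filter (fun t => ∃ j, (f j).eval t = 0)).card : ℝ) ≤ K := by
      exact_mod_cast h4
    linarith
  · intro k B _
    obtain ⟨C2, hC2⟩ := avgK hcnt hsel hant hrs hrv hru hsub cls a f B ha (k0 k) (T k) (hT0 k)
      (hmk k) hrel
    refine ⟨1 + C2, fun N X hX hN => ?_⟩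
    have h3 := hC2 N X hX hN
    suffices key : ∑ t ∈ (Icc 1 X).filter (fun t : ℕ => ¬¬ ((∀ j, (f j).eval (N + (t : ℤ)) ≠ 0) ∧
        wt (T k) (fun j => ((f j).eval (N + (t : ℤ))).natAbs.primeFactors.card) = 1)),
        SN (Fval cls a (fun l => (f l).eval (N + (t : ℤ))) 0)
          (Fval cls a (fun l => (f l).eval (N + (t : ℤ))) 1) ^ k ≤ (1 + C2) * X by
      convert key
    have h4 : ∀ t ∈ (Icc 1 X).filter (fun t : ℕ => ¬¬ ((∀ j, (f j).eval (N + (t : ℤ)) ≠ 0) ∧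
        wt (T k) (fun j => ((f j).eval (N + (t : ℤ))).natAbs.primeFactors.card) = 1)),
        SN (Fval cls a (fun l => (f l).eval (N + (t : ℤ))) 0)
          (Fval cls a (fun l => (f l).eval (N + (t : ℤ))) 1) ^ k ≤
        1 + SN (Fval cls a (fun l => (f l).eval (N + (t : ℤ))) 0)
          (Fval cls a (fun l => (f l).eval (N + (t : ℤ))) 1) ^ k0 k *
            wt (T k) (fun j => ((f j).eval (N + (t : ℤ))).natAbs.primeFactors.card) := by
      intro t ht
      obtain ⟨ht1, ht2⟩ := mem_filter.1 ht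
      rw [not_not] at ht2
      rw [ht2.2, mul_one]
      have hn := SN_nonneg (Fval cls a (fun l => (f l).eval (N + (t : ℤ))) 0)
        (Fval cls a (fun l => (f l).eval (N + (t : ℤ))) 1)
      rcases le_total (SN (Fval cls a (fun l => (f l).eval (N + (t : ℤ))) 0)
        (Fval cls a (fun l => (f l).eval (N + (t : ℤ))) 1)) 1 with h5 | h5
      · have h6 := pow_le_one₀ (n := k) hn h5
        have h7 := pow_nonneg hn (k0 k)
        linarith
      · have h6 := pow_le_pow_right₀ h5 (show k ≤ k0 k by simp only [hk0]; omega)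
        linarith
    refine (sum_le_sum h4).trans ?_
    rw [sum_add_distrib, sum_const, nsmul_eq_mul, mul_one, add_mul, one_mul]
    refine add_le_add ?_ ?_
    · have h5 := card_le_card (filter_subset (fun t : ℕ => ¬¬ ((∀ j, (f j).eval (N + (t : ℤ)) ≠ 0) ∧
        wt (T k) (fun j => ((f j).eval (N + (t : ℤ))).natAbs.primeFactors.card) = 1)) (Icc 1 X))
      rw [Nat.card_Icc, Nat.add_sub_cancel] at h5
      exact_mod_cast h5
    · refine le_trans ?_ h3
      refine sum_le_sum_of_subset_of_nonneg (fun t ht => ?_)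
        fun t _ _ => mul_nonneg (pow_nonneg (SN_nonneg _ _) _) (rjn (hT0 k) _)
      obtain ⟨ht1, ht2⟩ := mem_filter.1 ht
      rw [not_not] at ht2
      exact mem_filter.2 ⟨ht1, ht2.1⟩

end Pool.Agent.TH841.PM
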