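import Mathlib
import Pool.Agent.TH841.PM.Avz
import Pool.Agent.TH841.TR.PenFX

/-!
# Project PM: pencils, all moments outside of a set of density zero
-/

set_option autoImplicit false

namespace Pool.Agent.TH841.PM

open Finset Polynomial Pool.Agent.W262.RK

open Pool.Agent.W307.SE (SN SN_nonneg)

open Pool.Agent.TH841.TR (UP FP fp allf allc)

open Pool.Agent.TH841.PT hiding UP FP fp allf allc reduce

open Pool.Agent.TH344.PW (MomZ)

/-! ### Sets of density zero in short intervals -/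

open Classical in
/-- a set of density zero, uniformly in all short intervals -/
def DZ (Z : Set ℤ) : Prop := ∀ (L : ℕ) (ε : ℝ), 0 < ε → ∃ M0 : ℕ, ∀ (N : ℤ) (M : ℕ), M0 ≤ M →
  |N| ≤ (M : ℤ) ^ L → (((Ioc N (N + (M : ℤ))).filter (fun t => t ∈ Z)).card : ℝ) ≤ ε * M

open Classical in
/-- `R` has bounded moments outside of `Z` -/
def MZ (R : ℤ → ℝ) (Z : Set ℤ) : Prop := ∀ k L : ℕ, ∃ C : ℝ, 0 ≤ C ∧ ∀ (N : ℤ) (M : ℕ), 1 ≤ M →
  |N| ≤ (M : ℤ) ^ L → ∑ t ∈ (Ioc N (N + (M : ℤ))).filter (fun t => t ∉ Z), R t ^ k ≤ C * M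

lemma dz_of {R : ℤ → ℝ} {Z : Set ℤ} (h : MomZ R Z) : DZ Z := by
  classical
  intro L ε hε
  obtain ⟨X0, h0⟩ := h.1 L ε hε
  refine ⟨X0, fun N M hM hN => ?_⟩
  have h1 := h0 N M hM (natAbs_le_of hN)
  have h2 := card_Icc_eq (fun t => t ∈ Z) N M
  have h3 : (((Icc 1 M).filter (fun t : ℕ => N + (t : ℤ) ∈ Z)).card : ℝ) ≤ ε * M := by
    convert h1
  rw [h2] at h3
  convert h3

lemma mz_of {R : ℤ → ℝ} {Z : Set ℤ} (h : MomZ R Z) : MZ R Z := by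
  classical
  intro k L
  obtain ⟨C, h0⟩ := h.2 k L
  refine ⟨|C|, abs_nonneg _, fun N M hM hN => ?_⟩
  have h1 := h0 N M hM (natAbs_le_of hN)
  have h2 := sum_Icc_eq (fun t => R t ^ k) (fun t => t ∉ Z) N M
  have h3 : ∑ t ∈ (Icc 1 M).filter (fun t : ℕ => N + (t : ℤ) ∉ Z), R (N + (t : ℤ)) ^ k ≤
      C * M := by
    convert h1
  rw [h2] at h3
  refine le_trans ?_ (h3.trans (mul_le_mul_of_nonneg_right (le_abs_self C) (Nat.cast_nonneg _)))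
  refine le_of_eq ?_
  congr!

lemma MZ.mono {R R' : ℤ → ℝ} {Z Z' : Set ℤ} (h : MZ R Z) (hZ : Z ⊆ Z')
    (hR' : ∀ t, 0 ≤ R' t) (hR : ∀ t, 0 ≤ R t) (hle : ∀ t, t ∉ Z' → R' t ≤ R t) : MZ R' Z' := by
  classical
  intro k L
  obtain ⟨C, hC, h0⟩ := h k L
  refine ⟨C, hC, fun N M hM hN => le_trans ?_ (h0 N M hM hN)⟩
  refine (sum_le_sum fun t ht => pow_le_pow_left₀ (hR' t) (hle t (mem_filter.1 ht).2) k).trans ?_
  refine sum_le_sum_of_subset_of_nonneg (fun t ht => ?_) fun t _ _ => pow_nonneg (hR t) _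
  rw [mem_filter] at ht ⊢
  exact ⟨ht.1, fun h => ht.2 (hZ h)⟩

lemma dz_union {Z Z' : Set ℤ} (h : DZ Z) (h' : DZ Z') : DZ (Z ∪ Z') := by
  classical
  intro L ε hε
  obtain ⟨X0, h0⟩ := h L (ε / 2) (by positivity)
  obtain ⟨X1, h1⟩ := h' L (ε / 2) (by positivity)
  refine ⟨max X0 X1, fun N M hM hN => ?_⟩
  have h2 := h0 N M ((le_max_left _ _).trans hM) hN
  have h3 := h1 N M ((le_max_right _ _).trans hM) hN
  have hs : (Ioc N (N + (M : ℤ))).filter (fun t => t ∈ Z ∪ Z') ⊆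
      (Ioc N (N + (M : ℤ))).filter (fun t => t ∈ Z) ∪
        (Ioc N (N + (M : ℤ))).filter (fun t => t ∈ Z') := by
    intro t ht
    obtain ⟨ht1, ht2⟩ := mem_filter.1 ht
    rcases ht2 with ht2 | ht2
    · exact mem_union_left _ (mem_filter.2 ⟨ht1, ht2⟩)
    · exact mem_union_right _ (mem_filter.2 ⟨ht1, ht2⟩)
  have h4 : (((Ioc N (N + (M : ℤ))).filter (fun t => t ∈ Z ∪ Z')).card : ℝ) ≤
      (((Ioc N (N + (M : ℤ))).filter (fun t => t ∈ Z)).card : ℝ) +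
        (((Ioc N (N + (M : ℤ))).filter (fun t => t ∈ Z')).card : ℝ) := by
    exact_mod_cast (card_le_card hs).trans (card_union_le _ _)
  refine le_trans (le_of_eq ?_) (h4.trans ((add_le_add h2 h3).trans (le_of_eq (by ring))))
  congr!

lemma dz_fin {Z : Set ℤ} (h : Z.Finite) : DZ Z := by
  classical
  intro L ε hε
  obtain ⟨M1, hM1⟩ := exists_nat_ge ((h.toFinset.card : ℝ) / ε)
  refine ⟨M1, fun N M hM _ => ?_⟩
  have h1 : (((Ioc N (N + (M : ℤ))).filter (fun t => t ∈ Z)).card : ℝ) ≤ h.toFinset.card := by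
    exact_mod_cast card_le_card fun t ht => h.mem_toFinset.2 (mem_filter.1 ht).2
  refine h1.trans ?_
  have h2 : (M1 : ℝ) ≤ M := by exact_mod_cast hM
  have h3 := hM1.trans h2
  rw [div_le_iff₀ hε] at h3
  linarith

lemma dz_iUnion {ι : Type} (s : Finset ι) (Z : ι → Set ℤ) (h : ∀ i ∈ s, DZ (Z i)) :
    DZ (⋃ i ∈ s, Z i) := by
  classical
  induction s using Finset.induction_on with
  | empty =>
    have : (⋃ i ∈ (∅ : Finset ι), Z i) = ∅ := by simp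
    rw [this]
    exact dz_fin Set.finite_empty
  | insert a s ha ih =>
    rw [Finset.set_biUnion_insert]
    exact dz_union (h a (mem_insert_self _ _)) (ih fun i hi => h i (mem_insert_of_mem hi))

lemma zeros_fin (f : ℤ[X]) (hf : f ≠ 0) : {t : ℤ | f.eval t = 0}.Finite := by
  classical
  refine (f.roots.toFinset.finite_toSet).subset fun t ht => ?_
  exact Finset.mem_coe.2 (Multiset.mem_toFinset.2 ((mem_roots hf).2 ht))

section

variable {n : Fin 3 → ℕ} {m : ℕ}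

/-- the moments outside of a set of density zero -/
theorem sumZ (h : AVZ) (a : Fin 3 → ℤ) (g : Fin m → ℤ[X]) (f : ∀ k : Fin 3, Fin (n k) → ℤ[X])
    (ha : ∀ k, a k ≠ 0) (hf : Irr (allf g f)) (hF : FP a g f 0 - FP a g f 1 = FP a g f 2)
    (hn : ∀ k, 2 * n k < n 0 + n 1 + n 2) :
    ∃ Z : Set ℤ, DZ Z ∧ MZ (fun t => SN ((FP a g f 0).eval t) ((FP a g f 1).eval t)) Z := by
  classical
  have hP : ∀ k, C (a k) * ∏ l ∈ fs (allc n m) k, allf g f l = FP a g f k := by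
    intro k
    rw [Pool.Agent.TH841.TR.prod_allc]
    unfold FP
    rw [mul_assoc]
    rfl
  have hV : ∀ k t, Fval (allc n m) a (fun l => (allf g f l).eval t) k = (FP a g f k).eval t := by
    intro k t
    rw [← hP k, eval_mul, eval_C, eval_prod]
    rfl
  obtain ⟨Z, _, hZ⟩ := h ((Σ k : Fin 3, Fin (n k)) ⊕ Fin m) (allc n m) a (allf g f) ha hf
    (by
      intro c hc
      obtain ⟨l, rfl⟩ : ∃ l : Fin 3, l.castSucc = c := by
        revert c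
        decide
      rw [Pool.Agent.TH841.TR.card_allc', Pool.Agent.TH841.TR.card_allc3]
      exact hn l)
    (by rw [hP, hP, hP]; exact hF)
  simp only [hV] at hZ
  exact ⟨Z, dz_of hZ, mz_of hZ⟩

/-- **the moments in a pencil twisted by an arbitrary polynomial, outside of a set of density
zero** -/
theorem penZ (h : AVZ) (a : Fin 3 → ℤ) (f : ∀ k : Fin 3, Fin (n k) → ℤ[X])
    (ha : ∀ k, a k ≠ 0) (hf : Irr (fp f)) (hU : UP a f 0 - UP a f 1 = UP a f 2)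
    (D : ℤ[X]) (hD : D ≠ 0) (hDf : ∀ k i, ¬ f k i ∣ D)
    (hn : ∀ k, 2 * n k < n 0 + n 1 + n 2) :
    ∃ Z : Set ℤ, DZ Z ∧ (∀ t, t ∉ Z → ∀ k, (D * UP a f k).eval t ≠ 0) ∧
      MZ (fun t => SN ((D * UP a f 0).eval t) ((D * UP a f 1).eval t)) Z := by
  classical
  obtain ⟨m, g, a', D₂, ha', hf', hF', hfac, _⟩ :=
    Pool.Agent.TH841.TR.reduce a f ha hf hU D hD hDf
  obtain ⟨Z, hZ1, hZ2⟩ := sumZ h a' g f ha' hf' hF' hn
  have hne : ∀ k, D * UP a f k ≠ 0 := fun k => mul_ne_zero hD (by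
    unfold UP
    exact mul_ne_zero (C_ne_zero.2 (ha k))
      (prod_ne_zero_iff.2 fun i _ => (hf.irr ⟨k, i⟩).ne_zero))
  refine ⟨Z ∪ ⋃ k ∈ (univ : Finset (Fin 3)), {t : ℤ | (D * UP a f k).eval t = 0},
    dz_union hZ1 (dz_iUnion _ _ fun k _ => dz_fin (zeros_fin _ (hne k))), ?_, ?_⟩
  · intro t ht k h0
    refine ht (Or.inr ?_)
    simp only [Set.mem_iUnion]
    exact ⟨k, mem_univ _, h0⟩
  · refine hZ2.mono Set.subset_union_left (fun t => SN_nonneg _ _) (fun t => SN_nonneg _ _) ?_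
    intro t ht
    have ht' : (D * UP a f 0).eval t ≠ 0 := by
      intro h0
      refine ht (Or.inr ?_)
      simp only [Set.mem_iUnion]
      exact ⟨0, mem_univ _, h0⟩
    rw [hfac, eval_mul, eval_pow] at ht'
    have hw : D₂.eval t ≠ 0 := fun h0 => ht' (by rw [h0]; ring)
    simp only [hfac, eval_mul, eval_pow]
    rw [SN_sq hw]

end

/-! ### The conclusions over the rationals -/

section

open Pool.Agent.TH841.SH.D (ShaTor HasDiv rk)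

open Classical in
/-- ranks and Tate-Shafarevich groups -/
theorem conclK (P : Finset ℤ) (A B : ℤ → ℤ) (k : ℕ) (Q : ℝ)
    (h0 : ∀ t ∈ P, A t ≠ 0 ∧ B t ≠ 0 ∧ A t ≠ B t) (hsum : ∑ t ∈ P, SN (A t) (B t) ^ k ≤ Q) :
    (∀ t ∈ P, ∀ j : ℕ, Finite (ShaTor (EQ (A t) (B t)) (2 ^ j))) ∧
      (∀ j : ℕ, 1 ≤ j → ∑ t ∈ P, ((2 : ℝ) ^ rk (EQ (A t) (B t)) *
        (Nat.card (ShaTor (EQ (A t) (B t)) (2 ^ j)) : ℝ) ^ ((1 : ℝ) / j)) ^ k ≤ Q) ∧
      ∀ r q : ℕ, ((P.filter (fun t => r ≤ rk (EQ (A t) (B t)) ∧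
        HasDiv (EQ (A t) (B t)) q)).card : ℝ) ≤ Q / 2 ^ (k * (r + q)) := by
  obtain ⟨k1, k2, k3⟩ := Pool.Agent.TH841.SH.family P (fun t => EQ (A t) (B t))
    (fun t => SN (A t) (B t)) Q k (fun t ht => bd_EQ (h0 t ht).1 (h0 t ht).2.1 (h0 t ht).2.2)
    hsum
  exact ⟨k1, k2, k3⟩

variable {n : Fin 3 → ℕ}

open Classical in
/-- **pencils over the rationals: all the moments outside of a set of density zero** -/
theorem penZQ (h : AVZ) (a : Fin 3 → ℤ) (f : ∀ k : Fin 3, Fin (n k) → ℤ[X])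
    (ha : ∀ k, a k ≠ 0) (hf : Irr (fp f)) (hU : UP a f 0 - UP a f 1 = UP a f 2)
    (D : ℤ[X]) (hD : D ≠ 0) (hDf : ∀ k i, ¬ f k i ∣ D)
    (hn : ∀ k, 2 * n k < n 0 + n 1 + n 2) :
    ∃ Z : Set ℤ, DZ Z ∧ (∀ t, t ∉ Z → ∀ k, (D * UP a f k).eval t ≠ 0) ∧
      ∀ k L : ℕ, ∃ C : ℝ, ∀ (N : ℤ) (M : ℕ), 1 ≤ M → |N| ≤ (M : ℤ) ^ L → ∀ P : Finset ℤ,
      P = (Ioc N (N + M)).filter (fun t => t ∉ Z) →
      (∀ t ∈ P, ∀ j : ℕ, Finite (ShaTor (EQ ((D * UP a f 0).eval t) ((D * UP a f 1).eval t))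
        (2 ^ j))) ∧
      (∀ j : ℕ, 1 ≤ j → ∑ t ∈ P, ((2 : ℝ) ^ rk (EQ ((D * UP a f 0).eval t)
        ((D * UP a f 1).eval t)) * (Nat.card (ShaTor (EQ ((D * UP a f 0).eval t)
        ((D * UP a f 1).eval t)) (2 ^ j)) : ℝ) ^ ((1 : ℝ) / j)) ^ k ≤ C * M) ∧
      ∀ r q : ℕ, ((P.filter (fun t => r ≤ rk (EQ ((D * UP a f 0).eval t)
        ((D * UP a f 1).eval t)) ∧ HasDiv (EQ ((D * UP a f 0).eval t)
        ((D * UP a f 1).eval t)) q)).card : ℝ) ≤ C * M / 2 ^ (k * (r + q)) := by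
  obtain ⟨Z, hZ1, hZ2, hZ3⟩ := penZ h a f ha hf hU D hD hDf hn
  refine ⟨Z, hZ1, hZ2, fun k L => ?_⟩
  obtain ⟨C, _, hC⟩ := hZ3 k L
  refine ⟨C, fun N M hM hN P hP => ?_⟩
  refine conclK P (fun t => (D * UP a f 0).eval t) (fun t => (D * UP a f 1).eval t) k (C * M)
    (fun t ht => ?_) ?_
  · rw [hP] at ht
    exact Pool.Agent.TH841.TR.ne_three hU (hZ2 t (mem_filter.1 ht).2)
  · rw [hP]
    exact hC N M hM hN

end

/-! ### The conclusions over varying fields -/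

section

open Pool.Agent.TH841.NF (EF Gen)

open Pool.Agent.TH841.NF.D (HasDiv crk rk)

/-- ranks and Tate-Shafarevich groups over varying multiquadratic fields -/
theorem conclFK {s : ℕ} (P : Finset ℤ) (A B e1 e2 e3 : ℤ → ℤ) (d : ℤ → Fin s → ℤ) (k : ℕ)
    (Q : Finset (Fin s) → ℝ)
    (hE : ∀ t ∈ P, 4 * A t ^ 3 + 27 * B t ^ 2 ≠ 0)
    (he : ∀ t ∈ P, ∀ x : ℤ, x ^ 3 + A t * x + B t = (x - e1 t) * (x - e2 t) * (x - e3 t))
    (hd : ∀ t ∈ P, ∀ i, d t i ≠ 0)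
    (hsum : ∀ T : Finset (Fin s), ∑ t ∈ P, SN ((e2 t - e1 t) * ∏ i ∈ T, d t i)
      ((e3 t - e1 t) * ∏ i ∈ T, d t i) ^ (2 ^ s * k) ≤ Q T)
    (F : ℤ → Type) [∀ t, Field (F t)] [∀ t, NumberField (F t)]
    (hF : ∀ t ∈ P, Gen (F t) (d t)) (W : ∀ t, WeierstrassCurve (F t))
    (hW : ∀ t, W t = EF (A t) (B t) (F t)) :
    (∀ t ∈ P, BddAbove {q | HasDiv (W t) q}) ∧
      ∑ t ∈ P, ((2 : ℝ) ^ (rk (W t) + crk (W t))) ^ k ≤ ∑ T, Q T ∧
      ∀ n : ℕ, ((P.filter (fun t => n ≤ rk (W t) + crk (W t))).card : ℝ) ≤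
        (∑ T, Q T) / 2 ^ (k * n) := by
  refine Pool.Agent.TH841.NF.famN P F W (fun t => ∏ T : Finset (Fin s),
    SN ((e2 t - e1 t) * ∏ i ∈ T, d t i) ((e3 t - e1 t) * ∏ i ∈ T, d t i)) k _ ?_ ?_
  · intro t ht q hq
    rw [hW t] at hq ⊢
    have hne : ∀ T : Finset (Fin s), ∏ i ∈ T, d t i ≠ 0 := fun T =>
      prod_ne_zero_iff.2 fun i _ => hd t ht i
    refine Pool.Agent.TH841.NF.one_field (d := d t) (hF t ht) (hd t ht) (hE t ht) _ ?_ ?_ hq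
    · intro T
      have h1 := Pool.Agent.TH639.SL.sel_tw (hE t ht) (he t ht) (hne T)
      have h2 := Pool.Agent.TH841.SH.bd_selR (Pool.Agent.TH639.SL.disc_tw (hne T) (hE t ht))
        (Pool.Agent.TH639.SL.roots_tw (he t ht) _) h1.1
      exact ⟨h2.1, h2.2.trans h1.2⟩
    · intro T
      exact Pool.Agent.W307.RG.fin_tw (hE t ht) (he t ht) (hne T)
  · have hc : Fintype.card (Finset (Fin s)) = 2 ^ s := by
      rw [Fintype.card_finset, Fintype.card_fin]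
    calc ∑ t ∈ P, (∏ T : Finset (Fin s), SN ((e2 t - e1 t) * ∏ i ∈ T, d t i)
          ((e3 t - e1 t) * ∏ i ∈ T, d t i)) ^ k
        ≤ ∑ t ∈ P, ∑ T : Finset (Fin s),
          SN ((e2 t - e1 t) * ∏ i ∈ T, d t i) ((e3 t - e1 t) * ∏ i ∈ T, d t i) ^ (2 ^ s * k) := by
          refine sum_le_sum fun t _ => ?_
          have := Pool.Agent.TH841.NF.prod_pow_le (fun T : Finset (Fin s) =>
            SN ((e2 t - e1 t) * ∏ i ∈ T, d t i)
            ((e3 t - e1 t) * ∏ i ∈ T, d t i)) (fun T => SN_nonneg _ _) k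
          rwa [hc] at this
      _ = ∑ T : Finset (Fin s), ∑ t ∈ P,
          SN ((e2 t - e1 t) * ∏ i ∈ T, d t i) ((e3 t - e1 t) * ∏ i ∈ T, d t i) ^ (2 ^ s * k) :=
          sum_comm
      _ ≤ ∑ T, Q T := sum_le_sum fun T _ => hsum T

variable {n : Fin 3 → ℕ}

open Classical in
/-- **pencils over varying fields: all the moments outside of a set of density zero** -/
theorem penZF (h : AVZ) (a : Fin 3 → ℤ) (f : ∀ k : Fin 3, Fin (n k) → ℤ[X])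
    (ha : ∀ k, a k ≠ 0) (hf : Irr (fp f)) (hU : UP a f 0 - UP a f 1 = UP a f 2)
    (hn : ∀ k, 2 * n k < n 0 + n 1 + n 2)
    (s : ℕ) (D₀ : ℤ[X]) (hD₀ : D₀ ≠ 0) (hDf₀ : ∀ k i, ¬ f k i ∣ D₀)
    (D : Fin s → ℤ[X]) (hD : ∀ i, D i ≠ 0) (hDf : ∀ l k i, ¬ f k i ∣ D l)
    (A B e1 e2 e3 : ℤ[X])
    (he : ∀ t x : ℤ, x ^ 3 + A.eval t * x + B.eval t =
      (x - e1.eval t) * (x - e2.eval t) * (x - e3.eval t))
    (h12 : e2 - e1 = D₀ * UP a f 0) (h13 : e3 - e1 = D₀ * UP a f 1) :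
    ∃ Z : Set ℤ, DZ Z ∧ (∀ t, t ∉ Z → (∀ k, (D₀ * UP a f k).eval t ≠ 0) ∧
        ∀ i, (D i).eval t ≠ 0) ∧
      ∀ k L : ℕ, ∃ C : ℝ, ∀ (N : ℤ) (M : ℕ), 1 ≤ M → |N| ≤ (M : ℤ) ^ L → ∀ P : Finset ℤ,
      P = (Ioc N (N + M)).filter (fun t => t ∉ Z) →
      ∀ (F : ℤ → Type) [∀ t, Field (F t)] [∀ t, NumberField (F t)],
      (∀ t ∈ P, Gen (F t) (fun i => (D i).eval t)) →
      ∀ W : ∀ t, WeierstrassCurve (F t), (∀ t, W t = EF (A.eval t) (B.eval t) (F t)) →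
      (∀ t ∈ P, BddAbove {q | HasDiv (W t) q}) ∧
      ∑ t ∈ P, ((2 : ℝ) ^ (rk (W t) + crk (W t))) ^ k ≤ C * M ∧
      ∀ m : ℕ, ((P.filter (fun t => m ≤ rk (W t) + crk (W t))).card : ℝ) ≤
        C * M / 2 ^ (k * m) := by
  have hne : ∀ T : Finset (Fin s), D₀ * ∏ i ∈ T, D i ≠ 0 := fun T =>
    mul_ne_zero hD₀ (prod_ne_zero_iff.2 fun i _ => hD i)
  choose Z hZ1 hZ2 hZ3 using fun T : Finset (Fin s) => penZ h a f ha hf hU (D₀ * ∏ i ∈ T, D i)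
    (hne T) (fun k i => prod_ndvd (hf.irr ⟨k, i⟩) (hDf₀ k i) (fun l => hDf l k i) T) hn
  have hsubT : ∀ T, Z T ⊆ ⋃ T ∈ (univ : Finset (Finset (Fin s))), Z T := fun T t ht => by
    simp only [Set.mem_iUnion]
    exact ⟨T, mem_univ _, ht⟩
  have hnz : ∀ t, t ∉ (⋃ T ∈ (univ : Finset (Finset (Fin s))), Z T) →
      (∀ k, (D₀ * UP a f k).eval t ≠ 0) ∧ ∀ i, (D i).eval t ≠ 0 := by
    intro t ht
    refine ⟨fun k => ?_, fun i => ?_⟩
    · have h1 := hZ2 ∅ t (fun h => ht (hsubT _ h)) k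
      rwa [prod_empty, mul_one] at h1
    · have h1 := hZ2 {i} t (fun h => ht (hsubT _ h)) 0
      rw [prod_singleton, eval_mul, eval_mul] at h1
      exact right_ne_zero_of_mul (left_ne_zero_of_mul h1)
  refine ⟨⋃ T ∈ (univ : Finset (Finset (Fin s))), Z T, dz_iUnion _ _ fun T _ => hZ1 T, hnz, ?_⟩
  intro k L
  choose C hC0 hC using fun T : Finset (Fin s) => hZ3 T (2 ^ s * k) L
  refine ⟨∑ T, C T, fun N M hM hN P hP F _ _ hF W hW => ?_⟩
  have hPZ : ∀ t ∈ P, t ∉ (⋃ T ∈ (univ : Finset (Finset (Fin s))), Z T) := by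
    intro t ht
    rw [hP] at ht
    exact (mem_filter.1 ht).2
  have hd1 : ∀ t, e2.eval t - e1.eval t = (D₀ * UP a f 0).eval t := fun t => by
    rw [← h12, eval_sub]
  have hd2 : ∀ t, e3.eval t - e1.eval t = (D₀ * UP a f 1).eval t := fun t => by
    rw [← h13, eval_sub]
  have hd3 : ∀ t, e2.eval t - e3.eval t = (D₀ * UP a f 2).eval t := fun t => by
    rw [← hU, mul_sub, eval_sub, ← hd1, ← hd2]
    ring
  have key := conclFK P (fun t => A.eval t) (fun t => B.eval t) (fun t => e1.eval t)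
    (fun t => e2.eval t) (fun t => e3.eval t) (fun t i => (D i).eval t) k (fun T => C T * M)
    (fun t ht => ?_) (fun t _ => he t) (fun t ht => (hnz t (hPZ t ht)).2) (fun T => ?_) F hF W hW
  · rw [← sum_mul] at key
    exact key
  · have h0 := (hnz t (hPZ t ht)).1
    refine disc_of (he t) ?_ ?_ ?_
    · rw [hd1]
      exact h0 0
    · rw [hd2]
      exact h0 1
    · rw [hd3]
      exact h0 2
  · refine le_trans ?_ (hC T N M hM hN)
    have h1 : ∑ t ∈ P, SN ((e2.eval t - e1.eval t) * ∏ i ∈ T, (D i).eval t)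
        ((e3.eval t - e1.eval t) * ∏ i ∈ T, (D i).eval t) ^ (2 ^ s * k) =
        ∑ t ∈ P, SN (((D₀ * ∏ i ∈ T, D i) * UP a f 0).eval t)
          (((D₀ * ∏ i ∈ T, D i) * UP a f 1).eval t) ^ (2 ^ s * k) := by
      refine sum_congr rfl fun t _ => ?_
      rw [hd1, hd2]
      simp only [eval_mul, eval_prod]
      congr 2 <;> ring
    rw [h1]
    refine sum_le_sum_of_subset_of_nonneg (fun t ht => ?_) fun t _ _ => pow_nonneg (SN_nonneg _ _) _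
    have h2 := hPZ t ht
    rw [hP] at ht
    exact mem_filter.2 ⟨(mem_filter.1 ht).1, fun h => h2 (hsubT T h)⟩

end

end Pool.Agent.TH841.PM
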