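import Mathlib
import Pool.Agent.TH841.PM.Avz
import Pool.Agent.TH344.PW.Bad

/-!
# Project PM: rare arguments, from project PW (helper344)
-/

set_option autoImplicit false

namespace Pool.Agent.TH841.PM

open Finset Polynomial Pool.Agent.TH841.PT Pool.Agent.TH344

theorem badp : BADP := by
  classical
  intro J _ _ f hf T hT0 hT1 B ε hε
  obtain ⟨X0, hX0⟩ := PW.badb J f T B hf hT0 hT1 ε hε
  refine ⟨X0, fun N M hM hN => ?_⟩
  have h1 := hX0 N M hM (natAbs_le_of hN)
  have h2 : ((Icc 1 M).filter (fun t : ℕ => (∀ j, (f j).eval (N + (t : ℤ)) ≠ 0) ∧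
      wt T (fun j => ((f j).eval (N + (t : ℤ))).natAbs.primeFactors.card) < 1)).card ≤
      ((Icc 1 M).filter (fun t : ℕ => ¬ ((∀ j, (f j).eval (N + (t : ℤ)) ≠ 0) ∧
      DT.rho T (PW.omf f (N + (t : ℤ))) = 1))).card := by
    refine card_le_card fun t ht => ?_
    obtain ⟨ht1, _, ht3⟩ := mem_filter.1 ht
    exact mem_filter.2 ⟨ht1, fun h => (ne_of_lt ht3) h.2⟩
  have h3 := card_Icc_eq (fun t => (∀ j, (f j).eval t ≠ 0) ∧
      wt T (fun j => ((f j).eval t).natAbs.primeFactors.card) < 1) N M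
  have h4 : (((Ioc N (N + (M : ℤ))).filter (fun t => (∀ j, (f j).eval t ≠ 0) ∧
      wt T (fun j => ((f j).eval t).natAbs.primeFactors.card) < 1)).card : ℝ) ≤ ε * M := by
    rw [← h3]
    refine le_trans (Nat.cast_le.2 h2) ?_
    convert h1
  convert h4

end Pool.Agent.TH841.PM
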