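import Pool.Agent.TH841.PM.Stm
import Pool.Agent.TH344.JG.Cmb

/-!
# Project PM, PM-CMB: the unlinked sets of indices and the vectors
-/

set_option autoImplicit false
set_option linter.unusedSectionVars false

namespace Pool.Agent.TH841.PM.CMBf

open Finset Pool.Agent.W262.RK Pool.Agent.TH841.PT Pool.Agent.TH841.PM
open Pool.Agent.TH344.DT (nn om Alt)
open Pool.Agent.W307.FK (dt)
open Pool.Agent.TH344.DT.CmbX (chi hh chi_eq lindsey)

/-! ### The lemma of Lindsey, abstractly -/

theorem lindseyG {G : Type} [Fintype G] [DecidableEq G] (h : G → G → ℤ) (N : ℕ)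
    (hs : ∀ a a', ∑ b, h a b * h a' b = if a = a' then (N : ℤ) else 0) (A B : Finset G)
    (hAB : ∀ a ∈ A, ∀ b ∈ B, h a b = 1) : A.card * B.card ≤ N := by
  have h1 : ∑ b, (∑ a ∈ A, h a b) ^ 2 = (A.card : ℤ) * N := by
    simp_rw [sq, Finset.sum_mul_sum]
    rw [Finset.sum_comm]
    have h2 : ∀ a ∈ A, ∑ b, ∑ a' ∈ A, h a b * h a' b = (N : ℤ) := by
      intro a ha
      rw [Finset.sum_comm]
      simp_rw [hs]
      rw [Finset.sum_ite_eq, if_pos ha]
    rw [Finset.sum_congr rfl h2, Finset.sum_const, nsmul_eq_mul]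
  have h3 : (B.card : ℤ) * (A.card : ℤ) ^ 2 ≤ ∑ b, (∑ a ∈ A, h a b) ^ 2 := by
    have h4 : ∑ b ∈ B, (∑ a ∈ A, h a b) ^ 2 = (B.card : ℤ) * (A.card : ℤ) ^ 2 := by
      have h5 : ∀ b ∈ B, (∑ a ∈ A, h a b) ^ 2 = (A.card : ℤ) ^ 2 := by
        intro b hb
        rw [Finset.sum_congr rfl fun a ha => hAB a ha b hb]
        simp
      rw [Finset.sum_congr rfl h5, Finset.sum_const, nsmul_eq_mul]
    rw [← h4]
    exact Finset.sum_le_sum_of_subset_of_nonneg (Finset.subset_univ _) fun b _ _ => sq_nonneg _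
  rw [h1] at h3
  rcases Nat.eq_zero_or_pos A.card with h0 | h0
  · rw [h0, zero_mul]
    exact Nat.zero_le _
  · have h4 : B.card * A.card ^ 2 ≤ A.card * N := by exact_mod_cast h3
    have h5 : A.card * (A.card * B.card) ≤ A.card * N := by
      calc A.card * (A.card * B.card) = B.card * A.card ^ 2 := by ring
        _ ≤ A.card * N := h4
    exact Nat.le_of_mul_le_mul_left h5 h0

/-! ### The symplectic sign of the class 3 -/

/-- the pairing of two coordinates -/
def pr (v x : Bool × Bool) : Bool := xor (x.1 && v.1) (x.2 && v.2)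

/-- the character -/
def chK {k : ℕ} (v x : Fin k → Bool × Bool) : ℤ :=
  ∏ b, (if pr (v b) (x b) = true then -1 else 1)

theorem pr_symm : ∀ v x : Bool × Bool, pr v x = pr x v := by decide

theorem chK_symm {k : ℕ} (v x : Fin k → Bool × Bool) : chK v x = chK x v := by
  unfold chK
  exact Finset.prod_congr rfl fun b _ => by rw [pr_symm]

theorem chK_sum1 : ∀ v v' : Bool × Bool, ∑ z : Bool × Bool,
    (if pr v z = true then (-1 : ℤ) else 1) * (if pr v' z = true then -1 else 1) =
      if v = v' then 4 else 0 := by decide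

theorem chK_sum {k : ℕ} (v v' : Fin k → Bool × Bool) :
    ∑ z, chK v z * chK v' z = if v = v' then 4 ^ k else 0 := by
  unfold chK
  simp_rw [← Finset.prod_mul_distrib]
  have h1 := Fintype.prod_sum (fun (j : Fin k) (s : Bool × Bool) =>
    (if pr (v j) s = true then (-1 : ℤ) else 1) * (if pr (v' j) s = true then -1 else 1))
  rw [← h1]
  simp_rw [chK_sum1]
  split_ifs with h
  · subst h
    simp
  · obtain ⟨j, hj⟩ := Function.ne_iff.1 h
    exact Finset.prod_eq_zero (mem_univ j) (if_neg hj)

/-- the symplectic sign -/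
def hK {k : ℕ} (a b : (Fin k → Bool × Bool) × (Fin k → Bool × Bool)) : ℤ :=
  chK a.1 b.2 * chK b.1 a.2

theorem hK_sum {k : ℕ} (a a' : (Fin k → Bool × Bool) × (Fin k → Bool × Bool)) :
    ∑ b, hK a b * hK a' b = if a = a' then ((16 ^ k : ℕ) : ℤ) else 0 := by
  rw [Fintype.sum_prod_type]
  have h1 : ∀ x y : Fin k → Bool × Bool, hK a (x, y) * hK a' (x, y) =
      (chK a.2 x * chK a'.2 x) * (chK a.1 y * chK a'.1 y) := by
    intro x y
    unfold hK
    simp only
    rw [chK_symm x a.2, chK_symm x a'.2]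
    ring
  simp_rw [h1, ← Finset.mul_sum, ← Finset.sum_mul]
  rw [chK_sum, chK_sum]
  by_cases h : a = a'
  · rw [if_pos h, if_pos (by rw [h]), if_pos (by rw [h]), ← mul_pow]
    push_cast
    norm_num
  · rw [if_neg h]
    by_cases h2 : a.2 = a'.2
    · have h3 : a.1 ≠ a'.1 := fun h4 => h (Prod.ext h4 h2)
      rw [if_neg h3, mul_zero]
    · rw [if_neg h2, zero_mul]

theorem chK_eq {k : ℕ} (v x : Fin k → Bool × Bool) : chK v x =
    (-1) ^ (univ.filter (fun b => xor ((x b).1 && (v b).1) ((x b).2 && (v b).2) = true)).card := by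
  unfold chK pr
  rw [Finset.prod_ite, Finset.prod_const, Finset.prod_const_one, mul_one]

theorem sign_of_dk {k : ℕ} {v x v' x' : Fin k → Bool × Bool} (h : dk v x = dk v' x') :
    chK v x * chK v' x' = 1 := by
  rw [chK_eq, chK_eq, ← pow_add]
  unfold dk at h
  have h2 := decide_eq_decide.1 h
  apply Even.neg_one_pow
  rw [Nat.even_iff]
  omega

section

variable {J : Type} [Fintype J] [DecidableEq J] {cls : J → Fin 4} {k : ℕ}

theorem card_le3 (A : Finset (IK4 cls k)) (j : J) (hA : ∀ i ∈ A, i.1.1 = j)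
    (h : ∀ i ∈ A, ∀ i' ∈ A, LK4 cls i i' = LK4 cls i' i) : A.card * A.card ≤ 16 ^ k := by
  have hc : (A.image (fun i => i.1.2)).card = A.card := by
    apply Finset.card_image_of_injOn
    intro i hi i' hi' hij
    apply Subtype.ext
    exact Prod.ext ((hA i hi).trans (hA i' hi').symm) hij
  rw [← hc]
  apply lindseyG hK _ hK_sum
  intro a ha b hb
  obtain ⟨i, hi, rfl⟩ := Finset.mem_image.1 ha
  obtain ⟨i', hi', rfl⟩ := Finset.mem_image.1 hb
  exact sign_of_dk (h i hi i' hi')

/-! ### The other classes -/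

/-- is the coordinate nonzero? -/
def nz (v : Bool × Bool) : Bool := v.1 || v.2

/-- the reduced type -/
def al {k : ℕ} (v : Fin k → Bool × Bool) : Fin k → Bool := fun b => nz (v b)

theorem al_v : ∀ (c : Fin 4) (v x : Bool × Bool), c ≠ 3 → Al c v x = true →
    (v = (false, false) ∨ v = ec c) ∧ (x = (false, false) ∨ x = (ec c).swap) := by
  decide

theorem cross1 : ∀ c c' : Fin 4, c ≠ 3 → c' ≠ 3 → c ≠ c' →
    pr (ec c) (ec c').swap = (nz (ec c) && nz (ec c').swap) := by
  decide

theorem cross2 : ∀ c : Fin 4, pr (ec c) (false, false) = (nz (ec c) && nz (false, false)) ∧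
    pr (false, false) (ec c).swap = (nz (false, false) && nz (ec c).swap) := by
  decide

theorem cross (c c' : Fin 4) (v x v' x' : Bool × Bool) (hc : c ≠ 3) (hc' : c' ≠ 3)
    (hcc : c ≠ c') (h : Al c v x = true) (h' : Al c' v' x' = true) :
    pr v x' = (nz v && nz x') := by
  rcases (al_v c v x hc h).1 with rfl | rfl <;> rcases (al_v c' v' x' hc' h').2 with rfl | rfl
  · rfl
  · exact (cross2 c').2
  · exact (cross2 c).1
  · exact cross1 c c' hc hc' hcc

theorem inj1 : ∀ (c : Fin 4) (v x v' x' : Bool × Bool), c ≠ 3 →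
    Al c v x = true → Al c v' x' = true → (nz v = nz v' → v = v') ∧ (nz x = nz x' → x = x') := by
  decide

theorem al_of {i : IK4 cls k} (hc : cls i.1.1 ≠ 3) (b : Fin k) :
    Al (cls i.1.1) (i.1.2.1 b) (i.1.2.2 b) = true := by
  have h := i.2
  unfold AlK at h
  rw [if_neg hc, decide_eq_true_eq] at h
  exact h b

theorem dk_cross {i i' : IK4 cls k} (hc : cls i.1.1 ≠ 3) (hc' : cls i'.1.1 ≠ 3)
    (hcc : cls i.1.1 ≠ cls i'.1.1) :
    dk i.1.2.1 i'.1.2.2 = decide (dt k (al i.1.2.1) (al i'.1.2.2) % 2 = 1) := by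
  unfold dk dt
  congr 3
  congr 1
  ext b
  simp only [Finset.mem_filter, Finset.mem_univ, true_and]
  have := cross _ _ _ _ _ _ hc hc' hcc (al_of hc b) (al_of hc' b)
  unfold pr at this
  rw [this]
  rfl

theorem ortho2 {i i' : IK4 cls k} (hc : cls i.1.1 ≠ 3) (hc' : cls i'.1.1 ≠ 3)
    (hcc : cls i.1.1 ≠ cls i'.1.1) (h : LK4 cls i i' = LK4 cls i' i) :
    Pool.Agent.TH344.DT.CmbX.hh k (al i.1.2.1, al i.1.2.2) (al i'.1.2.1, al i'.1.2.2) = 1 := by
  unfold Pool.Agent.TH344.DT.CmbX.hh
  rw [chi_eq, chi_eq, ← pow_add]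
  unfold LK4 at h
  rw [dk_cross hc hc' hcc, dk_cross hc' hc hcc.symm] at h
  have h2 := decide_eq_decide.1 h
  apply Even.neg_one_pow
  rw [Nat.even_iff]
  simp only
  omega

theorem card_img2 (A : Finset (IK4 cls k)) (j : J) (hj : cls j ≠ 3) (hA : ∀ i ∈ A, i.1.1 = j) :
    (A.image (fun i => (al i.1.2.1, al i.1.2.2))).card = A.card := by
  apply Finset.card_image_of_injOn
  intro i hi i' hi' hij
  have e1 := hA i hi
  have e2 := hA i' hi'
  have hc : cls i.1.1 ≠ 3 := by rw [e1]; exact hj
  have hc' : cls i'.1.1 ≠ 3 := by rw [e2]; exact hj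
  have k1 : ∀ b, i.1.2.1 b = i'.1.2.1 b ∧ i.1.2.2 b = i'.1.2.2 b := by
    intro b
    have a1 := al_of hc b
    have a2 := al_of hc' b
    rw [e1] at a1
    rw [e2] at a2
    have a3 := inj1 _ _ _ _ _ hj a1 a2
    have b1 := congrFun (congrArg Prod.fst hij) b
    have b2 := congrFun (congrArg Prod.snd hij) b
    exact ⟨a3.1 b1, a3.2 b2⟩
  apply Subtype.ext
  exact Prod.ext (e1.trans e2.symm) (Prod.ext (funext fun b => (k1 b).1)
    (funext fun b => (k1 b).2))

theorem pair_le2 (A B : Finset (IK4 cls k)) (j j' : J) (hj : cls j ≠ 3) (hj' : cls j' ≠ 3)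
    (hcc : cls j ≠ cls j') (hA : ∀ i ∈ A, i.1.1 = j) (hB : ∀ i ∈ B, i.1.1 = j')
    (h : ∀ i ∈ A, ∀ i' ∈ B, LK4 cls i i' = LK4 cls i' i) : A.card * B.card ≤ 4 ^ k := by
  rw [← card_img2 A j hj hA, ← card_img2 B j' hj' hB]
  apply lindsey
  intro a ha b hb
  obtain ⟨i, hi, rfl⟩ := Finset.mem_image.1 ha
  obtain ⟨i', hi', rfl⟩ := Finset.mem_image.1 hb
  exact ortho2 (by rw [hA i hi]; exact hj) (by rw [hB i' hi']; exact hj')
    (by rw [hA i hi, hB i' hi']; exact hcc) (h i hi i' hi')

/-- the number of the indices of `j` -/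
def uK (U : Finset (IK4 cls k)) (j : J) : ℕ := (U.filter (fun i => i.1.1 = j)).card

/-- the size of the class -/
def mK (cls : J → Fin 4) (k : ℕ) (j : J) : ℕ := if cls j = 3 then 4 ^ k else 2 ^ k

theorem mK_pos (j : J) : 0 < mK cls k j := by
  unfold mK
  split_ifs <;> positivity

theorem uK3_le (U : Finset (IK4 cls k)) (hU : ∀ i ∈ U, ∀ j ∈ U, LK4 cls i j = LK4 cls j i)
    (j : J) (hj : cls j = 3) : uK U j ≤ mK cls k j := by
  have h1 := card_le3 (U.filter (fun i => i.1.1 = j)) j (fun i hi => (Finset.mem_filter.1 hi).2)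
    (fun i hi i' hi' => hU i (Finset.mem_filter.1 hi).1 i' (Finset.mem_filter.1 hi').1)
  unfold uK mK
  rw [if_pos hj]
  have h2 : (16 : ℕ) ^ k = 4 ^ k * 4 ^ k := by rw [← mul_pow]; norm_num
  rw [h2] at h1
  exact Nat.mul_self_le_mul_self_iff.1 h1

theorem uK2_le (U : Finset (IK4 cls k)) (hU : ∀ i ∈ U, ∀ j ∈ U, LK4 cls i j = LK4 cls j i)
    (j j' : J) (hj : cls j ≠ 3) (hj' : cls j' ≠ 3) (hcc : cls j ≠ cls j') :
    uK U j * uK U j' ≤ mK cls k j * mK cls k j' := by
  have h1 := pair_le2 (U.filter (fun i => i.1.1 = j)) (U.filter (fun i => i.1.1 = j')) j j' hj hj'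
    hcc (fun i hi => (Finset.mem_filter.1 hi).2) (fun i hi => (Finset.mem_filter.1 hi).2)
    (fun i hi i' hi' => hU i (Finset.mem_filter.1 hi).1 i' (Finset.mem_filter.1 hi').1)
  unfold uK mK
  rw [if_neg hj, if_neg hj']
  have h2 : (4 : ℕ) ^ k = 2 ^ k * 2 ^ k := by rw [← mul_pow]; norm_num
  rw [h2] at h1
  exact h1

theorem sum_clsK (U : Finset (IK4 cls k)) (t : J → ℝ) :
    ∑ i ∈ U, wK cls i * t i.1.1 = ∑ j, (uK U j : ℝ) / mK cls k j * t j := by
  rw [← Finset.sum_fiberwise U (fun i => i.1.1)]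
  apply Finset.sum_congr rfl
  intro j _
  have h1 : ∀ i ∈ U.filter (fun i => i.1.1 = j), wK cls i * t i.1.1 = 1 / mK cls k j * t j := by
    intro i hi
    unfold wK mK
    rw [(Finset.mem_filter.1 hi).2]
    split_ifs <;> push_cast <;> rfl
  rw [Finset.sum_congr rfl h1, Finset.sum_const, nsmul_eq_mul]
  unfold uK
  ring

/-! ### The inequality for the products -/

theorem num (x : J → ℝ) (h0 : ∀ j, 0 ≤ x j) (h3 : ∀ j, cls j = 3 → x j ≤ 1)
    (h2 : ∀ j j', cls j ≠ 3 → cls j' ≠ 3 → cls j ≠ cls j' → x j * x j' ≤ 1)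
    (hn : ∀ c : Fin 4, c ≠ 3 → 2 * (univ.filter (fun j => cls j = c)).card <
      (univ.filter (fun j => cls j ≠ 3)).card)
    (hne : ∃ j, x j ≠ 1) : ∏ j, x j < 1 := by
  by_cases hA : ∀ j, x j ≤ 1
  · obtain ⟨j, hj⟩ := hne
    rw [← Finset.mul_prod_erase univ x (mem_univ j)]
    calc x j * ∏ i ∈ univ.erase j, x i ≤ x j * 1 :=
          mul_le_mul_of_nonneg_left (Finset.prod_le_one (fun i _ => h0 i) fun i _ => hA i) (h0 j)
      _ < 1 := by rw [mul_one]; exact lt_of_le_of_ne (hA j) hj
  · push Not at hA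
    obtain ⟨j1, hj1⟩ := hA
    obtain ⟨j0, -, hj0⟩ := Finset.exists_max_image univ x ⟨j1, mem_univ j1⟩
    have hy : 1 < x j0 := lt_of_lt_of_le hj1 (hj0 j1 (mem_univ _))
    have hy0 : 0 < x j0 := by linarith
    have hc0 : cls j0 ≠ 3 := fun h => by have := h3 j0 h; linarith
    have hle : ∀ j ∈ (univ : Finset J), x j ≤
        if cls j = cls j0 then x j0 else if cls j = 3 then 1 else (x j0)⁻¹ := by
      intro j _
      split_ifs with a b
      · exact hj0 j (mem_univ _)
      · exact h3 j b
      · have := h2 j0 j hc0 b (Ne.symm a)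
        rw [inv_eq_one_div, le_div_iff₀ hy0, mul_comm]
        exact this
    have hprod := Finset.prod_le_prod (fun j _ => h0 j) hle
    rw [Finset.prod_ite, Finset.prod_const, Finset.prod_ite, Finset.prod_const_one, one_mul,
      Finset.prod_const] at hprod
    refine lt_of_le_of_lt hprod ?_
    have hcard : (univ.filter (fun j => cls j = cls j0)).card <
        ((univ.filter (fun j => ¬ cls j = cls j0)).filter (fun j => ¬ cls j = 3)).card := by
      have e1 := hn _ hc0
      have e2 : (univ.filter (fun j => cls j ≠ 3)).card =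
          (univ.filter (fun j => cls j = cls j0)).card +
          ((univ.filter (fun j => ¬ cls j = cls j0)).filter (fun j => ¬ cls j = 3)).card := by
        rw [← Finset.card_union_of_disjoint]
        · congr 1
          ext j
          simp only [Finset.mem_filter, Finset.mem_union, Finset.mem_univ, true_and]
          constructor
          · intro h
            by_cases h' : cls j = cls j0
            · exact Or.inl h'
            · exact Or.inr ⟨h', h⟩
          · rintro (h | h)
            · rw [h]; exact hc0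
            · exact h.2
        · rw [Finset.disjoint_left]
          intro j hj hj'
          simp only [Finset.mem_filter, Finset.mem_univ, true_and] at hj hj'
          exact hj'.1 hj
      omega
    obtain ⟨d, hd⟩ := Nat.exists_eq_add_of_lt hcard
    rw [hd, add_assoc, pow_add, ← mul_assoc, ← mul_pow, mul_inv_cancel₀ hy0.ne', one_pow, one_mul]
    exact pow_lt_one₀ (by positivity) (inv_lt_one_of_one_lt₀ hy) (by omega)

end

end Pool.Agent.TH841.PM.CMBf

namespace Pool.Agent.TH841.PM.CMBf

open Finset Pool.Agent.W262.RK Pool.Agent.TH841.PT Pool.Agent.TH841.PM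
open Pool.Agent.TH344.DT (nn om Alt)

theorem cmbk : Pool.Agent.TH841.PM.CMBK := by
  classical
  intro J _ _ cls k _ hn
  have hJ : Nonempty J := by
    have h := hn 0 (by decide)
    have h1 : 0 < (univ.filter (fun j => cls j ≠ 3)).card := by omega
    obtain ⟨j, -⟩ := Finset.card_pos.1 h1
    exact ⟨j⟩
  have hM : ∀ j, (0 : ℝ) < mK cls k j := fun j => by exact_mod_cast mK_pos j
  -- the products of the classes
  have hprod : ∀ U : Finset (IK4 cls k), (∀ i ∈ U, ∀ j ∈ U, LK4 cls i j = LK4 cls j i) →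
      (∃ j, uK U j ≠ mK cls k j) → ∏ j, ((uK U j : ℝ) / mK cls k j) < 1 := by
    intro U hU hne
    apply num (cls := cls) _ (fun j => div_nonneg (Nat.cast_nonneg _) (hM j).le)
    · intro j hj
      rw [div_le_one (hM j)]
      exact_mod_cast uK3_le U hU j hj
    · intro j j' hj hj' hcc
      rw [div_mul_div_comm, div_le_one (mul_pos (hM j) (hM j'))]
      exact_mod_cast uK2_le U hU j j' hj hj' hcc
    · exact hn
    · obtain ⟨j, hj⟩ := hne
      refine ⟨j, fun h => hj ?_⟩
      rw [div_eq_one_iff_eq (hM j).ne'] at h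
      exact_mod_cast h
  have hex : ∀ U : Finset (IK4 cls k), ∃ t : J → ℝ, (∀ j, 0 < t j) ∧ 1 < ∏ j, t j ∧
      ((∀ i ∈ U, ∀ j ∈ U, LK4 cls i j = LK4 cls j i) → (∃ j, uK U j ≠ mK cls k j) →
        ∑ i ∈ U, wK cls i * t i.1.1 < Fintype.card J) := by
    intro U
    by_cases h : (∀ i ∈ U, ∀ j ∈ U, LK4 cls i j = LK4 cls j i) ∧ ∃ j, uK U j ≠ mK cls k j
    · obtain ⟨t, ht1, ht2, ht3⟩ := Pool.Agent.TH344.JG.CmbV.exists_tV
        (fun j => (uK U j : ℝ) / mK cls k j)
        (fun j => div_nonneg (Nat.cast_nonneg _) (hM j).le) (hprod U h.1 h.2)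
      refine ⟨t, ht1, ht2, fun _ _ => ?_⟩
      rw [sum_clsK]
      exact ht3
    · refine ⟨fun _ => 2, fun _ => by norm_num, ?_, fun h1 h2 => ?_⟩
      · rw [Finset.prod_const, Finset.card_univ]
        exact one_lt_pow₀ (by norm_num) Fintype.card_ne_zero
      · exact absurd ⟨h1, h2⟩ h
  choose t ht1 ht2 ht3 using hex
  refine ⟨Finset.univ.image t, ?_, ?_, ?_⟩
  · intro s hs j
    obtain ⟨U, _, rfl⟩ := Finset.mem_image.1 hs
    exact ht1 U j
  · intro s hs
    obtain ⟨U, _, rfl⟩ := Finset.mem_image.1 hs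
    exact ht2 U
  · intro U hU
    by_cases hne : ∃ j, uK U j ≠ mK cls k j
    · left
      exact ⟨t U, Finset.mem_image_of_mem t (mem_univ U), ht3 U hU hne⟩
    · right
      push Not at hne
      have hcls : ∀ s : J → ℝ, ∑ i ∈ U, wK cls i * s i.1.1 = ∑ j, s j := by
        intro s
        rw [sum_clsK]
        apply Finset.sum_congr rfl
        intro j _
        rw [hne j, div_self (hM j).ne', one_mul]
      refine ⟨?_, ?_, ?_⟩
      · have h5 := hcls (fun _ => 1)
        simp only [mul_one] at h5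
        rw [h5]
        simp
      · intro s hs
        obtain ⟨W, _, rfl⟩ := Finset.mem_image.1 hs
        obtain ⟨θ, hθ, hlt⟩ := Pool.Agent.TH344.JG.CmbV.exists_thetaV (t W) (ht1 W) (ht2 W)
        refine ⟨θ, hθ, ?_⟩
        rw [hcls (fun j => t W j ^ (-θ))]
        exact hlt
      · intro j hj
        by_contra hcon
        push Not at hcon
        have hnot : j ∉ U.filter (fun i => i.1.1 = j.1.1) := fun h7 =>
          hj (Finset.mem_filter.1 h7).1
        have hA : ∀ i ∈ insert j (U.filter (fun i => i.1.1 = j.1.1)), i.1.1 = j.1.1 := by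
          intro i hi
          rcases Finset.mem_insert.1 hi with rfl | hi
          · rfl
          · exact (Finset.mem_filter.1 hi).2
        by_cases hc : cls j.1.1 = 3
        · have h6 := card_le3 (insert j (U.filter (fun i => i.1.1 = j.1.1))) j.1.1 hA (by
            intro i hi i' hi'
            rcases Finset.mem_insert.1 hi with rfl | hi <;>
              rcases Finset.mem_insert.1 hi' with rfl | hi'
            · rfl
            · exact (hcon i' (Finset.mem_filter.1 hi').1).symm
            · exact hcon i (Finset.mem_filter.1 hi).1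
            · exact hU i (Finset.mem_filter.1 hi).1 i' (Finset.mem_filter.1 hi').1)
          rw [Finset.card_insert_of_notMem hnot] at h6
          have e1 : (U.filter (fun i => i.1.1 = j.1.1)).card = 4 ^ k := by
            have := hne j.1.1
            unfold uK mK at this
            rwa [if_pos hc] at this
          have e2 : (16 : ℕ) ^ k = 4 ^ k * 4 ^ k := by rw [← mul_pow]; norm_num
          rw [e1, e2] at h6
          nlinarith
        · -- a class different from the class of `j`
          obtain ⟨j', hj'3, hj'c⟩ : ∃ j', cls j' ≠ 3 ∧ cls j' ≠ cls j.1.1 := by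
            by_contra hall
            push Not at hall
            have h8 := hn (cls j.1.1) hc
            have h9 : (univ.filter (fun j' => cls j' ≠ 3)).card ≤
                (univ.filter (fun j' => cls j' = cls j.1.1)).card := by
              apply Finset.card_le_card
              intro j' hj'
              rw [Finset.mem_filter] at hj' ⊢
              exact ⟨hj'.1, hall j' hj'.2⟩
            omega
          have h6 := pair_le2 (insert j (U.filter (fun i => i.1.1 = j.1.1)))
            (U.filter (fun i => i.1.1 = j')) j.1.1 j' hc hj'3 hj'c.symm hA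
            (fun i hi => (Finset.mem_filter.1 hi).2) (by
              intro i hi i' hi'
              rcases Finset.mem_insert.1 hi with rfl | hi
              · exact (hcon i' (Finset.mem_filter.1 hi').1).symm
              · exact hU i (Finset.mem_filter.1 hi).1 i' (Finset.mem_filter.1 hi').1)
          rw [Finset.card_insert_of_notMem hnot] at h6
          have e1 : (U.filter (fun i => i.1.1 = j.1.1)).card = 2 ^ k := by
            have := hne j.1.1
            unfold uK mK at this
            rwa [if_neg hc] at this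
          have e2 : (U.filter (fun i => i.1.1 = j')).card = 2 ^ k := by
            have := hne j'
            unfold uK mK at this
            rwa [if_neg hj'3] at this
          have e3 : (4 : ℕ) ^ k = 2 ^ k * 2 ^ k := by rw [← mul_pow]; norm_num
          rw [e1, e2, e3] at h6
          have : 0 < 2 ^ k := by positivity
          nlinarith

end Pool.Agent.TH841.PM.CMBf
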