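import Mathlib
import Pool.Agent.TH841.PM.Stm
import Pool.Agent.TH841.PT.ExpT
import Pool.Agent.W125.RS.ExpK

/-!
# Project PM: expansion of the `k`-th power of the local count into symbols (`EXPK`)
-/

set_option autoImplicit false
set_option linter.unusedSectionVars false

namespace Pool.Agent.TH841.PM.EXPf

open Finset Polynomial Pool.Agent.W262.RK Pool.Agent.TH841.PT Pool.Agent.W762.RK2
open Pool.Agent.TH841.PT.ExpT (prod_gp IlT LT_neg)
open Pool.Agent.W125.RS (B1 B2 E1 E2 SK sum_bigK prod_par Jr_self_mul)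
open Pool.Agent.W307.RS (dK)

section local_identity

/-- the weight of a type of one coordinate -/
noncomputable def W1 (c : Fin 4) (neg : Bool) (v x : Bool × Bool) : ℝ :=
  if c = 3 then 1 / 4 * (if xor (x.1 && v.1) (x.2 && v.2) = true then sg neg else 1)
  else if Al c v x = true then 1 / 2 else 0

lemma loc1T (c : Fin 4) (e : Fin 3 → Bool) (m neg : Bool) (v : Bool × Bool) (h g : Bool) :
    ind (PT.LT c e m neg v.1 v.2 h g) =
      ∑ x : Bool × Bool, W1 c neg v x * (if bt c e v x = true then -1 else 1) *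
        (if mt c v x = true then sg m else 1) *
          ((if x.1 = true then sg h else 1) * (if x.2 = true then sg g else 1)) := by
  obtain ⟨v1, v2⟩ := v
  simp only [Fintype.sum_prod_type, Fintype.sum_bool]
  generalize ha : e 0 = a
  generalize hb : e 1 = b
  generalize hc : e 2 = d
  fin_cases c <;> cases v1 <;> cases v2 <;>
    simp [W1, bt, mt, Al, ec, PT.LT, ind, ha, hb, hc] <;>
    cases h <;> cases g <;> cases a <;> cases b <;> cases d <;> cases m <;> cases neg <;>
      simp [sg] <;> norm_num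

variable {k : ℕ}

lemma prod_neg (P : Fin k → Bool) : (∏ a, (if P a = true then (-1 : ℝ) else 1)) =
    if decide ((univ.filter (fun a => P a = true)).card % 2 = 1) = true then -1 else 1 := by
  rw [← Finset.prod_filter, Finset.prod_const]
  generalize (univ.filter (fun a => P a = true)).card = n
  simp only [decide_eq_true_eq]
  conv_lhs => rw [← Nat.div_add_mod n 2]
  rw [pow_add, pow_mul]
  rcases Nat.mod_two_eq_zero_or_one n with h | h <;> simp [h]

lemma prod_sgm {p : ℕ} (hp : p.Prime) (P : Fin k → Bool) :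
    (∏ a, (if P a = true then sg (sg0 p (-1)) else 1)) =
      Jr ((-1) ^ (univ.filter (fun a => P a = true)).card) p := by
  have e3 : Jr (-1) p = sg (sg0 p (-1)) := by
    refine Jr_dvd_ne hp fun hd => ?_
    have h1 : (p : ℤ) ∣ 1 := (dvd_neg).1 hd
    have h2 : p ∣ 1 := by exact_mod_cast h1
    exact hp.one_lt.ne' (Nat.dvd_one.1 h2)
  rw [← Finset.prod_filter, Finset.prod_const, ← e3]
  unfold Jr
  rw [jacobiSym.pow_left]
  push_cast
  rfl

/-- the weight -/
noncomputable def wkc (c : Fin 4) (k : ℕ) : ℝ := if c = 3 then 1 / 4 ^ k else 1 / 2 ^ k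

lemma prod_W1 (c : Fin 4) (v x : Fin k → Bool × Bool) :
    ((∏ a, W1 c true (v a) (x a)) + ∏ a, W1 c false (v a) (x a)) / 2 =
      if AlK c v x = true then wkc c k else 0 := by
  unfold W1 AlK wkc
  by_cases hc : c = 3
  · simp only [hc, if_true]
    have h1 : ∀ neg, (∏ a, (1 / 4 : ℝ) * (if xor ((x a).1 && (v a).1) ((x a).2 && (v a).2) = true
        then sg neg else 1)) = 1 / 4 ^ k * (if dK k v x % 2 = 1 then sg neg else 1) := by
      intro neg
      rw [Finset.prod_mul_distrib, prod_par _ (by cases neg <;> simp [sg]), Finset.prod_const,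
        Finset.card_univ, Fintype.card_fin, one_div, one_div, inv_pow]
    rw [h1, h1]
    have h2 : dk v x = decide (dK k v x % 2 = 1) := rfl
    rw [h2]
    by_cases h3 : dK k v x % 2 = 1
    · simp [h3, sg]
    · simp [h3]
  · simp only [hc, if_false]
    by_cases h : ∀ b, Al c (v b) (x b) = true
    · rw [Finset.prod_congr rfl fun a _ => if_pos (h a), if_pos (by simpa using h),
        Finset.prod_const, Finset.card_univ, Fintype.card_fin, one_div, one_div, inv_pow]
      ring
    · rw [if_neg (by simpa using h)]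
      push Not at h
      obtain ⟨b, hb⟩ := h
      rw [Finset.prod_eq_zero (Finset.mem_univ b) (if_neg hb)]
      norm_num

lemma locKT (c : Fin 4) (e : Fin 3 → Bool) {p : ℕ} (hp : p.Prime)
    (v : Fin k → Bool × Bool) (h g : Fin k → Bool) :
    ((∏ a, ind (PT.LT c e (sg0 p (-1)) true (v a).1 (v a).2 (h a) (g a))) +
      ∏ a, ind (PT.LT c e (sg0 p (-1)) false (v a).1 (v a).2 (h a) (g a))) / 2 =
      ∑ x : Fin k → Bool × Bool, if AlK c v x = true then
        wkc c k * ((if decide ((univ.filter (fun b => bt c e (v b) (x b) = true)).card % 2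
            = 1) = true then -1 else 1) *
          Jr ((-1) ^ (univ.filter (fun b => mt c (v b) (x b) = true)).card) p) *
          ∏ a, ((if (x a).1 = true then sg (h a) else 1) *
            (if (x a).2 = true then sg (g a) else 1)) else 0 := by
  have h1 : ∀ neg, ∏ a, ind (PT.LT c e (sg0 p (-1)) neg (v a).1 (v a).2 (h a) (g a)) =
      ∑ x : Fin k → Bool × Bool, (∏ a, W1 c neg (v a) (x a)) *
        (((if decide ((univ.filter (fun b => bt c e (v b) (x b) = true)).card % 2
            = 1) = true then -1 else 1) *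
          Jr ((-1) ^ (univ.filter (fun b => mt c (v b) (x b) = true)).card) p) *
          ∏ a, ((if (x a).1 = true then sg (h a) else 1) *
            (if (x a).2 = true then sg (g a) else 1))) := by
    intro neg
    rw [Finset.prod_congr rfl fun a _ => loc1T c e (sg0 p (-1)) neg (v a) (h a) (g a),
      Finset.prod_univ_sum, Fintype.piFinset_univ]
    refine Finset.sum_congr rfl fun x _ => ?_
    rw [Finset.prod_mul_distrib, Finset.prod_mul_distrib, Finset.prod_mul_distrib,
      prod_neg (fun a => bt c e (v a) (x a)), prod_sgm hp (fun a => mt c (v a) (x a))]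
    ring
  rw [h1, h1, ← Finset.sum_add_distrib, Finset.sum_div]
  refine Finset.sum_congr rfl fun x _ => ?_
  rw [← add_mul, mul_div_right_comm, prod_W1]
  split_ifs <;> ring

end local_identity

section average

variable {J : Type} [Fintype J] [DecidableEq J] {z y k : ℕ}

lemma NBK_eq (cls : J → Fin 4) (e : J → Fin 3 → Bool) {s : J → ℕ} (hs : s ∈ Tup J z y) :
    NBK k cls e s = ∑ d ∈ Fintype.piFinset
      (fun _ : Fin k => (∏ j, s j).divisors ×ˢ (∏ j, s j).divisors),
      ∏ p ∈ (∏ j, s j).primeFactors, ((∏ a, IlT cls e s (d a) true p) +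
        ∏ a, IlT cls e s (d a) false p) / 2 := by
  classical
  have hne : ∏ j, s j ≠ 0 := Finset.prod_ne_zero_iff.2 fun j _ =>
    (Pool.Agent.W108.RK.sqf_of_mem hs j).ne_zero
  have h0 : ∀ E : Finset ℕ, (NL (∏ j, s j) (LTs cls e s E) : ℝ) =
      ∑ d ∈ (∏ j, s j).divisors ×ˢ (∏ j, s j).divisors,
        ∏ p ∈ (∏ j, s j).primeFactors, IlT cls e s d (decide (p ∈ E)) p := by
    intro E
    unfold NL
    rw [Finset.card_filter]
    push_cast
    refine Finset.sum_congr rfl fun d _ => ?_
    unfold IlT
    rw [prod_ind]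
    unfold ind LTs
    congr
  have h1 : ∀ E : Finset ℕ, (NL (∏ j, s j) (LTs cls e s E) : ℝ) ^ k =
      ∑ d ∈ Fintype.piFinset
        (fun _ : Fin k => (∏ j, s j).divisors ×ˢ (∏ j, s j).divisors),
        ∏ p ∈ (∏ j, s j).primeFactors, ∏ a, IlT cls e s (d a) (decide (p ∈ E)) p := by
    intro E
    have h2 : (NL (∏ j, s j) (LTs cls e s E) : ℝ) ^ k =
        ∏ _a : Fin k, (NL (∏ j, s j) (LTs cls e s E) : ℝ) := by
      rw [Finset.prod_const, Finset.card_univ, Fintype.card_fin]
    rw [h2, Finset.prod_congr rfl fun a _ => h0 E, Finset.prod_univ_sum]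
    refine Finset.sum_congr rfl fun d _ => ?_
    rw [Finset.prod_comm]
  unfold NBK
  rw [Finset.sum_congr rfl fun E _ => h1 E, Finset.sum_comm, Finset.mul_sum]
  refine Finset.sum_congr rfl fun d _ => ?_
  refine avg (P3 cls s) (∏ j, s j).primeFactors ?_
    (fun b p => ∏ a, IlT cls e s (d a) b p) ?_
  · unfold P3
    refine Nat.primeFactors_mono ?_ hne
    exact Finset.prod_dvd_prod_of_subset _ _ _ (Finset.filter_subset _ _)
  · intro p hp hpA
    refine Finset.prod_congr rfl fun a _ => ?_
    unfold IlT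
    congr 1
    refine propext (forall_congr' fun j => ?_)
    refine forall_congr' fun hj => ?_
    rw [LT_neg]
    intro hc
    apply hpA
    unfold P3
    refine Nat.mem_primeFactors.2 ⟨Nat.prime_of_mem_primeFactors hp, ?_, ?_⟩
    · exact hj.trans (Finset.dvd_prod_of_mem _ (Finset.mem_filter.2 ⟨Finset.mem_univ _, hc⟩))
    · exact Finset.prod_ne_zero_iff.2 fun j _ => (Pool.Agent.W108.RK.sqf_of_mem hs j).ne_zero

end average

section final

variable {J : Type} [Fintype J] [DecidableEq J] {z y k : ℕ}

/-- the local term -/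
noncomputable def Tm (cls : J → Fin 4) (e : J → Fin 3 → Bool) (g : J → ℕ → ℝ) (c : ℕ)
    (ξ : Pr z y → Option (J × (Fin k → Bool × Bool))) (p : Pr z y) : ℝ :=
  (ξ p).elim 1 fun r => g r.1 p / ((p : ℝ) - c) *
    (((∏ a, ind (PT.LT (cls r.1) (e r.1) (sg0 p (-1)) true (r.2 a).1
      (r.2 a).2 (sgn p (E1 a ξ)) (sgn p (E2 a ξ)))) +
      ∏ a, ind (PT.LT (cls r.1) (e r.1) (sg0 p (-1)) false (r.2 a).1
      (r.2 a).2 (sgn p (E1 a ξ)) (sgn p (E2 a ξ)))) / 2)

lemma lhsT (cls : J → Fin 4) (e : J → Fin 3 → Bool) (g : J → ℕ → ℝ) (c : ℕ)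
    (Φ : (J → ℕ) → ℝ) :
    ∑ s ∈ Tup J z y, NBK k cls e s * (∏ j, gp (g j) c (s j)) * Φ s =
      ∑ ξ : Pr z y → Option (J × (Fin k → Bool × Bool)),
        (∏ p, Tm cls e g c ξ p) * Φ (SK ξ) := by
  have h1 : ∀ s ∈ Tup J z y, NBK k cls e s * (∏ j, gp (g j) c (s j)) * Φ s =
      ∑ d ∈ Fintype.piFinset (fun _ : Fin k => (∏ j, s j).divisors ×ˢ (∏ j, s j).divisors),
        (∏ p ∈ (∏ j, s j).primeFactors, ((∏ a, IlT cls e s (d a) true p) +
        ∏ a, IlT cls e s (d a) false p) / 2) * (∏ j, gp (g j) c (s j)) * Φ s := by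
    intro s hs
    rw [NBK_eq cls e hs, Finset.sum_mul, Finset.sum_mul]
  rw [Finset.sum_congr rfl h1, sum_bigK fun s d =>
    (∏ p ∈ (∏ j, s j).primeFactors, ((∏ a, IlT cls e s (d a) true p) +
        ∏ a, IlT cls e s (d a) false p) / 2) * (∏ j, gp (g j) c (s j)) * Φ s]
  refine Finset.sum_congr rfl fun ξ _ => ?_
  congr 1
  have h2 : ∏ j, gp (g j) c (SK ξ j) = ∏ p : Pr z y, ((ξ p).map Prod.fst).elim 1
      fun j => g j p / ((p : ℝ) - c) := prod_gp g c _
  have h3 : ∏ j, SK ξ j = nb fun p => ((ξ p).map Prod.fst).isSome := prod_Dl _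
  rw [h2, h3, prod_pf _ fun p => ((∏ a, IlT cls e (SK ξ) (E1 a ξ, E2 a ξ) true p) +
    ∏ a, IlT cls e (SK ξ) (E1 a ξ, E2 a ξ) false p) / 2, ← Finset.prod_mul_distrib]
  refine Finset.prod_congr rfl fun p _ => ?_
  unfold Tm
  cases hx : ξ p with
  | none => simp
  | some r =>
    have h4 : ∀ (neg : Bool) (a : Fin k), IlT cls e (SK ξ) (E1 a ξ, E2 a ξ) neg p =
        ind (PT.LT (cls r.1) (e r.1) (sg0 p (-1)) neg (r.2 a).1 (r.2 a).2 (sgn p (E1 a ξ))
          (sgn p (E2 a ξ))) := by
      intro neg a
      unfold IlT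
      have e1 : dv p (E1 a ξ : ℤ) = (r.2 a).1 := by
        have : B1 a (ξ p) = (r.2 a).1 := by rw [hx]; rfl
        rw [← this]
        unfold dv
        rw [Bool.eq_iff_iff, decide_eq_true_iff, Int.natCast_dvd_natCast]
        exact dvd_nb _ p
      have e2 : dv p (E2 a ξ : ℤ) = (r.2 a).2 := by
        have : B2 a (ξ p) = (r.2 a).2 := by rw [hx]; rfl
        rw [← this]
        unfold dv
        rw [Bool.eq_iff_iff, decide_eq_true_iff, Int.natCast_dvd_natCast]
        exact dvd_nb _ p
      have e3 : ∀ j, (p : ℕ) ∣ SK ξ j ↔ j = r.1 := by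
        intro j
        unfold SK Dl
        rw [dvd_nb, decide_eq_true_iff]
        show (ξ p).map Prod.fst = some j ↔ j = r.1
        rw [hx]
        simp [eq_comm]
      congr 1
      simp only [e1, e2, e3, forall_eq]
    simp only [h4]
    simp only [Option.map_some, Option.isSome_some, if_true, Option.elim]
    ring

/-- forget the character -/
def fg {cls : J → Fin 4} (x : Option (IK4 cls k)) : Option (J × (Fin k → Bool × Bool)) :=
  x.map fun i => (i.1.1, i.1.2.1)

/-- the local factor -/
noncomputable def GG (cls : J → Fin 4) (e : J → Fin 3 → Bool) (g : J → ℕ → ℝ) (c : ℕ)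
    (ξ : Pr z y → Option (J × (Fin k → Bool × Bool))) (p : Pr z y) (x : Option (IK4 cls k)) : ℝ :=
  x.elim 1 fun i => g i.1.1 p / ((p : ℝ) - c) *
    (wK cls i * ((if bK cls e i = true then -1 else 1) * Jr (κK4 cls i) p) *
    ∏ a, ((if (i.1.2.2 a).1 = true then sg (sgn p (E1 a ξ)) else 1) *
      (if (i.1.2.2 a).2 = true then sg (sgn p (E2 a ξ)) else 1)))

lemma sum_IK4 (cls : J → Fin 4) (F : J × (Fin k → Bool × Bool) × (Fin k → Bool × Bool) → ℝ) :
    ∑ i : IK4 cls k, F i.1 = ∑ r, if AlK (cls r.1) r.2.1 r.2.2 = true then F r else 0 := by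
  rw [← Finset.sum_filter]
  exact (Finset.sum_subtype (univ.filter fun r : J × (Fin k → Bool × Bool) ×
    (Fin k → Bool × Bool) => AlK (cls r.1) r.2.1 r.2.2 = true) (fun x => by simp) F).symm

lemma sum_GG (cls : J → Fin 4) (e : J → Fin 3 → Bool) (g : J → ℕ → ℝ) (c : ℕ)
    (ξ : Pr z y → Option (J × (Fin k → Bool × Bool))) (p : Pr z y) :
    ∑ x ∈ univ.filter (fun x : Option (IK4 cls k) => fg x = ξ p), GG cls e g c ξ p x =
      Tm cls e g c ξ p := by
  rw [Finset.sum_filter, Fintype.sum_option]
  unfold Tm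
  cases hx : ξ p with
  | none => simp [fg, GG]
  | some r =>
    obtain ⟨j, v⟩ := r
    have h0 : (if fg (none : Option (IK4 cls k)) = some (j, v) then GG cls e g c ξ p none else 0) =
        0 := by
      rw [if_neg]
      simp [fg]
    rw [h0, zero_add]
    set F : J × (Fin k → Bool × Bool) × (Fin k → Bool × Bool) → ℝ :=
      fun r : J × (Fin k → Bool × Bool) × (Fin k → Bool × Bool) =>
          if r.1 = j ∧ r.2.1 = v then g r.1 p / ((p : ℝ) - c) * (wkc (cls r.1) k *
            ((if decide ((univ.filter (fun b => bt (cls r.1) (e r.1) (r.2.1 b) (r.2.2 b)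
              = true)).card % 2 = 1) = true then -1 else 1) *
            Jr ((-1) ^ (univ.filter (fun b => mt (cls r.1) (r.2.1 b) (r.2.2 b) = true)).card) p) *
            ∏ a, ((if (r.2.2 a).1 = true then sg (sgn p (E1 a ξ)) else 1) *
            (if (r.2.2 a).2 = true then sg (sgn p (E2 a ξ)) else 1))) else 0 with hF
    have h1 : ∀ i : IK4 cls k,
        (if fg (some i) = some (j, v) then GG cls e g c ξ p (some i) else 0) = F i.1 := by
      intro i
      refine if_congr ?_ rfl rfl
      simp only [fg, Option.map_some, Option.some.injEq, Prod.mk.injEq]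
    refine (Finset.sum_congr rfl fun i _ => h1 i).trans ((sum_IK4 cls F).trans ?_)
    rw [Fintype.sum_prod_type, Finset.sum_eq_single j]
    · rw [Fintype.sum_prod_type, Finset.sum_eq_single v]
      · show _ = g j p / ((p : ℝ) - c) * _
        rw [locKT (cls j) (e j) (Pr_prime p) v, Finset.mul_sum]
        refine Finset.sum_congr rfl fun x _ => ?_
        simp only [hF, and_self, if_true, mul_ite, mul_zero]
      · intro v' _ hv'
        refine Finset.sum_eq_zero fun x _ => ?_
        simp [hF, hv']
      · intro h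
        exact absurd (Finset.mem_univ _) h
    · intro j' _ hj'
      refine Finset.sum_eq_zero fun x _ => ?_
      simp [hF, hj']
    · intro h
      exact absurd (Finset.mem_univ _) h

lemma dk_self (c : Fin 4) (v x : Fin k → Bool × Bool) (h : AlK c v x = true) :
    dk v x = false := by
  unfold AlK at h
  split_ifs at h with hc
  · simpa using h
  · rw [decide_eq_true_iff] at h
    unfold dk
    rw [Finset.filter_false_of_mem]
    · rfl
    · intro b _
      rw [Al_orth _ _ _ (h b)]
      simp

lemma rhsT (cls : J → Fin 4) (e : J → Fin 3 → Bool) (g : J → ℕ → ℝ) (c : ℕ)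
    (ξ : Pr z y → Option (J × (Fin k → Bool × Bool))) (l : Pr z y → Option (IK4 cls k))
    (h : ∀ p, fg (l p) = ξ p) :
    (∏ i : IK4 cls k, gp (fun p => wK cls i * ((if bK cls e i = true then -1 else 1) *
      g i.1.1 p)) c (Dl l i)) * Pool.Agent.W262.RK.Sym (LK4 cls) (κK4 cls) (Dl l) =
      ∏ p, GG cls e g c ξ p (l p) := by
  rw [prod_gp, Sym_Dl, ← Finset.prod_mul_distrib, ← Finset.prod_mul_distrib]
  refine Finset.prod_congr rfl fun p _ => ?_
  cases hl : l p with
  | none =>
    have h0 : ∀ q, Pool.Agent.W762.RK2.lk (LK4 cls) (l q) (none : Option (IK4 cls k)) = false := by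
      intro q
      cases l q <;> rfl
    simp [h0, GG]
  | some i =>
    have h2 : ∏ q : Pr z y, (if Pool.Agent.W762.RK2.lk (LK4 cls) (l q) (some i) = true then
        Jr (q : ℕ) p else 1) =
        ∏ a, ((if (i.1.2.2 a).1 = true then sg (sgn p (E1 a ξ)) else 1) *
      (if (i.1.2.2 a).2 = true then sg (sgn p (E2 a ξ)) else 1)) := by
      have h3 : ∀ a : Bool, ∀ b : Pr z y → Bool, (if a = true then sg (sgn p (nb b : ℤ)) else 1) =
          ∏ q : Pr z y, if a = true then (if q ≠ p ∧ b q = true then Jr (q : ℕ) p else 1)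
            else 1 := by
        intro a b
        cases a
        · simp
        · simp only [if_true]
          exact sgn_nb b p
      unfold E1 E2
      simp only [h3, ← Finset.prod_mul_distrib]
      rw [Finset.prod_comm]
      refine Finset.prod_congr rfl fun q _ => ?_
      by_cases hqp : q = p
      · subst hqp
        rw [hl]
        have h4 : Pool.Agent.W762.RK2.lk (LK4 cls) (some i) (some i) = false :=
          dk_self _ _ _ i.2
        simp [h4]
      · cases hq : l q with
        | none =>
          have h5 : ξ q = none := by rw [← h q, hq]; rfl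
          simp [Pool.Agent.W762.RK2.lk, h5, B1, B2]
        | some i' =>
          have h5 : ξ q = some (i'.1.1, i'.1.2.1) := by rw [← h q, hq]; rfl
          have h6 := prod_par (Jr (q : ℕ) p) (Jr_self_mul hqp) i'.1.2.1 i.1.2.2
          have h7 : (if Pool.Agent.W762.RK2.lk (LK4 cls) (some i') (some i) = true then
              Jr (q : ℕ) p else 1) =
              if dK k i'.1.2.1 i.1.2.2 % 2 = 1 then Jr (q : ℕ) p else 1 := by
            refine if_congr ?_ rfl rfl
            show decide (dK k i'.1.2.1 i.1.2.2 % 2 = 1) = true ↔ _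
            exact decide_eq_true_iff
          rw [h7, ← h6]
          refine Finset.prod_congr rfl fun a _ => ?_
          have e1 : B1 a (ξ q) = (i'.1.2.1 a).1 := by rw [h5]; rfl
          have e2 : B2 a (ξ q) = (i'.1.2.1 a).2 := by rw [h5]; rfl
          rw [e1, e2]
          exact bits_eq q p _ _ _ _ fun hh => absurd hh hqp
    rw [h2]
    simp only [GG, Option.elim]
    ring

/-- the tuple from the labelling -/
lemma SK_eq {cls : J → Fin 4} (ξ : Pr z y → Option (J × (Fin k → Bool × Bool)))
    (l : Pr z y → Option (IK4 cls k)) (h : ∀ p, fg (l p) = ξ p) (j : J) :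
    ∏ i ∈ univ.filter (fun i : IK4 cls k => i.1.1 = j), Dl l i = SK ξ j := by
  unfold SK Dl nb
  rw [Finset.prod_comm]
  refine Finset.prod_congr rfl fun p _ => ?_
  beta_reduce
  have hp := h p
  generalize ξ p = r at hp
  subst hp
  cases hl : l p with
  | none => simp [fg]
  | some i =>
    have e1 : (Option.map Prod.fst (fg (some i)) : Option J) = some i.1.1 := by
      simp [fg]
    rw [e1]
    by_cases hi : i.1.1 = j
    · rw [Finset.prod_eq_single i]
      · simp [hi]
      · intro b _ hb
        rw [if_neg]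
        simp only [decide_eq_true_eq, Option.some.injEq]
        exact fun h' => hb h'.symm
      · intro h'
        exact absurd (by rw [Finset.mem_filter]; exact ⟨Finset.mem_univ _, hi⟩) h'
    · rw [if_neg (by simpa using hi)]
      refine Finset.prod_eq_one fun b hb => ?_
      rw [if_neg]
      simp only [decide_eq_true_eq, Option.some.injEq]
      rintro rfl
      exact hi (Finset.mem_filter.1 hb).2

end final

theorem expk : Pool.Agent.TH841.PM.EXPK := by
  intro J _ _ cls e g k c z y hz Φ
  classical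
  rw [lhsT, sum_Tup, ← Finset.sum_fiberwise univ
    (fun (l : Pr z y → Option (IK4 cls k)) => fun p => fg (l p))]
  refine Finset.sum_congr rfl fun ξ _ => ?_
  have h1 : (univ.filter fun l : Pr z y → Option (IK4 cls k) => (fun p => fg (l p)) = ξ) =
      Fintype.piFinset (fun p => univ.filter (fun x : Option (IK4 cls k) => fg x = ξ p)) := by
    ext l
    simp only [Finset.mem_filter, Finset.mem_univ, true_and, Fintype.mem_piFinset, funext_iff]
  rw [h1, Finset.prod_congr rfl fun p _ => (sum_GG cls e g c ξ p).symm, Finset.prod_univ_sum,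
    Finset.sum_mul]
  refine Finset.sum_congr rfl fun l hl => ?_
  rw [Fintype.mem_piFinset] at hl
  have hl' : ∀ p, fg (l p) = ξ p := fun p => (Finset.mem_filter.1 (hl p)).2
  rw [rhsT cls e g c ξ l hl']
  congr 2
  funext j
  exact (SK_eq ξ l hl' j).symm

end Pool.Agent.TH841.PM.EXPf
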