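import Mathlib
import Pool.Agent.TH841.PM.PenZ
import Pool.Agent.TH841.PM.Ful
import Pool.Agent.TH841.PM.Lnk
import Pool.Agent.TH841.PM.Atw
import Pool.Agent.TH841.PM.Exp
import Pool.Agent.TH841.PM.Sub
import Pool.Agent.TH841.TR.Fin

/-!
# Project PM: assembly
-/

set_option autoImplicit false

namespace Pool.Agent.TH841.PM

open Finset Polynomial Pool.Agent.W262.RK Pool.Agent.TH841.PT

theorem atwx : ATWX := ATWf.atwx_of blw EPSf.eps EFG.fullg FULf.fulx LNKf.lnkx

theorem avz (hcmb : CMBK) (hbad : BADP) : AVZ :=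
  avz_of atwx MergeF.merge EXPf.expk twg GDPf.gdp cnth SelXf.selx antx RSPf.rsp RVU.rvp RVU.rup
    SUBf.subk hcmb hbad

end Pool.Agent.TH841.PM
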