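import Mathlib
import Pool.Agent.TH841.PM.Fin
import Pool.Agent.TH841.PM.BadP
import Pool.Agent.TH841.PM.Cmb

/-!
# Project PM: the final theorem
-/

set_option autoImplicit false

namespace Pool.Agent.TH841.PM

theorem tavz : AVZ := avz CMBf.cmbk badp

end Pool.Agent.TH841.PM
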